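import Pool.Agent.Hhelper2.Tower
import Pool.Agent.Hhelper2.LocalFactor

/-!
# The rank function of the quaternionic structure of a field

`V = F^* / F^* ^ 2` (finite, additive notation), `N(x) = {y | (x, y) split}` and
`s(x) = log_2 [V : N(x)]`.
-/

namespace Pool.Agent.KRad

open Pool.Agent.Hhelper2 Pool.Agent.Hhelper2.QuadExt Pool.Agent.Hhelper2.Tower Additive Module

universe u

/-- The group of square classes in additive notation. -/
abbrev VV (K : Type u) [Field K] : Type u := Additive (SqClass K)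

/-- The order of the group `N(x)` of all `y` with `(x, y)` split. -/
noncomputable def dg (K : Type u) [Field K] (x : VV K) : ℕ := Nat.card {y : VV K // Sp K x y}

/-- The rank function: `[V : N(x)] = 2 ^ s(x)`. -/
noncomputable def sv (K : Type u) [Field K] (x : VV K) : ℕ :=
  Nat.log 2 (Nat.card (VV K)) - Nat.log 2 (dg K x)

/-- Cut functions on a finite elementary abelian 2-group: nonnegative combinations of the functions
`x ↦ [χ x ≠ 0]`. -/
def IsCut {V : Type*} [AddCommGroup V] [Module (ZMod 2) V] (s : V → ℝ) : Prop :=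
  ∃ μ : Dual (ZMod 2) V → ℝ, (∀ χ, 0 ≤ μ χ) ∧
    ∀ x, s x = ∑ᶠ χ : Dual (ZMod 2) V, if χ x = 1 then μ χ else 0

instance (K : Type u) [Field K] [Finite (SqClass K)] : Finite (VV K) :=
  inferInstanceAs (Finite (SqClass K))

theorem natCard_eq_pow {V : Type*} [AddCommGroup V] [Module (ZMod 2) V] [Finite V] :
    Nat.card V = 2 ^ finrank (ZMod 2) V := by
  have := Module.natCard_eq_pow_finrank (K := ZMod 2) (V := V)
  simpa using this

section
variable {K : Type u} [Field K]

theorem sp_symm (h2 : (2 : K) ≠ 0) {x y : VV K} (h : Sp K x y) : Sp K y x :=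
  (QStr.ofField_axioms K h2).symm _ _ h

theorem sp_zero_right (h2 : (2 : K) ≠ 0) (x : VV K) : Sp K x 0 :=
  (QStr.ofField_axioms K h2).one _

theorem sp_zero_left (h2 : (2 : K) ≠ 0) (x : VV K) : Sp K 0 x :=
  sp_symm h2 (sp_zero_right h2 x)

theorem sp_add_right (h2 : (2 : K) ≠ 0) {x y z : VV K} (h : Sp K x y) (h' : Sp K x z) :
    Sp K x (y + z) :=
  (QStr.ofField_axioms K h2).mul _ _ _ h h'

theorem sp_add_left (h2 : (2 : K) ≠ 0) {x y z : VV K} (h : Sp K x z) (h' : Sp K y z) :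
    Sp K (x + y) z :=
  sp_symm h2 (sp_add_right h2 (sp_symm h2 h) (sp_symm h2 h'))

variable [Finite (SqClass K)] {Q : Type*} [AddCommGroup Q] [Module (ZMod 2) Q]
  (β : VV K →ₗ[ZMod 2] VV K →ₗ[ZMod 2] Q)

theorem dg_eq (hβ : ∀ x y, β x y = 0 ↔ Sp K x y) (x : VV K) :
    dg K x = 2 ^ finrank (ZMod 2) (LinearMap.ker (β x)) := by
  rw [← natCard_eq_pow]
  apply Nat.card_congr
  exact Equiv.subtypeEquivRight (fun y => by rw [LinearMap.mem_ker]; exact (hβ x y).symm)

/-- The rank function in terms of a bilinear symbol. -/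
theorem sv_add_finrank_ker (hβ : ∀ x y, β x y = 0 ↔ Sp K x y) (x : VV K) :
    sv K x + finrank (ZMod 2) (LinearMap.ker (β x)) = finrank (ZMod 2) (VV K) := by
  have h1 := dg_eq β hβ x
  have h2 : Nat.card (VV K) = 2 ^ finrank (ZMod 2) (VV K) := natCard_eq_pow
  have h3 : finrank (ZMod 2) (LinearMap.ker (β x)) ≤ finrank (ZMod 2) (VV K) :=
    Submodule.finrank_le _
  unfold sv
  rw [h1, h2, Nat.log_pow (by norm_num), Nat.log_pow (by norm_num)]
  omega

theorem sv_eq_finrank_range (hβ : ∀ x y, β x y = 0 ↔ Sp K x y) (x : VV K) :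
    sv K x = finrank (ZMod 2) (LinearMap.range (β x)) := by
  have h1 := sv_add_finrank_ker β hβ x
  have h2 := LinearMap.finrank_range_add_finrank_ker (β x)
  omega

/-- A bilinear symbol in additive notation. -/
theorem exists_symbol (K : Type u) [Field K] (h2 : (2 : K) ≠ 0) [Finite (SqClass K)] :
    ∃ (Q : Type u) (_ : AddCommGroup Q) (_ : Module (ZMod 2) Q) (_ : Finite Q)
      (β : VV K →ₗ[ZMod 2] VV K →ₗ[ZMod 2] Q),
      (∀ x y, β x y = 0 ↔ Sp K x y) ∧ (∀ x y, β x y = β y x) ∧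
      (∀ a b c d, β a b = β c d → ∃ w, β a w = β a b ∧ β c w = β a b) := by
  obtain ⟨Q, _, _, _, β, hβ, symm, cs, -, -⟩ := Codim.exists_bilin K h2
  exact ⟨Q, inferInstance, inferInstance, inferInstance, β, fun x y => hβ (toMul x) (toMul y),
    symm, cs⟩

omit [Finite (SqClass K)] in
theorem card_mul (h2 : (2 : K) ≠ 0) [Finite (SqClass K)] (x : VV K) :
    Nat.card (VV K) = 2 ^ sv K x * dg K x := by
  obtain ⟨Q, _, _, _, β, hβ, -, -⟩ := exists_symbol K h2
  rw [dg_eq β hβ x, ← pow_add, sv_add_finrank_ker β hβ x, natCard_eq_pow]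

theorem sv_eq_zero_iff (h2 : (2 : K) ≠ 0) (x : VV K) : sv K x = 0 ↔ ∀ y, Sp K x y := by
  obtain ⟨Q, _, _, _, β, hβ, -, -⟩ := exists_symbol K h2
  rw [sv_eq_finrank_range β hβ x]
  constructor
  · intro h y
    rw [Submodule.finrank_eq_zero, LinearMap.range_eq_bot] at h
    rw [← hβ, h]
    rfl
  · intro h
    rw [Submodule.finrank_eq_zero, LinearMap.range_eq_bot]
    ext y
    exact (hβ x y).2 (h y)

theorem sv_zero (h2 : (2 : K) ≠ 0) : sv K (0 : VV K) = 0 :=
  (sv_eq_zero_iff h2 0).2 (sp_zero_left h2)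

end

end Pool.Agent.KRad
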