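import Pool.Agent.KRad.Biquad

/-!
# Module T2: biquadratic extensions inside a given field, with their automorphisms
-/

namespace Pool.Agent.KRad

open Pool.Agent.Hhelper2 Pool.Agent.Hhelper2.QuadExt Pool.Agent.Hhelper2.Tower Additive Module
open Pool.Agent.Hhelper2.FieldAx

universe u

namespace BiquadIn

open Biquad

/-- The conjugation of a quadratic extension: norms, fixed elements, anti-invariant elements. -/
lemma conj {F E : Type u} [Field F] [Field E] [Algebra F E] (h2 : (2 : E) ≠ 0)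
    (hfin : finrank F E = 2) (a : F) (α : E) (hα : α ^ 2 = algebraMap F E a)
    (hns : ¬ ∃ t : F, a = t ^ 2) (g : E ≃+* E)
    (kF : ∀ x : F, g (algebraMap F E x) = algebraMap F E x) (gα : g α = -α) :
    (∀ r : E, algebraMap F E (Algebra.norm F r) = r * g r) ∧
      (∀ s : E, g s = s → ∃ u : F, s = algebraMap F E u) ∧
      (∀ s : E, g s = -s → ∃ v : F, s = algebraMap F E v * α) := by
  obtain ⟨c, m⟩ := coords hfin a α hα hns
  have hα0 : α ≠ 0 := by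
    rintro rfl
    apply hns
    refine ⟨0, (algebraMap F E).injective ?_⟩
    rw [← hα]
    simp
  refine ⟨?_, ?_, ?_⟩
  · intro r
    obtain ⟨u, v, rfl⟩ := c r
    rw [m, map_add, map_mul, kF, kF, gα, map_sub, map_mul, map_pow, map_pow, ← hα]
    ring
  · intro s hs
    obtain ⟨u, v, rfl⟩ := c s
    rw [map_add, map_mul, kF, kF, gα] at hs
    have h : 2 * (algebraMap F E v * α) = 0 := by linear_combination -hs
    have h' : algebraMap F E v * α = 0 := by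
      rcases mul_eq_zero.1 h with h | h
      · exact absurd h h2
      · exact h
    exact ⟨u, by rw [h', add_zero]⟩
  · intro s hs
    obtain ⟨u, v, rfl⟩ := c s
    rw [map_add, map_mul, kF, kF, gα] at hs
    have h : 2 * algebraMap F E u = 0 := by linear_combination hs
    have h' : algebraMap F E u = 0 := by
      rcases mul_eq_zero.1 h with h | h
      · exact absurd h h2
      · exact h
    exact ⟨v, by rw [h', zero_add]⟩

/-- The class of the norm is trivial. -/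
lemma nm_one {F E : Type u} [Field F] [Field E] [Algebra F E] (h2 : (2 : E) ≠ 0)
    (hfin : finrank F E = 2) (a : F) (α : E) (hα : α ^ 2 = algebraMap F E a)
    (hns : ¬ ∃ t : F, a = t ^ 2) (g : E ≃+* E)
    (kF : ∀ x : F, g (algebraMap F E x) = algebraMap F E x) (gα : g α = -α) (r : Eˣ) :
    gnm F E (sqClass r) = 1 ↔ ∃ s : E, g s = s ∧ s ^ 2 = r * g r := by
  obtain ⟨h1, h3, -⟩ := conj h2 hfin a α hα hns g kF gα
  rw [gnm_mk, one_iff]
  constructor
  · rintro ⟨s, hs⟩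
    refine ⟨algebraMap F E s, kF s, ?_⟩
    rw [← h1, ← map_pow, ← hs]
    rfl
  · rintro ⟨s, hs, hr⟩
    obtain ⟨u, rfl⟩ := h3 s hs
    refine ⟨u, (algebraMap F E).injective ?_⟩
    rw [map_pow, hr, ← h1]
    rfl

/-- The class of the norm is the class of `a`. -/
lemma nm_eq {F E : Type u} [Field F] [Field E] [Algebra F E] (h2 : (2 : E) ≠ 0)
    (hfin : finrank F E = 2) (a : Fˣ) (α : E) (hα : α ^ 2 = algebraMap F E a)
    (hns : ¬ ∃ t : F, (a : F) = t ^ 2) (g : E ≃+* E)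
    (kF : ∀ x : F, g (algebraMap F E x) = algebraMap F E x) (gα : g α = -α) (r : Eˣ) :
    gnm F E (sqClass r) = sqClass a ↔ ∃ s : E, g s = -s ∧ s ^ 2 = r * g r := by
  obtain ⟨h1, -, h3⟩ := conj h2 hfin a α hα hns g kF gα
  rw [gnm_mk, eq_comm, sqClass_eq]
  constructor
  · rintro ⟨s, hs⟩
    refine ⟨algebraMap F E s * α, ?_, ?_⟩
    · rw [map_mul, kF, gα]; ring
    · rw [← h1]
      have h := congrArg (fun x : Fˣ => algebraMap F E (x : F)) hs
      simp only [Units.coe_map, Units.val_mul, Units.val_pow_eq_pow_val, map_mul, map_pow] at h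
      have h' : algebraMap F E (Algebra.norm F (r : E)) =
          algebraMap F E a * algebraMap F E s ^ 2 := h
      rw [h', mul_pow, hα]
      ring
  · rintro ⟨s, hs, hr⟩
    obtain ⟨v, rfl⟩ := h3 s hs
    have hv : v ≠ 0 := by
      rintro rfl
      have h0 : (r : E) * g r = 0 := by rw [← hr]; simp
      rcases mul_eq_zero.1 h0 with h | h
      · exact r.ne_zero h
      · exact r.ne_zero (g.injective (by rw [h, map_zero]))
    refine ⟨Units.mk0 v hv, ?_⟩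
    ext
    apply (algebraMap F E).injective
    simp only [Units.val_mul, Units.val_pow_eq_pow_val, Units.val_mk0, map_mul, map_pow]
    rw [← hα]
    have h' : algebraMap F E (Algebra.norm F (r : E)) = α ^ 2 * algebraMap F E v ^ 2 := by
      rw [h1, ← hr]; ring
    exact h'

end BiquadIn

open Biquad BiquadIn

/-- Module T2. `E = K(β, γ)` with `β ^ 2 = b`, `γ ^ 2 = c`; `g₁, g₂, g₃` are the automorphisms with
fixed fields `E₁ = K(γ)`, `E₂ = K(β)`, `E₃ = K(β γ)`. -/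
theorem biquad_in {K E : Type u} [Field K] [Field E] [Algebra K E] (h2 : (2 : K) ≠ 0)
    (hfin : finrank K E = 4) (b c : Kˣ) (β γ : E) (hβ : β ^ 2 = algebraMap K E b)
    (hγ : γ ^ 2 = algebraMap K E c) (hb : sqClass b ≠ 1) (hc : sqClass c ≠ 1)
    (hbc : sqClass b ≠ sqClass c) (g₁ g₂ g₃ : E ≃+* E)
    (k₁ : ∀ x : K, g₁ (algebraMap K E x) = algebraMap K E x)
    (k₂ : ∀ x : K, g₂ (algebraMap K E x) = algebraMap K E x)
    (k₃ : ∀ x : K, g₃ (algebraMap K E x) = algebraMap K E x)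
    (b₁ : g₁ β = -β) (c₁ : g₁ γ = γ) (b₂ : g₂ β = β) (c₂ : g₂ γ = -γ)
    (b₃ : g₃ β = -β) (c₃ : g₃ γ = -γ) :
    ∃ (E₁ E₂ E₃ : Type u) (_ : Field E₁) (_ : Field E₂) (_ : Field E₃)
      (q₁ : QL K E₁ (sqClass c)) (q₂ : QL K E₂ (sqClass b))
      (q₃ : QL K E₃ (sqClass b * sqClass c))
      (p₁ : QL E₁ E (q₁.res (sqClass b))) (p₂ : QL E₂ E (q₂.res (sqClass c)))
      (p₃ : QL E₃ E (q₃.res (sqClass b))),
      (∀ x, p₁.res (q₁.res x) = p₂.res (q₂.res x)) ∧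
      (∀ x, p₁.res (q₁.res x) = p₃.res (q₃.res x)) ∧
      (∀ r, q₁.nm (p₁.nm r) = q₂.nm (p₂.nm r)) ∧
      (∀ r, q₁.nm (p₁.nm r) = q₃.nm (p₃.nm r)) ∧
      (∀ r, p₁.res (p₁.nm r) * p₂.res (p₂.nm r) * p₃.res (p₃.nm r) =
        p₁.res (q₁.res (q₁.nm (p₁.nm r)))) ∧
      (∀ r : Eˣ, p₁.nm (sqClass r) = 1 ↔ ∃ s : E, g₁ s = s ∧ s ^ 2 = r * g₁ r) ∧
      (∀ r : Eˣ, p₃.nm (sqClass r) = 1 ↔ ∃ s : E, g₃ s = s ∧ s ^ 2 = r * g₃ r) ∧
      (∀ r : Eˣ, p₂.nm (sqClass r) = q₂.res (sqClass c) ↔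
        ∃ s : E, g₂ s = -s ∧ s ^ 2 = r * g₂ r) := by
  have hfd : FiniteDimensional K E := FiniteDimensional.of_finrank_pos (by rw [hfin]; norm_num)
  have h2E : (2 : E) ≠ 0 := by
    intro h
    apply h2
    apply (algebraMap K E).injective
    rw [map_ofNat, h, map_zero]
  have hnb : ¬ ∃ t : K, (b : K) = t ^ 2 := fun h => hb ((one_iff b).2 h)
  have hnc : ¬ ∃ t : K, (c : K) = t ^ 2 := fun h => hc ((one_iff c).2 h)
  have hbc1 : sqClass (b * c) ≠ 1 := fun h => hbc ((eq_iff_mul _ _).2 h)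
  have hnbc : ¬ ∃ t : K, ((b * c : Kˣ) : K) = t ^ 2 := fun h => hbc1 ((one_iff (b * c)).2 h)
  have hδ : (β * γ) ^ 2 = algebraMap K E ((b * c : Kˣ) : K) := by
    rw [mul_pow, hβ, hγ, ← map_mul]
    rfl
  have k1 := finrank_adjoin (c : K) γ hγ hnc
  have k2 := finrank_adjoin (b : K) β hβ hnb
  have k3 := finrank_adjoin ((b * c : Kˣ) : K) (β * γ) hδ hnbc
  have hγ₁ : γ ∈ IntermediateField.adjoin K {γ} := IntermediateField.mem_adjoin_simple_self K γ
  have hβ₂ : β ∈ IntermediateField.adjoin K {β} := IntermediateField.mem_adjoin_simple_self K β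
  have hδ₃ : β * γ ∈ IntermediateField.adjoin K {β * γ} :=
    IntermediateField.mem_adjoin_simple_self K (β * γ)
  generalize IntermediateField.adjoin K {γ} = E₁ at k1 hγ₁
  generalize IntermediateField.adjoin K {β} = E₂ at k2 hβ₂
  generalize IntermediateField.adjoin K {β * γ} = E₃ at k3 hδ₃
  have ff : ∀ F : IntermediateField K E, finrank K F = 2 → finrank F E = 2 := by
    intro F hF
    have := finrank_mul_finrank K F E
    rw [hF, hfin] at this
    omega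
  obtain ⟨q₁, r₁, s₁⟩ := exists_QL h2 k1 c ⟨γ, hγ₁⟩ (by ext; exact hγ) hnc
  obtain ⟨q₂, r₂, s₂⟩ := exists_QL h2 k2 b ⟨β, hβ₂⟩ (by ext; exact hβ) hnb
  obtain ⟨q₃, r₃, s₃⟩ := exists_QL h2 k3 (b * c) ⟨β * γ, hδ₃⟩ (by ext; exact hδ) hnbc
  obtain ⟨⟨p₁, u₁, v₁⟩, n1⟩ := upper q₁ r₁ b hb hbc (ff _ k1) β hβ
  obtain ⟨⟨p₂, u₂, v₂⟩, n2⟩ := upper q₂ r₂ c hc (Ne.symm hbc) (ff _ k2) γ hγ
  obtain ⟨⟨p₃, u₃, v₃⟩, n3⟩ := upper q₃ r₃ b hb (by
    intro h
    apply hc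
    have h' : sqClass b * sqClass c = sqClass b := h.symm
    exact mul_eq_left.1 h') (ff _ k3) β hβ
  -- the automorphisms fix the intermediate fields
  have fix : ∀ (F : IntermediateField K E) (hF : finrank K F = 2) (d : K) (δ : E) (hδF : δ ∈ F)
      (hd : δ ^ 2 = algebraMap K E d) (nd : ¬ ∃ t : K, d = t ^ 2) (g : E ≃+* E)
      (kg : ∀ x : K, g (algebraMap K E x) = algebraMap K E x) (gδ : g δ = δ) (x : F),
      g (algebraMap F E x) = algebraMap F E x := by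
    intro F hF d δ hδF hd nd g kg gδ x
    obtain ⟨c0, -⟩ := coords hF d (⟨δ, hδF⟩ : F) (by ext; exact hd) nd
    obtain ⟨u, v, rfl⟩ := c0 x
    show g (algebraMap K E u + algebraMap K E v * δ) = algebraMap K E u + algebraMap K E v * δ
    rw [map_add, map_mul, kg, kg, gδ]
  have f₁ := fix E₁ k1 (c : K) γ hγ₁ hγ hnc g₁ k₁ c₁
  have f₂ := fix E₂ k2 (b : K) β hβ₂ hβ hnb g₂ k₂ b₂
  have f₃ := fix E₃ k3 ((b * c : Kˣ) : K) (β * γ) hδ₃ hδ hnbc g₃ k₃ (by
    rw [map_mul, b₃, c₃]; ring)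
  refine ⟨E₁, E₂, E₃, inferInstance, inferInstance, inferInstance, q₁, q₂, q₃,
    p₁, p₂, p₃, ?_, ?_, ?_, ?_, ?_, ?_, ?_, ?_⟩
  · intro x
    rw [u₁, r₁, u₂, r₂, gres_gres, gres_gres]
  · intro x
    rw [u₁, r₁, u₃, r₃, gres_gres, gres_gres]
  · intro x
    rw [v₁, s₁, v₂, s₂, gnm_gnm, gnm_gnm]
  · intro x
    rw [v₁, s₁, v₃, s₃, gnm_gnm, gnm_gnm]
  · intro x
    rw [v₁, s₁, v₂, v₃, gnm_gnm, u₁, u₂, u₃, r₁, gres_gres]
    obtain ⟨x, rfl⟩ := exists_rep x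
    symm
    rw [gnm_mk, gnm_mk, gnm_mk, gnm_mk, gres_mk, gres_mk, gres_mk, gres_mk,
      ← QuotientGroup.mk_mul, ← QuotientGroup.mk_mul, sqClass_eq]
    refine ⟨x, ?_⟩
    ext
    exact norm_identity b c E₁ E₂ E₃ hβ hγ hγ₁ hβ₂ hδ₃ k1 (ff _ k1) (ff _ k2) (ff _ k3) hnc
      n1 n2 n3 (x : E)
  · intro r
    rw [v₁]
    exact nm_one h2E (ff _ k1) (algebraMap K E₁ b) β (by rw [hβ]; rfl) n1 g₁ f₁ b₁ r
  · intro r
    rw [v₃]
    exact nm_one h2E (ff _ k3) (algebraMap K E₃ b) β (by rw [hβ]; rfl) n3 g₃ f₃ b₃ r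
  · intro r
    rw [v₂, r₂, gres_mk]
    exact nm_eq h2E (ff _ k2) (Units.map (algebraMap K E₂).toMonoidHom c) γ
      (by rw [hγ]; rfl) n2 g₂ f₂ c₂ r

end Pool.Agent.KRad
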