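import Pool.Agent.KRad.Split5

/-!
# Radical classes of biquadratic extensions with prescribed norm
-/

namespace Pool.Agent.KRad

open Pool.Agent.Hhelper2 Pool.Agent.Hhelper2.QuadExt Pool.Agent.Hhelper2.Tower Additive Module

universe u

/-- Norms of a radical class of a biquadratic extension. -/
theorem bq {F E₁ E₂ E₃ E : Type u} [Field F] [Field E₁] [Field E₂] [Field E₃] [Field E]
    (h2 : (2 : F) ≠ 0) [Finite (SqClass F)] (hR : ∀ x : VV F, sv F x = 0 → x = 0)
    {b c : SqClass F} (q₁ : QL F E₁ c) (q₂ : QL F E₂ b) (q₃ : QL F E₃ (b * c))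
    (p₁ : QL E₁ E (q₁.res b)) (p₂ : QL E₂ E (q₂.res c)) (p₃ : QL E₃ E (q₃.res b))
    (r12 : ∀ x, p₁.res (q₁.res x) = p₂.res (q₂.res x))
    (r13 : ∀ x, p₁.res (q₁.res x) = p₃.res (q₃.res x))
    (n12 : ∀ r, q₁.nm (p₁.nm r) = q₂.nm (p₂.nm r))
    (n13 : ∀ r, q₁.nm (p₁.nm r) = q₃.nm (p₃.nm r))
    (hrel : ∀ r, p₁.res (p₁.nm r) * p₂.res (p₂.nm r) * p₃.res (p₃.nm r) =
        p₁.res (q₁.res (q₁.nm (p₁.nm r))))
    (hc : sv F (ofMul b) = sv F (ofMul c) + sv F (ofMul c + ofMul b))
    (ρ : SqClass E) (hρ : ∀ y, FieldSplit E ρ y) (hn : p₂.nm ρ = q₂.res c) :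
    p₁.nm ρ = 1 ∧ p₃.nm ρ = 1 := by
  obtain ⟨μ, hμ, hs⟩ := isCut_sv (K := F) h2
  have ind : ∀ x y : VV F, sv F (x + y) = sv F x + sv F y ↔
      ∀ χ : Dual (ZMod 2) (VV F), 0 < μ χ → ¬ (χ x = 1 ∧ χ y = 1) := by
    intro x y
    rw [← indep_iff (s := fun x : VV F => (sv F x : ℝ)) hμ hs x y]
    constructor
    · intro h
      show ((sv F (x + y) : ℕ) : ℝ) = _
      rw [h]; push_cast; rfl
    · intro h
      have : ((sv F (x + y) : ℕ) : ℝ) = ((sv F x + sv F y : ℕ) : ℝ) := by
        push_cast; exact h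
      exact_mod_cast this
  -- elements with the same values on the support are equal
  have eq_of : ∀ x y : VV F, (∀ χ : Dual (ZMod 2) (VV F), 0 < μ χ → χ x = χ y) → x = y := by
    intro x y h
    apply Codim.eq_of_add_eq_zero
    apply hR
    have h3 : (sv F (x + y) : ℝ) = 0 := by
      have := hs (x + y)
      simp only at this
      rw [this]
      have h4 : ∀ χ : Dual (ZMod 2) (VV F), (if χ (x + y) = 1 then μ χ else 0) = 0 := by
        intro χ
        split_ifs with h5
        · rcases lt_or_eq_of_le (hμ χ) with h6 | h6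
          · rw [map_add, h χ h6] at h5
            exfalso
            rcases zmod2_cases (χ y) with h7 | h7
            · rw [h7] at h5
              exact absurd h5 (by decide)
            · rw [h7] at h5
              exact absurd h5 (by decide)
          · exact h6.symm
        · rfl
      rw [finsum_congr h4, finsum_zero]
    exact_mod_cast h3
  have hN : q₁.nm (p₁.nm ρ) = 1 := by rw [n12, hn, q₂.nm_res]
  have main : ∀ (b' : SqClass F) (E' : Type u) [Field E'] (q : QL F E' b') (a' : SqClass E')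
      (p : QL E' E a') , q.nm (p.nm ρ) = 1 →
      ∃ x : VV F, p.nm ρ = q.res (toMul x) ∧ sv F (ofMul b') = sv F x + sv F (x + ofMul b') := by
    intro b' E' _ q a' p hq
    have := finite_ext q.toQE
    obtain ⟨x, hx⟩ := q.ker_nm _ hq
    refine ⟨ofMul x, hx, ?_⟩
    have h3 : sv E' (lin q.res (ofMul x)) = 0 := by
      rw [sv_eq_zero_iff q.two_ne]
      intro y
      apply sp_symm q.two_ne
      have h4 : FieldSplit E (p.res (toMul y)) ρ :=
        sp_symm p.two_ne (x := ofMul ρ) (y := ofMul (p.res (toMul y))) (hρ _)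
      have h5 := p.proj _ _ h4
      rw [hx] at h5
      exact h5
    have h4 := sv_step h2 q.toQE (ofMul x)
    omega
  obtain ⟨x₁, hx₁, hD₁⟩ := main _ E₁ q₁ _ p₁ hN
  obtain ⟨x₃, hx₃, hD₃⟩ := main _ E₃ q₃ _ p₃ (by rw [← n13]; exact hN)
  set b' : VV F := ofMul b with hb'
  set c' : VV F := ofMul c with hc'
  have hD₁' : sv F c' = sv F x₁ + sv F (x₁ + c') := hD₁
  have hD₃' : sv F (b' + c') = sv F x₃ + sv F (x₃ + (b' + c')) := hD₃
  have hrel' := hrel ρ
  rw [hx₁, hn, hx₃, ← r12, ← r13, ← map_mul, ← map_mul, ← map_mul, ← map_mul, q₁.nm_res, map_one,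
    map_one] at hrel'
  have hfour : x₁ + c' + x₃ = 0 ∨ x₁ + c' + x₃ = b' ∨ x₁ + c' + x₃ = c' ∨
      x₁ + c' + x₃ = b' + c' := by
    rcases (p₁.res_one _).1 hrel' with h3 | h3
    · rcases (q₁.res_one _).1 h3 with h4 | h4
      · exact Or.inl h4
      · exact Or.inr (Or.inr (Or.inl h4))
    · have h4 : q₁.res (toMul x₁ * toMul c' * toMul x₃ * b) = 1 := by
        rw [map_mul]
        have h5 : q₁.res (toMul x₁ * toMul c' * toMul x₃) = q₁.res b := h3
        rw [h5]
        exact Codim.sqClass_mul_self _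
      rcases (q₁.res_one _).1 h4 with h5 | h5
      · right; left
        have h6 : x₁ + c' + x₃ + b' = 0 := h5
        exact Codim.eq_of_add_eq_zero h6
      · right; right; right
        have h6 : x₁ + c' + x₃ + b' = c' := h5
        have h7 : x₁ + c' + x₃ + b' + b' = x₁ + c' + x₃ := by rw [add_assoc, add_self', add_zero]
        rw [← h7, h6, add_comm]
  have d0 : (1 : ZMod 2) + 1 = 0 := by decide
  have d1 : (0 : ZMod 2) ≠ 1 := by decide
  -- characters
  have c1 : ∀ χ : Dual (ZMod 2) (VV F), 0 < μ χ → χ c' = 0 → χ x₁ = 0 := by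
    intro χ hχ hb
    have h3 := (ind x₁ (x₁ + c')).1 (by rw [← add_assoc, add_self', zero_add, hD₁']) χ hχ
    rcases zmod2_cases (χ x₁) with h4 | h4
    · exact h4
    · exact absurd ⟨h4, by rw [map_add, h4, hb, add_zero]⟩ h3
  have c3 : ∀ χ : Dual (ZMod 2) (VV F), 0 < μ χ → χ (b' + c') = 0 → χ x₃ = 0 := by
    intro χ hχ hb
    have h3 := (ind x₃ (x₃ + (b' + c'))).1 (by rw [← add_assoc, add_self', zero_add, hD₃']) χ hχ
    rcases zmod2_cases (χ x₃) with h4 | h4
    · exact h4
    · exact absurd ⟨h4, by rw [map_add, h4, hb, add_zero]⟩ h3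
  have c2 : ∀ χ : Dual (ZMod 2) (VV F), 0 < μ χ → χ b' = 0 → χ c' = 0 := by
    intro χ hχ hb
    have h3 := (ind c' (c' + b')).1 (by rw [← add_assoc, add_self', zero_add]; exact hc) χ hχ
    rcases zmod2_cases (χ c') with h4 | h4
    · exact h4
    · exact absurd ⟨h4, by rw [map_add, h4, hb, add_zero]⟩ h3
  have kill : ∀ z : VV F, z + z = 0 := fun z => add_self' z
  have fin1 : (x₁ = 0 ∨ x₁ = c') ∧ (x₃ = 0 ∨ x₃ = b' + c') := by
    rcases hfour with h3 | h3 | h3 | h3
    · -- the sum is zero: x₁ + x₃ = c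
      refine ⟨Or.inr (eq_of _ _ fun χ hχ => ?_), Or.inl (eq_of _ _ fun χ hχ => ?_)⟩
      all_goals
        have h4 := congrArg χ h3
        simp only [map_add, map_zero] at h4 ⊢
        have k1 := c1 χ hχ
        have k2 := c2 χ hχ
        have k3 := c3 χ hχ
        rw [map_add] at k3
        generalize χ x₁ = X₁ at *
        generalize χ x₃ = X₃ at *
        generalize χ b' = B at *
        generalize χ c' = C at *
        revert X₁ X₃ B C
        decide
    · refine ⟨Or.inl (eq_of _ _ fun χ hχ => ?_), Or.inr (eq_of _ _ fun χ hχ => ?_)⟩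
      all_goals
        have h4 := congrArg χ h3
        simp only [map_add, map_zero] at h4 ⊢
        have k1 := c1 χ hχ
        have k2 := c2 χ hχ
        have k3 := c3 χ hχ
        rw [map_add] at k3
        generalize χ x₁ = X₁ at *
        generalize χ x₃ = X₃ at *
        generalize χ b' = B at *
        generalize χ c' = C at *
        revert X₁ X₃ B C
        decide
    · refine ⟨Or.inl (eq_of _ _ fun χ hχ => ?_), Or.inl (eq_of _ _ fun χ hχ => ?_)⟩
      all_goals
        have h4 := congrArg χ h3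
        simp only [map_add, map_zero] at h4 ⊢
        have k1 := c1 χ hχ
        have k2 := c2 χ hχ
        have k3 := c3 χ hχ
        rw [map_add] at k3
        generalize χ x₁ = X₁ at *
        generalize χ x₃ = X₃ at *
        generalize χ b' = B at *
        generalize χ c' = C at *
        revert X₁ X₃ B C
        decide
    · refine ⟨Or.inr (eq_of _ _ fun χ hχ => ?_), Or.inr (eq_of _ _ fun χ hχ => ?_)⟩
      all_goals
        have h4 := congrArg χ h3
        simp only [map_add, map_zero] at h4 ⊢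
        have k1 := c1 χ hχ
        have k2 := c2 χ hχ
        have k3 := c3 χ hχ
        rw [map_add] at k3
        generalize χ x₁ = X₁ at *
        generalize χ x₃ = X₃ at *
        generalize χ b' = B at *
        generalize χ c' = C at *
        revert X₁ X₃ B C
        decide
  constructor
  · rw [hx₁]
    rcases fin1.1 with h | h
    · rw [h]; exact map_one _
    · rw [h]; exact (q₁.res_one _).2 (Or.inr rfl)
  · rw [hx₃]
    rcases fin1.2 with h | h
    · rw [h]; exact map_one _
    · rw [h]; exact (q₃.res_one _).2 (Or.inr rfl)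

end Pool.Agent.KRad
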