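import Mathlib

/-!
# Module T4: signs in a triquadratic extension
-/

namespace Pool.Agent.KRad

/-- For automorphisms `g, h` with `g ρ = ρ t²`, `h ρ = ρ u²` and
`s² = ρ (gh)(ρ)` with `s` fixed by `gh`, the element `t g(u)` times its image under `gh` is `1`. -/
theorem signs_aux {L : Type*} [Field L] (g h : L ≃+* L) (ρ : L) (hρ : ρ ≠ 0) (t u : L)
    (ht : g ρ = ρ * t ^ 2) (hu : h ρ = ρ * u ^ 2)
    (hs : ∃ s, g (h s) = s ∧ s ^ 2 = ρ * g (h ρ)) :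
    t * g u * g (h (t * g u)) = 1 := by
  obtain ⟨s, hs1, hs2⟩ := hs
  have e1 : g (h ρ) = ρ * (t * g u) ^ 2 := by
    rw [hu, map_mul, map_pow, ht]; ring
  have hgh : g (h ρ) ≠ 0 := by simpa using hρ
  have hw : t * g u ≠ 0 := by
    intro h0
    rw [e1, h0] at hgh
    simp at hgh
  have e2 : s ^ 2 = (ρ * (t * g u)) ^ 2 := by rw [hs2, e1]; ring
  have key : g (h (ρ * (t * g u))) = ρ * (t * g u) := by
    rcases sq_eq_sq_iff_eq_or_eq_neg.mp e2 with h1 | h1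
    · rw [← h1]; exact hs1
    · have h3 : ρ * (t * g u) = -s := by rw [h1, neg_neg]
      rw [h3, map_neg, map_neg, hs1]
  rw [map_mul h, map_mul g, e1] at key
  have key2 : (ρ * (t * g u)) * (t * g u * g (h (t * g u))) = (ρ * (t * g u)) * 1 := by
    rw [mul_one]; linear_combination key
  exact mul_left_cancel₀ (mul_ne_zero hρ hw) key2

/-- With moreover `t g(t) = ε`, `u h(u) = ε'`, `ε² = ε'² = 1` one has `t g(u) = ε ε' u h(t)`. -/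
theorem signs_pair {L : Type*} [Field L] (g h : L ≃+* L)
    (ig : ∀ x, g (g x) = x) (c : ∀ x, g (h x) = h (g x)) (ρ : L) (hρ : ρ ≠ 0) (t u e e' : L)
    (ht : g ρ = ρ * t ^ 2) (hu : h ρ = ρ * u ^ 2)
    (hs : ∃ s, g (h s) = s ∧ s ^ 2 = ρ * g (h ρ))
    (he : e = 1 ∨ e = -1) (he' : e' = 1 ∨ e' = -1)
    (hte : t * g t = e) (hue : u * h u = e') :
    t * g u = e * e' * (u * h t) := by
  have h1 := signs_aux g h ρ hρ t u ht hu hs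
  rw [map_mul h, map_mul g, c (g u), ig] at h1
  have h2 : h t * g (h t) = e := by
    rw [c t, ← map_mul, hte]
    rcases he with rfl | rfl <;> simp
  have h3 : t * g u * e * e' = u * h t := by
    rw [← h2, ← hue]
    linear_combination (u * h t) * h1
  have he2 : e * e = 1 := by rcases he with rfl | rfl <;> simp
  have he2' : e' * e' = 1 := by rcases he' with rfl | rfl <;> simp
  rw [← h3]
  linear_combination (-(t * g u)) * he2 - (t * g u) * (e * e) * he2'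

/-- Module T4. -/
theorem signs {L : Type*} [Field L] (h2 : (2 : L) ≠ 0) (g₁ g₂ g₃ : L ≃+* L)
    (i₁ : ∀ x, g₁ (g₁ x) = x) (i₂ : ∀ x, g₂ (g₂ x) = x) (i₃ : ∀ x, g₃ (g₃ x) = x)
    (c₁₂ : ∀ x, g₁ (g₂ x) = g₂ (g₁ x)) (c₁₃ : ∀ x, g₁ (g₃ x) = g₃ (g₁ x))
    (c₂₃ : ∀ x, g₂ (g₃ x) = g₃ (g₂ x)) (ρ : L) (hρ : ρ ≠ 0)
    (h₁ : ∃ s, g₁ s = s ∧ s ^ 2 = ρ * g₁ ρ)
    (h₂ : ∃ s, g₂ s = s ∧ s ^ 2 = ρ * g₂ ρ)
    (h₃ : ∃ s, g₃ s = -s ∧ s ^ 2 = ρ * g₃ ρ)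
    (h₁₂ : ∃ s, g₁ (g₂ s) = s ∧ s ^ 2 = ρ * g₁ (g₂ ρ))
    (h₁₃ : ∃ s, g₁ (g₃ s) = s ∧ s ^ 2 = ρ * g₁ (g₃ ρ))
    (h₂₃ : ∃ s, g₂ (g₃ s) = s ∧ s ^ 2 = ρ * g₂ (g₃ ρ))
    (h₁₂₃ : ∃ s, g₁ (g₂ (g₃ s)) = s ∧ s ^ 2 = ρ * g₁ (g₂ (g₃ ρ))) : False := by
  obtain ⟨s₁, a₁, b₁⟩ := h₁
  obtain ⟨s₂, a₂, b₂⟩ := h₂
  obtain ⟨s₃, a₃, b₃⟩ := h₃
  have r₁ : g₁ ρ ≠ 0 := by simpa using hρ
  have r₂ : g₂ ρ ≠ 0 := by simpa using hρ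
  have r₃ : g₃ ρ ≠ 0 := by simpa using hρ
  have t₁ : g₁ ρ = ρ * (s₁ / ρ) ^ 2 := by field_simp; rw [b₁]; ring
  have t₂ : g₂ ρ = ρ * (s₂ / ρ) ^ 2 := by field_simp; rw [b₂]; ring
  have t₃ : g₃ ρ = ρ * (s₃ / ρ) ^ 2 := by field_simp; rw [b₃]; ring
  have e₁ : (s₁ / ρ) * g₁ (s₁ / ρ) = 1 := by
    rw [map_div₀, a₁]; field_simp; rw [b₁]
  have e₂ : (s₂ / ρ) * g₂ (s₂ / ρ) = 1 := by
    rw [map_div₀, a₂]; field_simp; rw [b₂]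
  have e₃ : (s₃ / ρ) * g₃ (s₃ / ρ) = -1 := by
    rw [map_div₀, a₃]; field_simp; rw [b₃]
  generalize s₁ / ρ = x₁ at t₁ e₁
  generalize s₂ / ρ = x₂ at t₂ e₂
  generalize s₃ / ρ = x₃ at t₃ e₃
  have p₁₂ := signs_pair g₁ g₂ i₁ c₁₂ ρ hρ x₁ x₂ 1 1 t₁ t₂ h₁₂ (Or.inl rfl) (Or.inl rfl) e₁ e₂
  have p₁₃ := signs_pair g₁ g₃ i₁ c₁₃ ρ hρ x₁ x₃ 1 (-1) t₁ t₃ h₁₃ (Or.inl rfl) (Or.inr rfl) e₁ e₃
  have q₂₃ := signs_aux g₂ g₃ ρ hρ x₂ x₃ t₂ t₃ h₂₃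
  have r₂₃ : g₂ (g₃ ρ) = ρ * (x₂ * g₂ x₃) ^ 2 := by
    rw [t₃, map_mul, map_pow, t₂]; ring
  have p := signs_pair g₁ (g₃.trans g₂) i₁
    (by intro x; simp only [RingEquiv.trans_apply]; rw [c₁₂, c₁₃]) ρ hρ x₁ (x₂ * g₂ x₃) 1 1 t₁
    (by simpa using r₂₃) (by simpa using h₁₂₃) (Or.inl rfl) (Or.inl rfl) e₁ (by simpa using q₂₃)
  have q : x₁ * g₁ (x₂ * g₂ x₃) = -(x₂ * g₂ x₃ * g₂ (g₃ x₁)) := by
    rw [map_mul, ← mul_assoc, p₁₂, c₁₂]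
    have := congrArg g₂ p₁₃
    simp only [map_mul, map_one, map_neg] at this
    linear_combination x₂ * this
  rw [q] at p
  simp only [RingEquiv.trans_apply, one_mul] at p
  have hx₁ : x₁ ≠ 0 := by
    rintro rfl; simp at e₁
  have hx₂ : x₂ ≠ 0 := by
    rintro rfl; simp at e₂
  have hx₃ : x₃ ≠ 0 := by
    rintro rfl; simp at e₃
  have hne : x₂ * g₂ x₃ * g₂ (g₃ x₁) ≠ 0 := by
    refine mul_ne_zero (mul_ne_zero hx₂ ?_) ?_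
    · simpa using hx₃
    · simpa using hx₁
  have : (2 : L) * (x₂ * g₂ x₃ * g₂ (g₃ x₁)) = 0 := by linear_combination (-1 : L) * p
  exact (mul_ne_zero h2 hne) this

end Pool.Agent.KRad
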