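import Pool.Agent.KRad.Biquad

/-!
# Module T1: triquadratic extensions

The field `K(√a, √b, √c)` is built as a tower of three quadratic algebras; the sign automorphisms
are lifted coefficientwise.
-/

namespace Pool.Agent.KRad

open Pool.Agent.Hhelper2 Pool.Agent.Hhelper2.QuadExt Pool.Agent.Hhelper2.Tower Additive Module
open Pool.Agent.Hhelper2.FieldAx

universe u

namespace Triquad

/-- The coefficientwise extension of an automorphism to a quadratic algebra. -/
def liftAut {F : Type u} [Field F] (d : F) (g : F ≃+* F) (hg : g d = d) :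
    QuadraticAlgebra F d 0 ≃+* QuadraticAlgebra F d 0 where
  toFun z := ⟨g z.re, g z.im⟩
  invFun z := ⟨g.symm z.re, g.symm z.im⟩
  left_inv z := by ext <;> simp
  right_inv z := by ext <;> simp
  map_mul' z w := by
    ext <;> simp [hg]
  map_add' z w := by
    ext <;> simp

/-- The conjugation of a quadratic algebra. -/
def conjAut {F : Type u} [Field F] (d : F) :
    QuadraticAlgebra F d 0 ≃+* QuadraticAlgebra F d 0 where
  toFun z := ⟨z.re, -z.im⟩
  invFun z := ⟨z.re, -z.im⟩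
  left_inv z := by ext <;> simp
  right_inv z := by ext <;> simp
  map_mul' z w := by
    ext <;> simp
    ring
  map_add' z w := by
    ext <;> simp
    ring

lemma liftAut_re {F : Type u} [Field F] (d : F) (g : F ≃+* F) (hg : g d = d)
    (z : QuadraticAlgebra F d 0) : (liftAut d g hg z).re = g z.re := rfl

lemma liftAut_im {F : Type u} [Field F] (d : F) (g : F ≃+* F) (hg : g d = d)
    (z : QuadraticAlgebra F d 0) : (liftAut d g hg z).im = g z.im := rfl

lemma conjAut_re {F : Type u} [Field F] (d : F)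
    (z : QuadraticAlgebra F d 0) : (conjAut d z).re = z.re := rfl

lemma conjAut_im {F : Type u} [Field F] (d : F)
    (z : QuadraticAlgebra F d 0) : (conjAut d z).im = -z.im := rfl

/-- One step: adjoin a square root and extend all automorphisms. -/
lemma step {K F : Type u} [Field K] [Field F] [Algebra K F] [FiniteDimensional K F]
    (h2 : (2 : K) ≠ 0) (d : K) (hd : ¬ ∃ t : F, algebraMap K F d = t ^ 2) :
    ∃ (L : Type u) (_ : Field L) (_ : Algebra K L) (_ : FiniteDimensional K L)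
      (ι : F →+* L) (γ : L) (c : L ≃+* L),
      finrank K L = finrank K F * 2 ∧ (∀ x : K, ι (algebraMap K F x) = algebraMap K L x) ∧
      γ ^ 2 = algebraMap K L d ∧
      (∀ x : F, c (ι x) = ι x) ∧ c γ = -γ ∧ (∀ x, c (c x) = x) ∧
      (∀ x : L, ∃ p q : F, x = ι p + ι q * γ) ∧
      (∀ x : F, (∃ t : L, ι x = t ^ 2) →
        ∃ s : F, x = s ^ 2 ∨ x = algebraMap K F d * s ^ 2) ∧
      ∀ g : F ≃+* F, (∀ x : K, g (algebraMap K F x) = algebraMap K F x) →
        ∃ g' : L ≃+* L, (∀ x : F, g' (ι x) = ι (g x)) ∧ g' γ = γ := by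
  have hf : Fact (∀ r : F, r ^ 2 ≠ algebraMap K F d + 0 * r) :=
    ⟨fun r hr => hd ⟨r, by rw [hr]; ring⟩⟩
  have hfinE : finrank F (QuadraticAlgebra F (algebraMap K F d) 0) = 2 :=
    QuadraticAlgebra.finrank_eq_two ..
  have hfin := finrank_mul_finrank K F (QuadraticAlgebra F (algebraMap K F d) 0)
  rw [hfinE] at hfin
  have hpos : 0 < finrank K F := finrank_pos
  refine ⟨QuadraticAlgebra F (algebraMap K F d) 0, inferInstance, inferInstance,
    FiniteDimensional.of_finrank_pos (by rw [← hfin]; omega), algebraMap F _, ⟨0, 1⟩,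
    conjAut _, hfin.symm, ?_, ?_, ?_, ?_, ?_, ?_, ?_, ?_⟩
  · intro x
    rfl
  · rw [← elt_sqrt (a := algebraMap K F d) 1, one_pow, mul_one]
    rfl
  · intro x
    ext
    · rfl
    · show -(0 : F) = 0
      exact neg_zero
  · ext
    · show (0 : F) = -0
      exact neg_zero.symm
    · rfl
  · intro x
    ext
    · rfl
    · exact neg_neg _
  · intro x
    refine ⟨x.re, x.im, ?_⟩
    ext <;> simp
  · intro x hx
    have h2F : (2 : F) ≠ 0 := by
      intro h
      apply h2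
      apply (algebraMap K F).injective
      rw [map_zero, map_ofNat, h]
    exact elt_sq h2F hx
  · intro g hg
    refine ⟨liftAut _ g (hg d), ?_, ?_⟩
    · intro x
      ext
      · rfl
      · exact map_zero g
    · ext
      · exact map_zero g
      · exact map_one g

end Triquad

open Triquad

/-- Module T1. For independent classes `a, b, c` there is a field `L = K(√a, √b, √c)` of degree
eight with the three sign automorphisms. -/
theorem exists_triquad (K : Type u) [Field K] (h2 : (2 : K) ≠ 0) (a b c : Kˣ)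
    (ha : sqClass a ≠ 1) (hb : sqClass b ≠ 1) (hc : sqClass c ≠ 1)
    (hab : sqClass a ≠ sqClass b) (hac : sqClass a ≠ sqClass c) (hbc : sqClass b ≠ sqClass c)
    (habc : sqClass a * sqClass b ≠ sqClass c) :
    ∃ (L : Type u) (_ : Field L) (_ : Algebra K L) (α β γ : L) (g₁ g₂ g₃ : L ≃+* L),
      finrank K L = 8 ∧
      α ^ 2 = algebraMap K L a ∧ β ^ 2 = algebraMap K L b ∧ γ ^ 2 = algebraMap K L c ∧
      (∀ x : K, g₁ (algebraMap K L x) = algebraMap K L x) ∧
      (∀ x : K, g₂ (algebraMap K L x) = algebraMap K L x) ∧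
      (∀ x : K, g₃ (algebraMap K L x) = algebraMap K L x) ∧
      (g₁ α = -α ∧ g₁ β = β ∧ g₁ γ = γ) ∧ (g₂ α = α ∧ g₂ β = -β ∧ g₂ γ = γ) ∧
      (g₃ α = α ∧ g₃ β = β ∧ g₃ γ = -γ) ∧
      (∀ x, g₁ (g₁ x) = x) ∧ (∀ x, g₂ (g₂ x) = x) ∧ (∀ x, g₃ (g₃ x) = x) ∧
      (∀ x, g₁ (g₂ x) = g₂ (g₁ x)) ∧ (∀ x, g₁ (g₃ x) = g₃ (g₁ x)) ∧
      (∀ x, g₂ (g₃ x) = g₃ (g₂ x)) := by
  have sqc : ∀ (x y : Kˣ) (s : K), (x : K) = y * s ^ 2 → sqClass x = sqClass y := by
    intro x y s h
    have hs0 : s ≠ 0 := by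
      rintro rfl
      apply x.ne_zero
      rw [h]; ring
    symm
    rw [sqClass_eq]
    exact ⟨Units.mk0 s hs0, by ext; simp [h]⟩
  have sq1 : ∀ (x : Kˣ) (s : K), (x : K) = s ^ 2 → sqClass x = 1 := fun x s h =>
    (one_iff x).2 ⟨s, h⟩
  -- first layer
  have ns1 : ¬ ∃ t : K, algebraMap K K (a : K) = t ^ 2 := fun h => ha ((one_iff a).2 h)
  obtain ⟨E, _, _, _, i₁, α, c₁, fin1, hi1, hα, cb1, cα, cc1, co1, sq1', -⟩ := step h2 (a : K) ns1
  have hi1' : ∀ x : K, i₁ x = algebraMap K E x := hi1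
  have sqE : ∀ x : K, (∃ t : E, algebraMap K E x = t ^ 2) → ∃ s : K, x = s ^ 2 ∨ x = a * s ^ 2 := by
    intro x hx
    exact sq1' x (by rwa [hi1'])
  have cK1 : ∀ x : K, c₁ (algebraMap K E x) = algebraMap K E x := by
    intro x
    rw [← hi1', cb1]
  -- second layer
  have ns2 : ¬ ∃ t : E, algebraMap K E (b : K) = t ^ 2 := by
    intro h
    obtain ⟨s, hs | hs⟩ := sqE _ h
    · exact hb (sq1 b s hs)
    · exact hab (sqc b a s hs).symm
  obtain ⟨M, _, _, _, i₂, β, c₂, fin2, hi2, hβ, cb2, cβ, cc2, co2, sqM, li2⟩ := step h2 (b : K) ns2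
  have cK2 : ∀ x : K, c₂ (algebraMap K M x) = algebraMap K M x := by
    intro x
    rw [← hi2, cb2]
  obtain ⟨d₁, db1, dβ⟩ := li2 c₁ cK1
  have dK1 : ∀ x : K, d₁ (algebraMap K M x) = algebraMap K M x := by
    intro x
    rw [← hi2, db1, cK1]
  -- third layer
  have ns3 : ¬ ∃ t : M, algebraMap K M (c : K) = t ^ 2 := by
    intro h
    have hb0 : (b : K) ≠ 0 := b.ne_zero
    obtain ⟨s, hs | hs⟩ := sqM (algebraMap K E (c : K)) (by rwa [hi2])
    · obtain ⟨t, ht | ht⟩ := sqE _ ⟨s, hs⟩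
      · exact hc (sq1 c t ht)
      · exact hac (sqc c a t ht).symm
    · have h3 : ∃ t : E, algebraMap K E ((b * c : Kˣ) : K) = t ^ 2 := by
        refine ⟨algebraMap K E b * s, ?_⟩
        rw [Units.val_mul, map_mul, hs]
        ring
      obtain ⟨t, ht | ht⟩ := sqE _ h3
      · have h4 : sqClass (b * c) = 1 := sq1 _ t ht
        exact hbc ((eq_iff_mul _ _).2 h4)
      · have h4 : sqClass (b * c) = sqClass a := sqc _ a t ht
        apply habc
        rw [← h4, mul_comm, eq_iff_mul]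
        have h5 : sqClass (b * c) = sqClass b * sqClass c := rfl
        rw [h5]
        have h6 := Codim.sqClass_mul_self (sqClass b)
        have h7 := Codim.sqClass_mul_self (sqClass c)
        calc sqClass b * (sqClass b * sqClass c) * sqClass c
            = (sqClass b * sqClass b) * (sqClass c * sqClass c) := by
              simp only [mul_assoc]
          _ = 1 := by rw [h6, h7, one_mul]
  obtain ⟨L, _, _, _, i₃, γ, c₃, fin3, hi3, hγ, cb3, cγ, cc3, co3, -, li3⟩ := step h2 (c : K) ns3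
  obtain ⟨e₁, eb1, eγ1⟩ := li3 d₁ dK1
  obtain ⟨e₂, eb2, eγ2⟩ := li3 c₂ cK2
  have dd1 : ∀ x : M, d₁ (d₁ x) = x := by
    intro x
    obtain ⟨p, q, rfl⟩ := co2 x
    simp only [map_add, map_mul, db1, dβ, cc1]
  have dc1 : ∀ x : M, d₁ (c₂ x) = c₂ (d₁ x) := by
    intro x
    obtain ⟨p, q, rfl⟩ := co2 x
    simp only [map_add, map_mul, db1, dβ, cb2, cβ, map_neg]
  refine ⟨L, inferInstance, inferInstance, i₃ (i₂ α), i₃ β, γ, e₁, e₂, c₃, ?_, ?_, ?_, hγ, ?_, ?_,
    ?_, ⟨?_, ?_, eγ1⟩, ⟨?_, ?_, eγ2⟩, ⟨?_, ?_, cγ⟩, ?_, ?_, cc3, ?_, ?_, ?_⟩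
  · rw [fin3, fin2, fin1, finrank_self]
  · rw [← map_pow, ← map_pow, hα, hi2, hi3]
  · rw [← map_pow, hβ, hi3]
  · intro x
    rw [← hi3, eb1, dK1]
  · intro x
    rw [← hi3, eb2, cK2]
  · intro x
    rw [← hi3, cb3]
  · rw [eb1, db1, cα, map_neg, map_neg]
  · rw [eb1, dβ]
  · rw [eb2, cb2]
  · rw [eb2, cβ, map_neg]
  · rw [cb3]
  · rw [cb3]
  · intro x
    obtain ⟨p, q, rfl⟩ := co3 x
    simp only [map_add, map_mul, eb1, eγ1, dd1]
  · intro x
    obtain ⟨p, q, rfl⟩ := co3 x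
    simp only [map_add, map_mul, eb2, eγ2, cc2]
  · intro x
    obtain ⟨p, q, rfl⟩ := co3 x
    simp only [map_add, map_mul, eb1, eγ1, eb2, eγ2, dc1]
  · intro x
    obtain ⟨p, q, rfl⟩ := co3 x
    simp only [map_add, map_mul, eb1, eγ1, cb3, cγ, map_neg]
  · intro x
    obtain ⟨p, q, rfl⟩ := co3 x
    simp only [map_add, map_mul, eb2, eγ2, cb3, cγ, map_neg]

end Pool.Agent.KRad
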