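import Pool.Agent.KRad.GoUpA
import Pool.Agent.KRad.GoUpB
import Pool.Agent.KRad.Triquad
import Pool.Agent.KRad.BiquadIn
import Pool.Agent.KRad.Signs

/-!
# Going up: quadratic extensions inherit indecomposability
-/

namespace Pool.Agent.KRad

open Pool.Agent.Hhelper2 Pool.Agent.Hhelper2.QuadExt Pool.Agent.Hhelper2.Tower Additive Module
open Pool.Agent.Hhelper2.FieldAx

universe u

/-- One quadratic layer below a triquadratic extension. -/
theorem layerF {K F L : Type u} [Field K] [Field F] [Field L] [Algebra K F] [Algebra F L]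
    [Algebra K L] [IsScalarTower K F L] (h2 : (2 : K) ≠ 0)
    [Finite (SqClass K)] (hK : Conn K) (hF : finrank K F = 2) (hL : finrank F L = 4)
    (u b c : Kˣ) (η : F) (β γ : L)
    (hη : η ^ 2 = algebraMap K F u) (hβ : β ^ 2 = algebraMap K L b)
    (hγ : γ ^ 2 = algebraMap K L c) (hu : sqClass u ≠ 1) (hb : sqClass b ≠ 1)
    (hbu : sqClass b ≠ sqClass u) (hc : sqClass c ≠ 1) (hcu : sqClass c ≠ sqClass u)
    (hbc : sqClass b ≠ sqClass c) (hbcu : sqClass b * sqClass c ≠ sqClass u)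
    (g₁ g₂ g₃ : L ≃+* L)
    (k₁ : ∀ x : K, g₁ (algebraMap K L x) = algebraMap K L x)
    (k₂ : ∀ x : K, g₂ (algebraMap K L x) = algebraMap K L x)
    (k₃ : ∀ x : K, g₃ (algebraMap K L x) = algebraMap K L x)
    (e₁ : g₁ (algebraMap F L η) = algebraMap F L η)
    (e₂ : g₂ (algebraMap F L η) = algebraMap F L η)
    (e₃ : g₃ (algebraMap F L η) = algebraMap F L η)
    (b₁ : g₁ β = -β) (c₁ : g₁ γ = γ) (b₂ : g₂ β = β) (c₂ : g₂ γ = -γ)
    (b₃ : g₃ β = -β) (c₃ : g₃ γ = -γ)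
    (hsum : sv K (ofMul (sqClass c)) + sv K (ofMul (sqClass c) + ofMul (sqClass u)) +
      sv K (ofMul (sqClass c) + ofMul (sqClass b)) +
      sv K (ofMul (sqClass c) + ofMul (sqClass b) + ofMul (sqClass u)) =
      sv K (ofMul (sqClass u)) + sv K (ofMul (sqClass b)) +
      sv K (ofMul (sqClass b) + ofMul (sqClass u))) :
    (∃ r : Lˣ, (∀ y, FieldSplit L (sqClass r) y) ∧ ∃ s : L, g₂ s = -s ∧ s ^ 2 = r * g₂ r) ∧
    ∀ r : Lˣ, (∀ y, FieldSplit L (sqClass r) y) → (∃ s : L, g₂ s = -s ∧ s ^ 2 = r * g₂ r) →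
      (∃ s : L, g₁ s = s ∧ s ^ 2 = r * g₁ r) ∧ (∃ s : L, g₃ s = s ∧ s ^ 2 = r * g₃ r) := by
  have hns : ¬ ∃ t : K, (u : K) = t ^ 2 := fun h => hu ((one_iff u).2 h)
  obtain ⟨q, hq, -⟩ := exists_QL h2 hF u η hη hns
  have := finite_ext q.toQE
  have hR : ∀ x : VV F, sv F x = 0 → x = 0 := rad_ext h2 hK q
  -- fixed elements
  have hcoord := (Biquad.coords hF (u : K) η hη hns).1
  have hfix : ∀ g : L ≃+* L, (∀ x : K, g (algebraMap K L x) = algebraMap K L x) →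
      g (algebraMap F L η) = algebraMap F L η → ∀ x : F, g (algebraMap F L x) = algebraMap F L x := by
    intro g h1 h3 x
    obtain ⟨v, w, rfl⟩ := hcoord x
    have e : ∀ v : K, g (algebraMap F L (algebraMap K F v)) = algebraMap F L (algebraMap K F v) := by
      intro v
      rw [← IsScalarTower.algebraMap_apply K F L]
      exact h1 v
    rw [map_add, map_mul, map_add, map_mul, e, e, h3]
  -- the classes of `b` and `c` in `F`
  let bF : Fˣ := Units.map (algebraMap K F).toMonoidHom b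
  let cF : Fˣ := Units.map (algebraMap K F).toMonoidHom c
  have hbF : sqClass bF = q.res (sqClass b) := by rw [hq]; rfl
  have hcF : sqClass cF = q.res (sqClass c) := by rw [hq]; rfl
  have hb1 : sqClass bF ≠ 1 := by
    rw [hbF]
    intro h
    rcases (q.res_one _).1 h with h3 | h3
    · exact hb h3
    · exact hbu h3
  have hc1 : sqClass cF ≠ 1 := by
    rw [hcF]
    intro h
    rcases (q.res_one _).1 h with h3 | h3
    · exact hc h3
    · exact hcu h3
  have hbc1 : sqClass bF ≠ sqClass cF := by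
    rw [hbF, hcF]
    intro h
    have h1 := (eq_iff_mul _ _).1 h
    rw [← map_mul] at h1
    rcases (q.res_one _).1 h1 with h3 | h3
    · exact hbc ((eq_iff_mul _ _).2 h3)
    · exact hbcu h3
  obtain ⟨E₁, E₂, E₃, _, _, _, q₁, q₂, q₃, p₁, p₂, p₃, r12, r13, n12, n13, hrel, t₁, t₃, t₂⟩ :=
    biquad_in (K := F) (E := L) q.two_ne hL bF cF β γ
      (by rw [hβ]; exact IsScalarTower.algebraMap_apply K F L (b : K))
      (by rw [hγ]; exact IsScalarTower.algebraMap_apply K F L (c : K)) hb1 hc1 hbc1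
      g₁ g₂ g₃ (hfix g₁ k₁ e₁) (hfix g₂ k₂ e₂) (hfix g₃ k₃ e₃) b₁ c₁ b₂ c₂ b₃ c₃
  have := finite_ext q₂.toQE
  -- the rank function of `F`
  have s1 := sv_step h2 q.toQE (ofMul (sqClass c))
  have s2 := sv_step h2 q.toQE (ofMul (sqClass b))
  have s3 := sv_step h2 q.toQE (ofMul (sqClass c) + ofMul (sqClass b))
  have m1 : lin q.toQE.res (ofMul (sqClass c)) = ofMul (sqClass cF) := by rw [hcF]; rfl
  have m2 : lin q.toQE.res (ofMul (sqClass b)) = ofMul (sqClass bF) := by rw [hbF]; rfl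
  rw [map_add, m1, m2] at s3
  rw [m1] at s1
  rw [m2] at s2
  have s4 := sv_step q.two_ne q₂.toQE (ofMul (sqClass cF))
  have hsub := sv_add_le q.two_ne (ofMul (sqClass cF)) (ofMul (sqClass cF) + ofMul (sqClass bF))
  rw [← add_assoc, Codim.add_self, zero_add] at hsub
  have hF1 : sv F (ofMul (sqClass bF)) = sv F (ofMul (sqClass cF)) +
      sv F (ofMul (sqClass cF) + ofMul (sqClass bF)) := by omega
  have hrad : sv E₂ (lin q₂.toQE.res (ofMul (sqClass cF))) = 0 := by omega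
  constructor
  · obtain ⟨ρ, hρ, hnρ⟩ := rn q₂.two_ne p₂ (lin q₂.toQE.res (ofMul (sqClass cF)))
      ((sv_eq_zero_iff q₂.two_ne _).1 hrad)
    obtain ⟨r, hr⟩ := exists_rep (toMul ρ)
    refine ⟨r, fun y => ?_, (t₂ r).1 ?_⟩
    · rw [hr]
      exact hρ (ofMul y)
    · rw [hr]
      exact hnρ
  · intro r hr hs
    have h3 := (t₂ r).2 hs
    have h4 := bq q.two_ne hR q₁ q₂ q₃ p₁ p₂ p₃ r12 r13 n12 n13 hrel hF1 (sqClass r) hr h3
    exact ⟨(t₁ r).1 h4.1, (t₃ r).1 h4.2⟩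

/-- One quadratic layer below a triquadratic extension. -/
theorem layer {K L : Type u} [Field K] [Field L] [Algebra K L] (h2 : (2 : K) ≠ 0)
    [Finite (SqClass K)] (hK : Conn K) (hfin : finrank K L = 8) (u b c : Kˣ) (η β γ : L)
    (hη : η ^ 2 = algebraMap K L u) (hβ : β ^ 2 = algebraMap K L b)
    (hγ : γ ^ 2 = algebraMap K L c) (hu : sqClass u ≠ 1) (hb : sqClass b ≠ 1)
    (hbu : sqClass b ≠ sqClass u) (hc : sqClass c ≠ 1) (hcu : sqClass c ≠ sqClass u)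
    (hbc : sqClass b ≠ sqClass c) (hbcu : sqClass b * sqClass c ≠ sqClass u)
    (g₁ g₂ g₃ : L ≃+* L)
    (k₁ : ∀ x : K, g₁ (algebraMap K L x) = algebraMap K L x)
    (k₂ : ∀ x : K, g₂ (algebraMap K L x) = algebraMap K L x)
    (k₃ : ∀ x : K, g₃ (algebraMap K L x) = algebraMap K L x)
    (e₁ : g₁ η = η) (e₂ : g₂ η = η) (e₃ : g₃ η = η)
    (b₁ : g₁ β = -β) (c₁ : g₁ γ = γ) (b₂ : g₂ β = β) (c₂ : g₂ γ = -γ)
    (b₃ : g₃ β = -β) (c₃ : g₃ γ = -γ)
    (hsum : sv K (ofMul (sqClass c)) + sv K (ofMul (sqClass c) + ofMul (sqClass u)) +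
      sv K (ofMul (sqClass c) + ofMul (sqClass b)) +
      sv K (ofMul (sqClass c) + ofMul (sqClass b) + ofMul (sqClass u)) =
      sv K (ofMul (sqClass u)) + sv K (ofMul (sqClass b)) +
      sv K (ofMul (sqClass b) + ofMul (sqClass u))) :
    (∃ r : Lˣ, (∀ y, FieldSplit L (sqClass r) y) ∧ ∃ s : L, g₂ s = -s ∧ s ^ 2 = r * g₂ r) ∧
    ∀ r : Lˣ, (∀ y, FieldSplit L (sqClass r) y) → (∃ s : L, g₂ s = -s ∧ s ^ 2 = r * g₂ r) →
      (∃ s : L, g₁ s = s ∧ s ^ 2 = r * g₁ r) ∧ (∃ s : L, g₃ s = s ∧ s ^ 2 = r * g₃ r) := by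
  have hns : ¬ ∃ t : K, (u : K) = t ^ 2 := fun h => hu ((one_iff u).2 h)
  have hF2 := Biquad.finrank_adjoin (u : K) η hη hns
  have hηF : η ∈ IntermediateField.adjoin K {η} := IntermediateField.mem_adjoin_simple_self K η
  generalize IntermediateField.adjoin K {η} = F at hF2 hηF
  have hFL : finrank F L = 4 := by
    have h1 := finrank_mul_finrank K F L
    rw [hF2, hfin] at h1
    omega
  exact layerF h2 hK hF2 hFL u b c ⟨η, hηF⟩ β γ (by ext; exact hη) hβ hγ hu hb hbu hc hcu hbc hbcu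
    g₁ g₂ g₃ k₁ k₂ k₃ e₁ e₂ e₃ b₁ c₁ b₂ c₂ b₃ c₃ hsum

/-- Going up, second step. -/
theorem stepB {K : Type u} [Field K] (h2 : (2 : K) ≠ 0) [Finite (SqClass K)] (hK : Conn K)
    (a b c : SqClass K) (ha : a ≠ 1) (hb : b ≠ 1) (hc : c ≠ 1) (hab : a ≠ b) (hac : a ≠ c)
    (hbc : b ≠ c) (habc : a * b ≠ c) :
    sv K (ofMul c) + sv K (ofMul c + ofMul a) + sv K (ofMul c + ofMul b) +
      sv K (ofMul c + ofMul a + ofMul b) ≠
      sv K (ofMul a) + sv K (ofMul b) + sv K (ofMul a + ofMul b) := by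
  intro hsum
  obtain ⟨a, rfl⟩ := exists_rep a
  obtain ⟨b, rfl⟩ := exists_rep b
  obtain ⟨c, rfl⟩ := exists_rep c
  obtain ⟨L, _, _, α, β, γ, g₁, g₂, g₃, hfin, hα, hβ, hγ, k₁, k₂, k₃, ⟨a₁, b₁, c₁⟩, ⟨a₂, b₂, c₂⟩,
    ⟨a₃, b₃, c₃⟩, i₁, i₂, i₃, c12, c13, c23⟩ := exists_triquad K h2 a b c ha hb hc hab hac hbc habc
  have h2L : (2 : L) ≠ 0 := by
    intro h
    apply h2
    apply (algebraMap K L).injective
    rw [map_ofNat, map_zero, h]
  have mm : ∀ x : SqClass K, x * x = 1 := Codim.sqClass_mul_self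
  have hbca : sqClass b * sqClass c ≠ sqClass a := by
    intro h
    apply habc
    rw [← h, mul_assoc, mul_comm (sqClass c), ← mul_assoc, mm, one_mul]
  have hacb : sqClass a * sqClass c ≠ sqClass b := by
    intro h
    apply habc
    rw [← h, ← mul_assoc, mm, one_mul]
  -- the three layers
  obtain ⟨⟨r, hr, hr₃⟩, L₁⟩ := layer h2 hK hfin a b c α β γ hα hβ hγ ha hb hab.symm hc hac.symm hbc
    hbca g₂ g₃ (g₃.trans g₂) k₂ k₃ (fun x => by rw [RingEquiv.trans_apply, k₃, k₂]) a₂ a₃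
    (by rw [RingEquiv.trans_apply, a₃, a₂]) b₂ c₂ b₃ c₃ (by rw [RingEquiv.trans_apply, b₃, b₂])
    (by rw [RingEquiv.trans_apply, c₃, map_neg, c₂]) (by
      rw [add_comm (ofMul (sqClass b)) (ofMul (sqClass a)),
        add_right_comm (ofMul (sqClass c)) (ofMul (sqClass b)) (ofMul (sqClass a))]
      exact hsum)
  obtain ⟨-, L₂⟩ := layer h2 hK hfin b a c β α γ hβ hα hγ hb ha hab hc hbc.symm hac
    hacb g₁ g₃ (g₃.trans g₁) k₁ k₃ (fun x => by rw [RingEquiv.trans_apply, k₃, k₁]) b₁ b₃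
    (by rw [RingEquiv.trans_apply, b₃, b₁]) a₁ c₁ a₃ c₃ (by rw [RingEquiv.trans_apply, a₃, a₁])
    (by rw [RingEquiv.trans_apply, c₃, map_neg, c₁]) (by omega)
  have hαβ : (α * β) ^ 2 = algebraMap K L ((a * b : Kˣ) : K) := by
    rw [mul_pow, hα, hβ, ← map_mul]
    rfl
  obtain ⟨-, L₃⟩ := layer h2 hK hfin (a * b) a c (α * β) α γ hαβ hα hγ (by
      intro h
      exact hab ((eq_iff_mul _ _).2 h)) ha (by
      intro h
      apply hb
      have h' : sqClass a = sqClass a * sqClass b := h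
      exact (mul_eq_left.1 h'.symm)) hc (fun h => habc h.symm) hac (by
      intro h
      apply hbc
      have h' : sqClass a * sqClass c = sqClass a * sqClass b := h
      exact (mul_left_cancel h').symm)
    (g₂.trans g₁) g₃ (g₃.trans (g₂.trans g₁))
    (fun x => by rw [RingEquiv.trans_apply, k₂, k₁]) k₃
    (fun x => by rw [RingEquiv.trans_apply, RingEquiv.trans_apply, k₃, k₂, k₁])
    (by rw [RingEquiv.trans_apply, map_mul, map_mul, a₂, b₂, map_neg, a₁, b₁]; ring)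
    (by rw [map_mul, a₃, b₃])
    (by rw [RingEquiv.trans_apply, RingEquiv.trans_apply, map_mul, map_mul, map_mul, a₃, b₃, a₂,
          b₂, map_neg, a₁, b₁]; ring)
    (by rw [RingEquiv.trans_apply, a₂, a₁]) (by rw [RingEquiv.trans_apply, c₂, c₁]) a₃ c₃
    (by rw [RingEquiv.trans_apply, RingEquiv.trans_apply, a₃, a₂, a₁])
    (by rw [RingEquiv.trans_apply, RingEquiv.trans_apply, c₃, map_neg, map_neg, c₂, c₁]) (by
      have e1 : (ofMul (sqClass (a * b)) : VV K) = ofMul (sqClass a) + ofMul (sqClass b) := rfl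
      have e2 : ofMul (sqClass c) + ofMul (sqClass a) + ofMul (sqClass (a * b)) =
          (ofMul (sqClass c) + ofMul (sqClass b) : VV K) := by
        rw [e1]
        have : ofMul (sqClass c) + ofMul (sqClass a) + (ofMul (sqClass a) + ofMul (sqClass b)) =
          (ofMul (sqClass c) + ofMul (sqClass b) : VV K) + (ofMul (sqClass a) + ofMul (sqClass a)) := by
          abel
        rw [this, Codim.add_self, add_zero]
      have e3 : ofMul (sqClass a) + ofMul (sqClass (a * b)) = (ofMul (sqClass b) : VV K) := by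
        rw [e1, ← add_assoc, Codim.add_self, zero_add]
      rw [e2, e3, e1, ← add_assoc]
      omega)
  obtain ⟨s₂, s₂₃⟩ := L₁ r hr hr₃
  obtain ⟨s₁, s₁₃⟩ := L₂ r hr hr₃
  obtain ⟨s₁₂, s₁₂₃⟩ := L₃ r hr hr₃
  exact signs h2L g₁ g₂ g₃ i₁ i₂ i₃ c12 c13 c23 (r : L) r.ne_zero s₁ s₂ hr₃ s₁₂ s₁₃ s₂₃ s₁₂₃

end Pool.Agent.KRad
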