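import Pool.Agent.KRad.Genuine

/-!
# Module F: biquadratic squares
-/

namespace Pool.Agent.KRad

open Pool.Agent.Hhelper2 Pool.Agent.Hhelper2.QuadExt Pool.Agent.Hhelper2.Tower Additive Module
open Pool.Agent.Hhelper2.FieldAx

universe u

namespace Biquad

lemma gres_mk {K E : Type u} [Field K] [Field E] [Algebra K E] (x : Kˣ) :
    gres K E (sqClass x) = sqClass (Units.map (algebraMap K E).toMonoidHom x) := rfl

lemma gnm_mk {K E : Type u} [Field K] [Field E] [Algebra K E] (x : Eˣ) :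
    gnm K E (sqClass x) = sqClass (Units.map (Algebra.norm K) x) := rfl

lemma gres_gres {K F E : Type u} [Field K] [Field F] [Field E] [Algebra K F] [Algebra F E]
    [Algebra K E] [IsScalarTower K F E] (x : SqClass K) :
    gres F E (gres K F x) = gres K E x := by
  obtain ⟨x, rfl⟩ := exists_rep x
  rw [gres_mk, gres_mk, gres_mk]
  congr 1
  ext
  exact (IsScalarTower.algebraMap_apply K F E (x : K)).symm

lemma gnm_gnm {K F E : Type u} [Field K] [Field F] [Field E] [Algebra K F] [Algebra F E]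
    [Algebra K E] [IsScalarTower K F E] [FiniteDimensional K F] [FiniteDimensional F E]
    (x : SqClass E) : gnm K F (gnm F E x) = gnm K E x := by
  obtain ⟨x, rfl⟩ := exists_rep x
  rw [gnm_mk, gnm_mk, gnm_mk]
  congr 1
  ext
  exact Algebra.norm_norm

/-- Coordinates and norms in a quadratic extension generated by a square root. -/
lemma coords {F E : Type u} [Field F] [Field E] [Algebra F E] (hfin : finrank F E = 2) (a : F)
    (α : E) (hα : α ^ 2 = algebraMap F E a) (hns : ¬ ∃ t : F, a = t ^ 2) :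
    (∀ r : E, ∃ u v : F, r = algebraMap F E u + algebraMap F E v * α) ∧
      ∀ u v : F, Algebra.norm F (algebraMap F E u + algebraMap F E v * α) = u ^ 2 - a * v ^ 2 := by
  obtain ⟨φ, hφ⟩ := Genuine.exists_iso hfin a α hα hns
  constructor
  · intro r
    refine ⟨(φ.symm r).re, (φ.symm r).im, ?_⟩
    rw [← hφ]
    exact (φ.apply_symm_apply r).symm
  · intro u v
    rw [← hφ, Algebra.norm_eq_of_algEquiv φ, Genuine.norm_eq, QuadraticAlgebra.norm_def]
    ring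

/-- The field generated by a square root is quadratic. -/
lemma finrank_adjoin {K E : Type u} [Field K] [Field E] [Algebra K E] (d : K) (δ : E)
    (hδ : δ ^ 2 = algebraMap K E d) (hns : ¬ ∃ t : K, d = t ^ 2) :
    finrank K (IntermediateField.adjoin K {δ}) = 2 := by
  have hmonic : (Polynomial.X ^ 2 - Polynomial.C d : Polynomial K).Monic :=
    Polynomial.monic_X_pow_sub_C d two_ne_zero
  have haev : Polynomial.aeval δ (Polynomial.X ^ 2 - Polynomial.C d : Polynomial K) = 0 := by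
    simp [hδ]
  have hint : IsIntegral K δ := ⟨_, hmonic, haev⟩
  rw [IntermediateField.adjoin.finrank hint]
  have h1 : (minpoly K δ).natDegree ≤ 2 := by
    have := Polynomial.natDegree_le_of_dvd (minpoly.dvd K δ haev) hmonic.ne_zero
    rwa [Polynomial.natDegree_X_pow_sub_C] at this
  have h2 : (minpoly K δ).natDegree ≠ 1 := by
    intro h
    obtain ⟨t, ht⟩ := minpoly.natDegree_eq_one_iff.1 h
    apply hns
    refine ⟨t, (algebraMap K E).injective ?_⟩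
    rw [map_pow, ht, hδ]
  have h3 : 0 < (minpoly K δ).natDegree := minpoly.natDegree_pos hint
  omega


/-- The upper half of a tower. -/
lemma upper {K F E : Type u} [Field K] [Field F] [Field E] [Algebra K F] [Algebra F E]
    [Algebra K E] [IsScalarTower K F E] {c : SqClass K} (q : QL K F c) (hq : q.res = gres K F)
    (b₀ : Kˣ) (hb : sqClass b₀ ≠ 1) (hbc : sqClass b₀ ≠ c) (hfin : finrank F E = 2) (β : E)
    (hβ : β ^ 2 = algebraMap K E b₀) :
    (∃ p : QL F E (q.res (sqClass b₀)), p.res = gres F E ∧ p.nm = gnm F E) ∧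
      ¬ ∃ t : F, algebraMap K F b₀ = t ^ 2 := by
  have hns : ¬ ∃ t : F, algebraMap K F b₀ = t ^ 2 := by
    intro h
    have h1 : q.res (sqClass b₀) = 1 := by
      rw [hq, gres_mk, one_iff]
      exact h
    rcases (q.res_one _).1 h1 with h3 | h3
    · exact hb h3
    · exact hbc h3
  refine ⟨?_, hns⟩
  rw [hq, gres_mk]
  refine exists_QL q.two_ne hfin _ β ?_ hns
  rw [hβ]
  exact IsScalarTower.algebraMap_apply K F E (b₀ : K)

/-- The norm identity in a biquadratic extension. -/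
lemma norm_identity {K E : Type u} [Field K] [Field E] [Algebra K E] (b₀ c₀ : Kˣ)
    (E₁ E₂ E₃ : IntermediateField K E) [FiniteDimensional K E] {β γ : E}
    (hβ : β ^ 2 = algebraMap K E b₀) (hγ : γ ^ 2 = algebraMap K E c₀)
    (hγ₁ : γ ∈ E₁) (hβ₂ : β ∈ E₂) (hδ₃ : β * γ ∈ E₃)
    (k1 : finrank K E₁ = 2) (f1 : finrank E₁ E = 2) (f2 : finrank E₂ E = 2)
    (f3 : finrank E₃ E = 2) (nc : ¬ ∃ t : K, (c₀ : K) = t ^ 2)
    (n1 : ¬ ∃ t : E₁, algebraMap K E₁ b₀ = t ^ 2) (n2 : ¬ ∃ t : E₂, algebraMap K E₂ c₀ = t ^ 2)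
    (n3 : ¬ ∃ t : E₃, algebraMap K E₃ b₀ = t ^ 2) (r : E) :
    algebraMap E₁ E (Algebra.norm E₁ r) * algebraMap E₂ E (Algebra.norm E₂ r) *
      algebraMap E₃ E (Algebra.norm E₃ r) = algebraMap K E (Algebra.norm K r) * r ^ 2 := by
  have hβ0 : β ≠ 0 := by
    rintro rfl
    apply b₀.ne_zero
    apply (algebraMap K E).injective
    rw [← hβ, map_zero]; ring
  obtain ⟨c1, m1⟩ := coords f1 (algebraMap K E₁ b₀) β (by rw [hβ]; rfl) n1
  obtain ⟨-, m2⟩ := coords f2 (algebraMap K E₂ c₀) γ (by rw [hγ]; rfl) n2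
  obtain ⟨-, m3⟩ := coords f3 (algebraMap K E₃ b₀) β (by rw [hβ]; rfl) n3
  obtain ⟨c0, m0⟩ := coords k1 (c₀ : K) (⟨γ, hγ₁⟩ : E₁) (by ext; exact hγ) nc
  obtain ⟨s, t, hst⟩ := c1 r
  obtain ⟨x0, x1, hs⟩ := c0 s
  obtain ⟨x2, x3, ht⟩ := c0 t
  have e1 : algebraMap E₁ E (Algebra.norm E₁ r) =
      (algebraMap K E x0 + algebraMap K E x1 * γ) ^ 2 -
        β ^ 2 * (algebraMap K E x2 + algebraMap K E x3 * γ) ^ 2 := by
    rw [hst, m1, hs, ht, hβ]
    rfl
  have hr : r = algebraMap K E x0 + algebraMap K E x1 * γ +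
      (algebraMap K E x2 + algebraMap K E x3 * γ) * β := by
    rw [hst, hs, ht]
    rfl
  have e2 : algebraMap E₂ E (Algebra.norm E₂ r) =
      (algebraMap K E x0 + algebraMap K E x2 * β) ^ 2 -
        γ ^ 2 * (algebraMap K E x1 + algebraMap K E x3 * β) ^ 2 := by
    have : r = algebraMap E₂ E (algebraMap K E₂ x0 + algebraMap K E₂ x2 * ⟨β, hβ₂⟩) +
        algebraMap E₂ E (algebraMap K E₂ x1 + algebraMap K E₂ x3 * ⟨β, hβ₂⟩) * γ := by
      rw [hr]
      show _ = (algebraMap K E x0 + algebraMap K E x2 * β) +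
        (algebraMap K E x1 + algebraMap K E x3 * β) * γ
      ring
    rw [this, m2, hγ]
    rfl
  have e3 : algebraMap E₃ E (Algebra.norm E₃ r) =
      (algebraMap K E x0 + algebraMap K E x3 * (β * γ)) ^ 2 -
        β ^ 2 * (algebraMap K E x2 + algebraMap K E x1 * (β ^ 2)⁻¹ * (β * γ)) ^ 2 := by
    have hinv : algebraMap K E ((b₀ : K)⁻¹) = (β ^ 2)⁻¹ := by rw [map_inv₀, hβ]
    have : r = algebraMap E₃ E (algebraMap K E₃ x0 + algebraMap K E₃ x3 * ⟨β * γ, hδ₃⟩) +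
        algebraMap E₃ E (algebraMap K E₃ x2 +
          algebraMap K E₃ x1 * algebraMap K E₃ ((b₀ : K)⁻¹) * ⟨β * γ, hδ₃⟩) * β := by
      rw [hr]
      show _ = (algebraMap K E x0 + algebraMap K E x3 * (β * γ)) +
        (algebraMap K E x2 + algebraMap K E x1 * algebraMap K E ((b₀ : K)⁻¹) * (β * γ)) * β
      rw [hinv]
      field_simp
      ring
    rw [this, m3, ← hinv, hβ]
    rfl
  have e0 : algebraMap K E (Algebra.norm K r) =
      (algebraMap K E x0 ^ 2 + γ ^ 2 * algebraMap K E x1 ^ 2 - β ^ 2 * algebraMap K E x2 ^ 2 -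
        β ^ 2 * γ ^ 2 * algebraMap K E x3 ^ 2) ^ 2 -
      γ ^ 2 * (2 * algebraMap K E x0 * algebraMap K E x1 -
        2 * β ^ 2 * algebraMap K E x2 * algebraMap K E x3) ^ 2 := by
    have h1 : Algebra.norm E₁ r = algebraMap K E₁ (x0 ^ 2 + c₀ * x1 ^ 2 - b₀ * x2 ^ 2 -
        b₀ * c₀ * x3 ^ 2) + algebraMap K E₁ (2 * x0 * x1 - 2 * b₀ * x2 * x3) * ⟨γ, hγ₁⟩ := by
      apply (algebraMap E₁ E).injective
      rw [e1]
      show _ = algebraMap K E (x0 ^ 2 + c₀ * x1 ^ 2 - b₀ * x2 ^ 2 -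
        b₀ * c₀ * x3 ^ 2) + algebraMap K E (2 * x0 * x1 - 2 * b₀ * x2 * x3) * γ
      simp only [map_add, map_sub, map_mul, map_pow, map_ofNat, ← hβ, ← hγ]
      ring
    rw [← Algebra.norm_norm (S := E₁), h1, m0]
    simp only [map_add, map_sub, map_mul, map_pow, map_ofNat, ← hβ, ← hγ]
  rw [e1, e2, e3, e0]
  rw [hr]
  field_simp
  ring

end Biquad

open Biquad

/-- Module F. The three quadratic subextensions of `K(√b, √c)`. -/
theorem biquad (K : Type u) [Field K] (h2 : (2 : K) ≠ 0) (b c : SqClass K) (hb : b ≠ 1)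
    (hc : c ≠ 1) (hbc : b ≠ c) :
    ∃ (E₁ E₂ E₃ E : Type u) (_ : Field E₁) (_ : Field E₂) (_ : Field E₃) (_ : Field E)
      (q₁ : QL K E₁ c) (q₂ : QL K E₂ b) (q₃ : QL K E₃ (b * c))
      (p₁ : QL E₁ E (q₁.res b)) (p₂ : QL E₂ E (q₂.res c)) (p₃ : QL E₃ E (q₃.res b)),
      (∀ x, p₁.res (q₁.res x) = p₂.res (q₂.res x)) ∧
      (∀ x, p₁.res (q₁.res x) = p₃.res (q₃.res x)) ∧
      (∀ r, q₁.nm (p₁.nm r) = q₂.nm (p₂.nm r)) ∧
      (∀ r, q₁.nm (p₁.nm r) = q₃.nm (p₃.nm r)) ∧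
      (∀ r, p₁.res (p₁.nm r) * p₂.res (p₂.nm r) * p₃.res (p₃.nm r) =
        p₁.res (q₁.res (q₁.nm (p₁.nm r)))) := by
  obtain ⟨b₀, rfl⟩ := exists_rep b
  obtain ⟨c₀, rfl⟩ := exists_rep c
  have hnb : ¬ ∃ t : K, (b₀ : K) = t ^ 2 := fun h => hb ((one_iff b₀).2 h)
  have hnc : ¬ ∃ t : K, (c₀ : K) = t ^ 2 := fun h => hc ((one_iff c₀).2 h)
  have hbc1 : sqClass (b₀ * c₀) ≠ 1 := fun h => hbc ((eq_iff_mul _ _).2 h)
  have hnbc : ¬ ∃ t : K, ((b₀ * c₀ : Kˣ) : K) = t ^ 2 := fun h => hbc1 ((one_iff (b₀ * c₀)).2 h)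
  -- the big field
  obtain ⟨E, _, _, _, β, γ, hfin4, hβ, hγ⟩ : ∃ (E : Type u) (_ : Field E) (_ : Algebra K E)
      (_ : FiniteDimensional K E) (β γ : E), finrank K E = 4 ∧ β ^ 2 = algebraMap K E b₀ ∧
      γ ^ 2 = algebraMap K E c₀ := by
    have hf1 : Fact (∀ r : K, r ^ 2 ≠ (c₀ : K) + 0 * r) :=
      ⟨fun r hr => hnc ⟨r, by rw [hr]; ring⟩⟩
    have hγ₀ : (⟨0, 1⟩ : QuadraticAlgebra K (c₀ : K) 0) ^ 2 =
        algebraMap K (QuadraticAlgebra K (c₀ : K) 0) (c₀ : K) := by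
      rw [← elt_sqrt (a := (c₀ : K)) (1 : K), one_pow, mul_one]
    have hfinF : finrank K (QuadraticAlgebra K (c₀ : K) 0) = 2 :=
      QuadraticAlgebra.finrank_eq_two ..
    obtain ⟨q₀, hq₀, -⟩ := exists_QL h2 hfinF c₀ _ hγ₀ hnc
    have hnbF : ¬ ∃ t : QuadraticAlgebra K (c₀ : K) 0,
        algebraMap K (QuadraticAlgebra K (c₀ : K) 0) (b₀ : K) = t ^ 2 := by
      intro h
      have h1 : q₀.res (sqClass b₀) = 1 := by
        rw [hq₀, gres_mk, one_iff]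
        exact h
      rcases (q₀.res_one _).1 h1 with h3 | h3
      · exact hb h3
      · exact hbc h3
    have hf2 : Fact (∀ r : QuadraticAlgebra K (c₀ : K) 0,
        r ^ 2 ≠ algebraMap K (QuadraticAlgebra K (c₀ : K) 0) (b₀ : K) + 0 * r) :=
      ⟨fun r hr => hnbF ⟨r, by rw [hr]; ring⟩⟩
    have hfinE : finrank (QuadraticAlgebra K (c₀ : K) 0)
        (QuadraticAlgebra (QuadraticAlgebra K (c₀ : K) 0)
          (algebraMap K (QuadraticAlgebra K (c₀ : K) 0) (b₀ : K)) 0) = 2 :=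
      QuadraticAlgebra.finrank_eq_two ..
    have hfin := finrank_mul_finrank K (QuadraticAlgebra K (c₀ : K) 0)
        (QuadraticAlgebra (QuadraticAlgebra K (c₀ : K) 0)
          (algebraMap K (QuadraticAlgebra K (c₀ : K) 0) (b₀ : K)) 0)
    rw [hfinF, hfinE] at hfin
    refine ⟨QuadraticAlgebra (QuadraticAlgebra K (c₀ : K) 0)
      (algebraMap K (QuadraticAlgebra K (c₀ : K) 0) (b₀ : K)) 0, inferInstance, inferInstance,
      FiniteDimensional.of_finrank_pos (by rw [← hfin]; norm_num), ⟨0, 1⟩,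
      algebraMap (QuadraticAlgebra K (c₀ : K) 0) _ ⟨0, 1⟩, hfin.symm, ?_, ?_⟩
    · rw [← elt_sqrt (a := algebraMap K (QuadraticAlgebra K (c₀ : K) 0) (b₀ : K)) 1, one_pow,
        mul_one]
      rfl
    · rw [← map_pow, hγ₀]
      rfl
  have hδ : (β * γ) ^ 2 = algebraMap K E ((b₀ * c₀ : Kˣ) : K) := by
    rw [mul_pow, hβ, hγ, ← map_mul]
    rfl
  have k1 := finrank_adjoin (c₀ : K) γ hγ hnc
  have k2 := finrank_adjoin (b₀ : K) β hβ hnb
  have k3 := finrank_adjoin ((b₀ * c₀ : Kˣ) : K) (β * γ) hδ hnbc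
  have hγ₁ : γ ∈ IntermediateField.adjoin K {γ} := IntermediateField.mem_adjoin_simple_self K γ
  have hβ₂ : β ∈ IntermediateField.adjoin K {β} := IntermediateField.mem_adjoin_simple_self K β
  have hδ₃ : β * γ ∈ IntermediateField.adjoin K {β * γ} :=
    IntermediateField.mem_adjoin_simple_self K (β * γ)
  generalize IntermediateField.adjoin K {γ} = E₁ at k1 hγ₁
  generalize IntermediateField.adjoin K {β} = E₂ at k2 hβ₂
  generalize IntermediateField.adjoin K {β * γ} = E₃ at k3 hδ₃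
  have ff : ∀ F : IntermediateField K E, finrank K F = 2 → finrank F E = 2 := by
    intro F hF
    have := finrank_mul_finrank K F E
    rw [hF, hfin4] at this
    omega
  obtain ⟨q₁, r₁, s₁⟩ := exists_QL h2 k1 c₀ ⟨γ, hγ₁⟩ (by ext; exact hγ) hnc
  obtain ⟨q₂, r₂, s₂⟩ := exists_QL h2 k2 b₀ ⟨β, hβ₂⟩ (by ext; exact hβ) hnb
  obtain ⟨q₃, r₃, s₃⟩ := exists_QL h2 k3 (b₀ * c₀) ⟨β * γ, hδ₃⟩ (by ext; exact hδ) hnbc
  obtain ⟨⟨p₁, u₁, v₁⟩, n1⟩ := upper q₁ r₁ b₀ hb hbc (ff _ k1) β hβ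
  obtain ⟨⟨p₂, u₂, v₂⟩, n2⟩ := upper q₂ r₂ c₀ hc (Ne.symm hbc) (ff _ k2) γ hγ
  obtain ⟨⟨p₃, u₃, v₃⟩, n3⟩ := upper q₃ r₃ b₀ hb (by
    intro h
    apply hc
    have h' : sqClass b₀ * sqClass c₀ = sqClass b₀ := h.symm
    exact mul_eq_left.1 h') (ff _ k3) β hβ
  refine ⟨E₁, E₂, E₃, E, inferInstance, inferInstance, inferInstance, inferInstance, q₁, q₂, q₃,
    p₁, p₂, p₃, ?_, ?_, ?_, ?_, ?_⟩
  · intro x
    rw [u₁, r₁, u₂, r₂, gres_gres, gres_gres]
  · intro x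
    rw [u₁, r₁, u₃, r₃, gres_gres, gres_gres]
  · intro x
    rw [v₁, s₁, v₂, s₂, gnm_gnm, gnm_gnm]
  · intro x
    rw [v₁, s₁, v₃, s₃, gnm_gnm, gnm_gnm]
  · intro x
    rw [v₁, s₁, v₂, v₃, gnm_gnm, u₁, u₂, u₃, r₁, gres_gres]
    obtain ⟨x, rfl⟩ := exists_rep x
    symm
    rw [gnm_mk, gnm_mk, gnm_mk, gnm_mk, gres_mk, gres_mk, gres_mk, gres_mk,
      ← QuotientGroup.mk_mul, ← QuotientGroup.mk_mul, sqClass_eq]
    refine ⟨x, ?_⟩
    ext
    exact norm_identity b₀ c₀ E₁ E₂ E₃ hβ hγ hγ₁ hβ₂ hδ₃ k1 (ff _ k1) (ff _ k2) (ff _ k3) hnc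
      n1 n2 n3 (x : E)

end Pool.Agent.KRad
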