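import Pool.Agent.KRad.Basic

/-!
# Module H2: decomposition into blocks without independent pairs (no fields)
-/

namespace Pool.Agent.KRad

open Module

variable {V : Type*} [AddCommGroup V] [Module (ZMod 2) V] [Finite V]

namespace Blocks

omit [Finite V] in
theorem cut_zero {s : V → ℕ} (hs : IsCut (fun x => (s x : ℝ))) : s 0 = 0 := by
  obtain ⟨μ, -, h⟩ := hs
  have h1 := h 0
  simp only [map_zero, zero_ne_one, if_false, finsum_zero] at h1
  exact_mod_cast h1

theorem cut_add {s : V → ℕ} (hs : IsCut (fun x => (s x : ℝ))) (x y : V) :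
    s (x + y) ≤ s x + s y := by
  obtain ⟨μ, hμ, h⟩ := hs
  have hf : Finite (Dual (ZMod 2) V) := by
    have : Finite (V → ZMod 2) := inferInstance
    exact Finite.of_injective (fun χ : Dual (ZMod 2) V => (χ : V → ZMod 2)) DFunLike.coe_injective
  have : Fintype (Dual (ZMod 2) V) := Fintype.ofFinite _
  have h1 : (s (x + y) : ℝ) ≤ s x + s y := by
    have hx := h x
    have hy := h y
    have hxy := h (x + y)
    simp only [] at hx hy hxy
    rw [hx, hy, hxy, finsum_eq_sum_of_fintype, finsum_eq_sum_of_fintype,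
      finsum_eq_sum_of_fintype, ← Finset.sum_add_distrib]
    refine Finset.sum_le_sum fun χ _ => ?_
    have h0 := hμ χ
    have key : χ (x + y) = 1 → χ x = 1 ∨ χ y = 1 := by
      rw [map_add]
      generalize χ x = a
      generalize χ y = b
      revert a b
      decide
    split_ifs with h1 h2 h3 h3 <;> first | linarith | skip
    exact absurd (key h1) (by tauto)
  exact_mod_cast h1

/-- `U'` is a complement of `U` along which `s` is additive. -/
def Comp (s : V → ℕ) (U U' : Submodule (ZMod 2) V) : Prop :=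
  U ⊔ U' = ⊤ ∧ (∀ x ∈ U, s x = 0 → x = 0) ∧ ∀ u ∈ U, ∀ u' ∈ U', s (u + u') = s u + s u'

/-- `U` is decomposed into blocks. -/
def Dec (s : V → ℕ) (U : Submodule (ZMod 2) V) : Prop :=
  ∃ (ι : Type) (_ : Fintype ι) (B : ι → Submodule (ZMod 2) V),
    (∀ i, B i ≠ ⊥) ∧ (∀ i, B i ≤ U) ∧
    (∀ i, ∀ x ∈ B i, ∀ y ∈ B i, s (x + y) = s x + s y → x = 0 ∨ y = 0) ∧
    (∀ u ∈ U, ∃ c : ι → V, (∀ i, c i ∈ B i) ∧ u = ∑ i, c i) ∧
    ∀ c : ι → V, (∀ i, c i ∈ B i) → s (∑ i, c i) = ∑ i, s (c i)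

omit [Finite V] in
theorem add_self (z : V) : z + z = 0 := by
  have h : (2 : ZMod 2) • z = z + z := two_smul _ z
  rw [← h]
  have : (2 : ZMod 2) = 0 := by decide
  rw [this, zero_smul]

theorem dec_of_comp {s : V → ℕ} (hs : IsCut (fun x => (s x : ℝ)))
    (hsplit : ∀ m w : V, s (m + w) = s m + s w →
      ∃ A W : Submodule (ZMod 2) V, m ∈ A ∧ w ∈ W ∧ A ⊔ W = ⊤ ∧ (∀ x, x ∈ A ⊓ W ↔ s x = 0) ∧
        ∀ a ∈ A, ∀ w' ∈ W, s (a + w') = s a + s w')
    (U : Submodule (ZMod 2) V) : ∀ U' : Submodule (ZMod 2) V, Comp s U U' → Dec s U := by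
  have hz := cut_zero hs
  have hadd := cut_add hs
  induction U using WellFoundedLT.induction with
  | ind U ih =>
  intro U' hU
  obtain ⟨h1, h2, h3⟩ := hU
  by_cases hbot : U = ⊥
  · refine ⟨Empty, inferInstance, fun i => i.elim, fun i => i.elim, fun i => i.elim,
      fun i => i.elim, ?_, ?_⟩
    · intro u hu
      rw [hbot, Submodule.mem_bot] at hu
      exact ⟨fun i => i.elim, fun i => i.elim, by simp [hu]⟩
    · intro c _
      simp [hz]
  by_cases hind : ∀ x ∈ U, ∀ y ∈ U, s (x + y) = s x + s y → x = 0 ∨ y = 0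
  · refine ⟨Unit, inferInstance, fun _ => U, fun _ => hbot, fun _ => le_rfl,
      fun _ => hind, ?_, ?_⟩
    · intro u hu
      exact ⟨fun _ => u, fun _ => hu, by simp⟩
    · intro c _
      simp
  push Not at hind
  obtain ⟨x, hx, y, hy, hxy, hx0, hy0⟩ := hind
  obtain ⟨A, W, hxA, hyW, hAW, -, hadd'⟩ := hsplit x y hxy
  have hdisj : ∀ z ∈ U, z ∈ U' → z = 0 := by
    intro z hz1 hz2
    have h4 := h3 z hz1 z hz2
    rw [add_self, hz] at h4
    exact h2 z hz1 (by omega)
  set PA : Submodule (ZMod 2) V := U ⊓ (A ⊔ U') with hPA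
  set PW : Submodule (ZMod 2) V := U ⊓ (W ⊔ U') with hPW
  have hsum : PA ⊔ PW = U := by
    apply le_antisymm (sup_le inf_le_left inf_le_left)
    intro u hu
    have hu' : u ∈ A ⊔ W := by rw [hAW]; trivial
    obtain ⟨a, ha, w, hw, rfl⟩ := Submodule.mem_sup.1 hu'
    have ha' : a ∈ U ⊔ U' := by rw [h1]; trivial
    have hw' : w ∈ U ⊔ U' := by rw [h1]; trivial
    obtain ⟨a1, ha1, a2, ha2, rfl⟩ := Submodule.mem_sup.1 ha'
    obtain ⟨w1, hw1, w2, hw2, rfl⟩ := Submodule.mem_sup.1 hw'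
    have h4 : a2 + w2 = 0 := by
      apply hdisj _ ?_ (U'.add_mem ha2 hw2)
      have h5 : a2 + w2 = (a1 + a2 + (w1 + w2)) - (a1 + w1) := by abel
      rw [h5]
      exact U.sub_mem hu (U.add_mem ha1 hw1)
    have h5 : a1 + a2 + (w1 + w2) = a1 + w1 := by
      have : a1 + a2 + (w1 + w2) = a1 + w1 + (a2 + w2) := by abel
      rw [this, h4, add_zero]
    rw [h5]
    refine Submodule.add_mem_sup ⟨ha1, ?_⟩ ⟨hw1, ?_⟩
    · have : a1 = (a1 + a2) - a2 := by abel
      rw [this]
      exact Submodule.sub_mem _ (Submodule.mem_sup_left ha) (Submodule.mem_sup_right ha2)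
    · have : w1 = (w1 + w2) - w2 := by abel
      rw [this]
      exact Submodule.sub_mem _ (Submodule.mem_sup_left hw) (Submodule.mem_sup_right hw2)
  have hPadd : ∀ p ∈ PA, ∀ q ∈ PW, s (p + q) = s p + s q := by
    intro p hp q hq
    obtain ⟨hp1, hp2⟩ := hp
    obtain ⟨hq1, hq2⟩ := hq
    obtain ⟨a, ha, u', hu', hpe⟩ := Submodule.mem_sup.1 hp2
    obtain ⟨w, hw, v', hv', hqe⟩ := Submodule.mem_sup.1 hq2
    have ea : a = p + u' := by
      rw [← hpe, add_assoc, add_self, add_zero]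
    have ew : w = q + v' := by
      rw [← hqe, add_assoc, add_self, add_zero]
    have e1 : s a = s p + s u' := by rw [ea]; exact h3 p hp1 u' hu'
    have e2 : s w = s q + s v' := by rw [ew]; exact h3 q hq1 v' hv'
    have e3 := hadd' a ha w hw
    have e4 : s (a + w) = s (p + q) + s (u' + v') := by
      rw [← h3 (p + q) (U.add_mem hp1 hq1) (u' + v') (U'.add_mem hu' hv'), ea, ew]
      congr 1
      abel
    have e5 := hadd p q
    have e6 := hadd u' v'
    omega
  have hxP : x ∈ PA := ⟨hx, Submodule.mem_sup_left hxA⟩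
  have hyP : y ∈ PW := ⟨hy, Submodule.mem_sup_left hyW⟩
  have hne : ∀ z ∈ PA, z ∈ PW → z = 0 := by
    intro z hz1 hz2
    have h4 := hPadd z hz1 z hz2
    rw [add_self, hz] at h4
    exact h2 z hz1.1 (by omega)
  have hltA : PA < U := by
    refine lt_of_le_of_ne inf_le_left ?_
    intro h
    exact hy0 (hne y (by rw [h]; exact hy) hyP)
  have hltW : PW < U := by
    refine lt_of_le_of_ne inf_le_left ?_
    intro h
    exact hx0 (hne x hxP (by rw [h]; exact hx))
  have hCA : Comp s PA (PW ⊔ U') := by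
    refine ⟨by rw [← sup_assoc, hsum, h1], fun z hz1 => h2 z hz1.1, ?_⟩
    intro p hp z hz1
    obtain ⟨q, hq, u', hu', rfl⟩ := Submodule.mem_sup.1 hz1
    rw [h3 q hq.1 u' hu', ← add_assoc, h3 (p + q) (U.add_mem hp.1 hq.1) u' hu', hPadd p hp q hq]
    omega
  have hCW : Comp s PW (PA ⊔ U') := by
    refine ⟨by rw [← sup_assoc, sup_comm PW PA, hsum, h1], fun z hz1 => h2 z hz1.1, ?_⟩
    intro q hq z hz1
    obtain ⟨p, hp, u', hu', rfl⟩ := Submodule.mem_sup.1 hz1
    rw [h3 p hp.1 u' hu', ← add_assoc, add_comm q p, h3 (p + q) (U.add_mem hp.1 hq.1) u' hu',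
      hPadd p hp q hq]
    omega
  obtain ⟨ι1, _, B1, b11, b12, b13, b14, b15⟩ := ih PA hltA _ hCA
  obtain ⟨ι2, _, B2, b21, b22, b23, b24, b25⟩ := ih PW hltW _ hCW
  refine ⟨ι1 ⊕ ι2, inferInstance, Sum.elim B1 B2, ?_, ?_, ?_, ?_, ?_⟩
  · rintro (i | i)
    · exact b11 i
    · exact b21 i
  · rintro (i | i)
    · exact (b12 i).trans inf_le_left
    · exact (b22 i).trans inf_le_left
  · rintro (i | i)
    · exact b13 i
    · exact b23 i
  · intro u hu
    rw [← hsum] at hu
    obtain ⟨p, hp, q, hq, rfl⟩ := Submodule.mem_sup.1 hu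
    obtain ⟨c1, hc1, rfl⟩ := b14 p hp
    obtain ⟨c2, hc2, rfl⟩ := b24 q hq
    refine ⟨Sum.elim c1 c2, ?_, by simp⟩
    rintro (i | i)
    · exact hc1 i
    · exact hc2 i
  · intro c hc
    rw [Fintype.sum_sum_type, Fintype.sum_sum_type]
    have m1 : ∀ i, c (Sum.inl i) ∈ B1 i := fun i => hc (Sum.inl i)
    have m2 : ∀ i, c (Sum.inr i) ∈ B2 i := fun i => hc (Sum.inr i)
    rw [hPadd _ (Submodule.sum_mem _ fun i _ => b12 i (m1 i)) _
      (Submodule.sum_mem _ fun i _ => b22 i (m2 i)), b15 _ m1, b25 _ m2]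

end Blocks

open Blocks in
/-- Module H2. Decomposition into blocks without independent pairs. -/
theorem exists_blocks (s : V → ℕ) (hs : IsCut (fun x => (s x : ℝ)))
    (hsplit : ∀ m w : V, s (m + w) = s m + s w →
      ∃ A W : Submodule (ZMod 2) V, m ∈ A ∧ w ∈ W ∧ A ⊔ W = ⊤ ∧ (∀ x, x ∈ A ⊓ W ↔ s x = 0) ∧
        ∀ a ∈ A, ∀ w' ∈ W, s (a + w') = s a + s w') :
    ∃ (n : ℕ) (R : Submodule (ZMod 2) V) (B : Fin n → Submodule (ZMod 2) V)
      (e : V ≃ₗ[ZMod 2] R × (∀ i, B i)),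
      (∀ x, x = ((e x).1 : V) + ∑ i, ((e x).2 i : V)) ∧
      (∀ x, x ∈ R ↔ s x = 0) ∧
      (∀ x, s x = ∑ i, s ((e x).2 i : V)) ∧
      (∀ i, B i ≠ ⊥) ∧
      ∀ i, ∀ x ∈ B i, ∀ y ∈ B i, s (x + y) = s x + s y → x = 0 ∨ y = 0 := by
  have hz := cut_zero hs
  have hadd := cut_add hs
  let R : Submodule (ZMod 2) V :=
    { carrier := {x | s x = 0}
      add_mem' := by
        intro x y hx hy
        have := hadd x y
        simp only [Set.mem_ofPred_eq] at hx hy ⊢
        omega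
      zero_mem' := hz
      smul_mem' := by
        intro c x hx
        have : c = 0 ∨ c = 1 := by revert c; decide
        rcases this with rfl | rfl
        · simp [hz]
        · simpa using hx }
  have hR : ∀ x, x ∈ R ↔ s x = 0 := fun x => Iff.rfl
  have hsR : ∀ x, ∀ r ∈ R, s (x + r) = s x := by
    intro x r hr
    have h1 := hadd x r
    have h2 := hadd (x + r) r
    rw [add_assoc, add_self, add_zero] at h2
    have h3 := (hR r).1 hr
    omega
  obtain ⟨U, hU⟩ := Submodule.exists_isCompl R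
  have hcomp : Comp s U R := by
    refine ⟨by rw [sup_comm]; exact hU.sup_eq_top, ?_, ?_⟩
    · intro x hx hx0
      have : x ∈ R ⊓ U := ⟨(hR x).2 hx0, hx⟩
      rw [hU.inf_eq_bot] at this
      exact (Submodule.mem_bot _).1 this
    · intro u _ r hr
      rw [hsR u r hr, (hR r).1 hr, add_zero]
  obtain ⟨ι, _, B0, b1, b2, b3, b4, b5⟩ := dec_of_comp hs hsplit U R hcomp
  let E := Fintype.equivFin ι
  let B : Fin (Fintype.card ι) → Submodule (ZMod 2) V := fun i => B0 (E.symm i)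
  have b4' : ∀ u ∈ U, ∃ c : ∀ i, B i, u = ∑ i, (c i : V) := by
    intro u hu
    obtain ⟨c, hc, hcu⟩ := b4 u hu
    refine ⟨fun i => ⟨c (E.symm i), hc _⟩, ?_⟩
    rw [hcu]
    exact (Equiv.sum_comp E.symm c).symm
  have b5' : ∀ c : ∀ i, B i, s (∑ i, (c i : V)) = ∑ i, s (c i : V) := by
    intro c
    have h1 := b5 (fun j => (c (E j) : V)) (fun j => by
      have := (c (E j)).2
      simpa [B] using this)
    have h2 : ∑ j, (c (E j) : V) = ∑ i, (c i : V) := Equiv.sum_comp E (fun i => (c i : V))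
    have h3 : ∑ j, s (c (E j) : V) = ∑ i, s (c i : V) :=
      Equiv.sum_comp E (fun i => s (c i : V))
    rw [h2, h3] at h1
    exact h1
  let φ : (R × (∀ i, B i)) →ₗ[ZMod 2] V :=
    R.subtype.coprod (∑ i, (B i).subtype ∘ₗ LinearMap.proj i)
  have hφ : ∀ r c, φ (r, c) = (r : V) + ∑ i, (c i : V) := by
    intro r c
    simp [φ]
  have hbij : Function.Bijective φ := by
    constructor
    · rw [← LinearMap.ker_eq_bot, LinearMap.ker_eq_bot']
      rintro ⟨r, c⟩ h
      rw [hφ] at h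
      have hcU : ∑ i, (c i : V) ∈ U := Submodule.sum_mem _ fun i _ => b2 _ (c i).2
      have hrU : (r : V) ∈ U := by
        have : (r : V) = -∑ i, (c i : V) := eq_neg_of_add_eq_zero_left h
        rw [this]
        exact U.neg_mem hcU
      have hr : (r : V) = 0 := hcomp.2.1 _ hrU r.2
      rw [hr, zero_add] at h
      have h1 := b5' c
      rw [h, hz] at h1
      have h2 := (Finset.sum_eq_zero_iff.1 h1.symm)
      have h3 : c = 0 := by
        funext i
        have h4 := h2 i (Finset.mem_univ i)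
        exact Subtype.ext (hcomp.2.1 _ (b2 _ (c i).2) h4)
      rw [h3, Prod.mk_eq_zero]
      exact ⟨Subtype.ext hr, rfl⟩
    · intro x
      have hx : x ∈ R ⊔ U := by rw [hU.sup_eq_top]; trivial
      obtain ⟨r, hr, u, hu, rfl⟩ := Submodule.mem_sup.1 hx
      obtain ⟨c, hc⟩ := b4' u hu
      exact ⟨(⟨r, hr⟩, c), by rw [hφ, hc]⟩
  let e := (LinearEquiv.ofBijective φ hbij).symm
  have he : ∀ x, x = ((e x).1 : V) + ∑ i, ((e x).2 i : V) := by
    intro x
    rw [← hφ]
    exact ((LinearEquiv.ofBijective φ hbij).apply_symm_apply x).symm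
  refine ⟨Fintype.card ι, R, B, e, he, hR, ?_, fun i => b1 _, fun i => b3 _⟩
  intro x
  rw [← b5' (e x).2]
  conv_lhs => rw [he x, add_comm]
  exact hsR _ _ (e x).1.2

end Pool.Agent.KRad
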