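import Pool.Agent.KRad.CombH1
import Pool.Agent.KRad.CombH2

/-!
# Combinatorics of cut functions
-/
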