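import Pool.Agent.KRad.Basic

/-!
# Module H1: splitting of cut functions (no fields)
-/

namespace Pool.Agent.KRad

open Module

variable {V : Type*} [AddCommGroup V] [Module (ZMod 2) V] [Finite V]

theorem zmod2_cases (a : ZMod 2) : a = 0 ∨ a = 1 := by
  revert a; decide

theorem zmod2_add_self (a : ZMod 2) : a + a = 0 := by
  revert a; decide

omit [Finite V] in
theorem mod2_add_self (x : V) : x + x = 0 := by
  have h : (1 + 1 : ZMod 2) • x = x + x := by rw [add_smul, one_smul]
  rw [← h]
  have : (1 + 1 : ZMod 2) = 0 := by decide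
  rw [this, zero_smul]

/-- The support of a cut function: independence and vanishing of `s` in terms of characters. -/
theorem exists_sig (s : V → ℕ) (hs : IsCut (fun x => (s x : ℝ))) :
    ∃ P : Set (Dual (ZMod 2) V),
      (∀ x y : V, s (x + y) = s x + s y ↔ ∀ χ ∈ P, χ x = 0 ∨ χ y = 0) ∧
      (∀ x : V, s x = 0 ↔ ∀ χ ∈ P, χ x = 0) := by
  classical
  obtain ⟨μ, hμ, hsx⟩ := hs
  have : Finite (Dual (ZMod 2) V) := Module.finite_of_finite (ZMod 2)
  have : Fintype (Dual (ZMod 2) V) := Fintype.ofFinite _
  have hsum : ∀ x, (s x : ℝ) = ∑ χ : Dual (ZMod 2) V, if χ x = 1 then μ χ else 0 := by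
    intro x
    rw [← finsum_eq_sum_of_fintype]
    exact hsx x
  refine ⟨{χ | 0 < μ χ}, ?_, ?_⟩
  · intro x y
    have key : (s x : ℝ) + s y - s (x + y) =
        ∑ χ : Dual (ZMod 2) V, 2 * (if χ x = 1 ∧ χ y = 1 then μ χ else 0) := by
      rw [hsum, hsum, hsum, ← Finset.sum_add_distrib, ← Finset.sum_sub_distrib]
      refine Finset.sum_congr rfl fun χ _ => ?_
      rw [map_add]
      rcases zmod2_cases (χ x) with h1 | h1 <;> rcases zmod2_cases (χ y) with h2 | h2 <;>
        simp only [h1, h2]
      · simp
      · simp
      · simp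
      · rw [if_pos trivial, if_neg (by decide), if_pos ⟨trivial, trivial⟩]
        ring
    have hnn : ∀ χ ∈ (Finset.univ : Finset (Dual (ZMod 2) V)),
        0 ≤ 2 * (if χ x = 1 ∧ χ y = 1 then μ χ else 0) := by
      intro χ _
      split_ifs
      · have := hμ χ
        linarith
      · simp
    constructor
    · intro h χ hχ
      have h0 : ∑ χ : Dual (ZMod 2) V, 2 * (if χ x = 1 ∧ χ y = 1 then μ χ else 0) = 0 := by
        rw [← key, h]; push_cast; ring
      have h1 := (Finset.sum_eq_zero_iff_of_nonneg hnn).mp h0 χ (Finset.mem_univ _)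
      by_contra hcon
      push Not at hcon
      have e1 : χ x = 1 := (zmod2_cases _).resolve_left hcon.1
      have e2 : χ y = 1 := (zmod2_cases _).resolve_left hcon.2
      rw [if_pos ⟨e1, e2⟩] at h1
      have : 0 < μ χ := hχ
      linarith
    · intro h
      have h0 : ∑ χ : Dual (ZMod 2) V, 2 * (if χ x = 1 ∧ χ y = 1 then μ χ else 0) = 0 := by
        apply Finset.sum_eq_zero
        intro χ _
        split_ifs with hc
        · have : ¬ 0 < μ χ := by
            intro hpos
            rcases h χ hpos with h3 | h3
            · rw [hc.1] at h3; exact absurd h3 (by decide)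
            · rw [hc.2] at h3; exact absurd h3 (by decide)
          have h4 : μ χ = 0 := le_antisymm (not_lt.mp this) (hμ χ)
          rw [h4, mul_zero]
        · rw [mul_zero]
      rw [h0] at key
      have : (s (x + y) : ℝ) = ((s x + s y : ℕ) : ℝ) := by push_cast; linarith
      exact_mod_cast this
  · intro x
    have hnn : ∀ χ ∈ (Finset.univ : Finset (Dual (ZMod 2) V)),
        0 ≤ (if χ x = 1 then μ χ else 0) := by
      intro χ _
      split_ifs
      · exact hμ χ
      · exact le_rfl
    constructor
    · intro h χ hχ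
      have h0 : ∑ χ : Dual (ZMod 2) V, (if χ x = 1 then μ χ else 0) = 0 := by
        rw [← hsum, h]; simp
      have h1 := (Finset.sum_eq_zero_iff_of_nonneg hnn).mp h0 χ (Finset.mem_univ _)
      by_contra hcon
      have e1 : χ x = 1 := (zmod2_cases _).resolve_left hcon
      rw [if_pos e1] at h1
      have : 0 < μ χ := hχ
      linarith
    · intro h
      have h0 : (s x : ℝ) = 0 := by
        rw [hsum]
        apply Finset.sum_eq_zero
        intro χ _
        split_ifs with hc
        · have : ¬ 0 < μ χ := by
            intro hpos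
            have h3 := h χ hpos
            rw [hc] at h3; exact absurd h3 (by decide)
          exact le_antisymm (not_lt.mp this) (hμ χ)
        · rfl
      exact_mod_cast h0

/-- Module H1. -/
theorem exists_splitting (s : V → ℕ) (hs : IsCut (fun x => (s x : ℝ)))
    (h5 : ∀ m w b : V, s (m + w) = s m + s w →
      ∃ x, s b = s x + s (b + x) ∧ s (x + w) = s x + s w ∧ s (b + x + m) = s (b + x) + s m)
    (m w : V) (hmw : s (m + w) = s m + s w) :
    ∃ A W : Submodule (ZMod 2) V, m ∈ A ∧ w ∈ W ∧ A ⊔ W = ⊤ ∧ (∀ x, x ∈ A ⊓ W ↔ s x = 0) ∧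
      ∀ a ∈ A, ∀ w' ∈ W, s (a + w') = s a + s w' := by
  obtain ⟨P, hP, hP0⟩ := exists_sig s hs
  -- the submodule of elements independent of every element of a set
  let F : Set V → Submodule (ZMod 2) V := fun T =>
    { carrier := {x | ∀ t ∈ T, ∀ χ ∈ P, χ x = 0 ∨ χ t = 0}
      add_mem' := by
        intro x y hx hy t ht χ hχ
        rcases hx t ht χ hχ with h1 | h1
        · rcases hy t ht χ hχ with h2 | h2
          · left; rw [map_add, h1, h2, add_zero]
          · exact Or.inr h2
        · exact Or.inr h1
      zero_mem' := by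
        intro t _ χ _
        left; exact map_zero χ
      smul_mem' := by
        intro c x hx t ht χ hχ
        rcases hx t ht χ hχ with h1 | h1
        · left; rw [map_smul, h1, smul_zero]
        · exact Or.inr h1 }
  have hF : ∀ (T : Set V) (x : V), x ∈ F T ↔ ∀ t ∈ T, ∀ χ ∈ P, χ x = 0 ∨ χ t = 0 :=
    fun T x => Iff.rfl
  set W : Submodule (ZMod 2) V := F {m} with hW
  set A : Submodule (ZMod 2) V := F (W : Set V) with hA
  have hWm : ∀ x, x ∈ W ↔ ∀ χ ∈ P, χ x = 0 ∨ χ m = 0 := by
    intro x
    rw [hW, hF]
    simp
  have hAm : ∀ x, x ∈ A ↔ ∀ t ∈ W, ∀ χ ∈ P, χ x = 0 ∨ χ t = 0 := fun x => Iff.rfl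
  have hRW : ∀ x, s x = 0 → x ∈ W := by
    intro x hx
    rw [hWm]
    intro χ hχ
    exact Or.inl ((hP0 x).mp hx χ hχ)
  have hRA : ∀ x, s x = 0 → x ∈ A := by
    intro x hx
    rw [hAm]
    intro t _ χ hχ
    exact Or.inl ((hP0 x).mp hx χ hχ)
  refine ⟨A, W, ?_, ?_, ?_, ?_, ?_⟩
  · rw [hAm]
    intro t ht χ hχ
    exact ((hWm t).mp ht χ hχ).symm
  · rw [hWm]
    intro χ hχ
    exact ((hP m w).mp hmw χ hχ).symm
  · suffices hall : ∀ (k : ℕ) (b : V), s b = k → b ∈ A ⊔ W by
      rw [eq_top_iff]
      intro b _
      exact hall (s b) b rfl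
    intro k
    -- strong induction on the value of `s`
    induction k using Nat.strong_induction_on with
    | _ k ih =>
      intro b hk
      by_cases hdec : ∃ x, s b = s x + s (b + x) ∧ s x ≠ 0 ∧ s (b + x) ≠ 0
      · obtain ⟨x, hx1, hx2, hx3⟩ := hdec
        have h1 := ih (s x) (by omega) x rfl
        have h2 := ih (s (b + x)) (by omega) (b + x) rfl
        have e : b = x + (b + x) := by
          have := mod2_add_self x
          calc b = b + 0 := (add_zero b).symm
            _ = b + (x + x) := by rw [this]
            _ = x + (b + x) := by abel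
        rw [e]
        exact Submodule.add_mem _ h1 h2
      · by_cases hbW : b ∈ W
        · exact Submodule.mem_sup_right hbW
        · apply Submodule.mem_sup_left
          rw [hAm]
          intro w' hw' χ hχ
          have hmw' : s (m + w') = s m + s w' := by
            rw [hP]
            intro χ hχ
            exact ((hWm w').mp hw' χ hχ).symm
          obtain ⟨x, hx1, hx2, hx3⟩ := h5 m w' b hmw'
          have hbx : b + x ∈ W := (hWm _).mpr ((hP _ _).mp hx3)
          have hsx : s x ≠ 0 := by
            intro h0
            apply hbW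
            have e : b = x + (b + x) := by
              have := mod2_add_self x
              calc b = b + 0 := (add_zero b).symm
                _ = b + (x + x) := by rw [this]
                _ = x + (b + x) := by abel
            rw [e]
            exact W.add_mem (hRW x h0) hbx
          have hsbx : s (b + x) = 0 := by
            by_contra h0
            exact hdec ⟨x, hx1, hsx, h0⟩
          have h1 : χ (b + x) = 0 := (hP0 _).mp hsbx χ hχ
          rw [map_add] at h1
          have h2 : χ b = χ x := by
            have := zmod2_add_self (χ x)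
            have h3 : χ b + χ x = χ x + χ x := by rw [h1, this]
            exact add_right_cancel h3
          rw [h2]
          exact (hP x w').mp hx2 χ hχ
  · intro x
    constructor
    · rintro ⟨hxA, hxW⟩
      rw [hP0]
      intro χ hχ
      rcases (hAm x).mp hxA x hxW χ hχ with h | h <;> exact h
    · intro hx
      exact ⟨hRA x hx, hRW x hx⟩
  · intro a ha w' hw'
    rw [hP]
    exact (hAm a).mp ha w' hw'

end Pool.Agent.KRad
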