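import Pool.Agent.KRad.Split5
import Pool.Agent.KRad.Comb
import Pool.Agent.Hhelper2.LocalMain

/-!
# Module I: from the rank function back to quaternionic structures
-/

namespace Pool.Agent.KRad

open Pool.Agent.Hhelper2 Pool.Agent.Hhelper2.QuadExt Pool.Agent.Hhelper2.Tower Additive Module
open Pool.Agent.Hhelper2.LocalCore

universe u v

/-! ### Hilbert 90 for genuine quadratic extensions -/

/-- `x` is in the Kaplansky radical of `F`: `x ≠ 0` and the form `X ^ 2 - x Y ^ 2` represents every
element of `F`. -/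
def IsRad (F : Type u) [Field F] (x : F) : Prop :=
  x ≠ 0 ∧ ∀ y : F, ∃ p q : F, y = p ^ 2 - x * q ^ 2

theorem isRad_iff {F : Type u} [Field F] (h2 : (2 : F) ≠ 0) (x : Fˣ) :
    IsRad F (x : F) ↔ ∀ y, FieldSplit F (sqClass x) y := by
  constructor
  · rintro ⟨-, h⟩ y
    obtain ⟨y, rfl⟩ := exists_rep y
    rw [FieldAx.split_mk, FieldAx.solv_iff h2 x.ne_zero y.ne_zero]
    exact h y
  · intro h
    refine ⟨x.ne_zero, fun y => ?_⟩
    by_cases hy : y = 0
    · exact ⟨0, 0, by rw [hy]; ring⟩
    · have h3 := h (sqClass (Units.mk0 y hy))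
      rw [FieldAx.split_mk, FieldAx.solv_iff h2 x.ne_zero (Units.ne_zero _)] at h3
      exact h3

theorem gres_mk {F E : Type u} [Field F] [Field E] [Algebra F E] (f : Fˣ) :
    gres F E (sqClass f) = sqClass (Units.map (algebraMap F E).toMonoidHom f) := rfl

theorem gnm_mk {F E : Type u} [Field F] [Field E] [Algebra F E] (f : Eˣ) :
    gnm F E (sqClass f) = sqClass (Units.map (Algebra.norm F) f) := rfl

/-- Hilbert 90 for the Kaplansky radical. -/
theorem rn_genuine (F E : Type u) [Field F] [Field E] [Algebra F E] (h2 : (2 : F) ≠ 0)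
    (hf : Finite (SqClass F)) (hfin : finrank F E = 2) (y : E) (hy : y ≠ 0) :
    IsRad F (Algebra.norm F y) ↔ ∃ f : F, f ≠ 0 ∧ IsRad E (algebraMap F E f * y) := by
  obtain ⟨a, α, hα, hns⟩ := exists_sqrt (K := F) (E := E) h2 hfin
  obtain ⟨q, hres, hnm⟩ := exists_QL h2 hfin a α hα hns
  lift y to Eˣ using IsUnit.mk0 y hy
  have hN : (Algebra.norm F (y : E)) = ((Units.map (Algebra.norm F) y : Fˣ) : F) := rfl
  rw [hN, isRad_iff h2, ← gnm_mk, ← hnm]
  have key : ∀ f : Fˣ, IsRad E (algebraMap F E f * (y : E)) ↔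
      ∀ w, FieldSplit E (sqClass y * q.res (sqClass f)) w := by
    intro f
    have e : algebraMap F E f * (y : E) =
        ((Units.map (algebraMap F E).toMonoidHom f * y : Eˣ) : E) := rfl
    rw [e, isRad_iff q.two_ne, hres, gres_mk, mul_comm]
    exact Iff.rfl
  constructor
  · intro hx
    obtain ⟨f, hf⟩ := hilbert90 q (ofMul (sqClass y)) (fun z => hx (toMul z))
    obtain ⟨f₀, hf₀⟩ := exists_rep (toMul f)
    refine ⟨f₀, f₀.ne_zero, (key f₀).2 ?_⟩
    rw [hf₀]
    exact fun w => hf (ofMul w)
  · rintro ⟨f, hf0, hf⟩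
    lift f to Fˣ using IsUnit.mk0 f hf0
    rw [key] at hf
    have h3 := nm_radical h2 q (ofMul (sqClass y * q.res (sqClass f))) (fun w => hf (toMul w))
    have h4 : lin q.nm (ofMul (sqClass y * q.res (sqClass f))) = ofMul (q.nm (sqClass y)) := by
      rw [lin_apply, toMul_ofMul, map_mul, q.nm_res, mul_one]
    rw [h4] at h3
    exact fun z => h3 (ofMul z)

/-! ### Independent classes -/

section symbol

variable {K : Type u} [Field K] [Finite (SqClass K)] {Q : Type v} [AddCommGroup Q]
  [Module (ZMod 2) Q] {β : VV K →ₗ[ZMod 2] VV K →ₗ[ZMod 2] Q}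

/-- Independent classes have independent value groups. -/
theorem disjoint_range (hβ : ∀ x y, β x y = 0 ↔ Sp K x y) {x y : VV K}
    (h : sv K (x + y) = sv K x + sv K y) :
    Disjoint (LinearMap.range (β x)) (LinearMap.range (β y)) := by
  rw [disjoint_iff]
  have h1 := sv_eq_finrank_range β hβ x
  have h2 := sv_eq_finrank_range β hβ y
  have h3 := sv_eq_finrank_range β hβ (x + y)
  have hx : Finite (LinearMap.range (β x)) := Set.Finite.to_subtype (Set.toFinite (Set.range (β x)))
  have hy : Finite (LinearMap.range (β y)) := Set.Finite.to_subtype (Set.toFinite (Set.range (β y)))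
  have h4 := Submodule.finrank_sup_add_finrank_inf_eq (LinearMap.range (β x)) (LinearMap.range (β y))
  have h5 : LinearMap.range (β (x + y)) ≤ LinearMap.range (β x) ⊔ LinearMap.range (β y) := by
    rintro _ ⟨z, rfl⟩
    rw [map_add, LinearMap.add_apply]
    exact Submodule.add_mem_sup ⟨z, rfl⟩ ⟨z, rfl⟩
  have h6 := Submodule.finrank_mono h5
  rw [← Submodule.finrank_eq_zero (R := ZMod 2)]
  omega

theorem beta_of_indep (hβ : ∀ x y, β x y = 0 ↔ Sp K x y) (symm : ∀ x y, β x y = β y x)
    {x y : VV K} (h : sv K (x + y) = sv K x + sv K y) : β x y = 0 := by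
  have h1 := disjoint_range hβ h
  rw [Submodule.disjoint_def] at h1
  exact h1 _ ⟨y, rfl⟩ ⟨x, symm y x⟩

/-- Values of sums of independent classes. -/
theorem beta_zero_iff (hβ : ∀ x y, β x y = 0 ↔ Sp K x y) (symm : ∀ x y, β x y = β y x)
    {A W : Submodule (ZMod 2) (VV K)}
    (hAW : ∀ a ∈ A, ∀ w ∈ W, sv K (a + w) = sv K a + sv K w) {a a' w w' : VV K} (ha : a ∈ A)
    (ha' : a' ∈ A) (hw : w ∈ W) (hw' : w' ∈ W) :
    β (a + w) (a' + w') = 0 ↔ β a a' = 0 ∧ β w w' = 0 := by
  have h1 : β a w' = 0 := beta_of_indep hβ symm (hAW a ha w' hw')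
  have h2 : β w a' = 0 := by
    rw [symm]
    exact beta_of_indep hβ symm (hAW a' ha' w hw)
  have h3 : β (a + w) (a' + w') = β a a' + β w w' := by
    rw [map_add (β (a + w)), map_add β, LinearMap.add_apply, LinearMap.add_apply, h1, h2,
      add_zero, zero_add]
  rw [h3]
  constructor
  · intro h
    have h4 := disjoint_range hβ (hAW a ha w hw)
    rw [Submodule.disjoint_def] at h4
    have h5 : β a a' = β w w' := Codim.eq_of_add_eq_zero h
    have h6 : β a a' = 0 := h4 _ ⟨a', rfl⟩ ⟨w', h5.symm⟩
    exact ⟨h6, by rw [← h5, h6]⟩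
  · rintro ⟨h, h'⟩
    rw [h, h', add_zero]

end symbol

/-! ### Products -/

/-- A complement of `A` inside `W` which contains a given element. -/
theorem exists_compl {V : Type*} [AddCommGroup V] [Module (ZMod 2) V]
    {A W : Submodule (ZMod 2) V} (hAW : A ⊔ W = ⊤) {b : V} (hb : b ∈ W) (hbA : b ∈ A → b = 0) :
    ∃ W' : Submodule (ZMod 2) V, W' ≤ W ∧ b ∈ W' ∧ IsCompl A W' := by
  have hdis : Disjoint (Submodule.span (ZMod 2) {(⟨b, hb⟩ : W)}) (A.comap W.subtype) := by
    rw [Submodule.disjoint_def]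
    intro x hx hx'
    obtain ⟨c, rfl⟩ := Submodule.mem_span_singleton.1 hx
    rcases zmod2_cases c with rfl | rfl
    · rw [zero_smul]
    · rw [one_smul] at hx' ⊢
      exact Subtype.ext (hbA hx')
  obtain ⟨C, hC1, hC2⟩ := hdis.exists_isCompl
  refine ⟨C.map W.subtype, Submodule.map_subtype_le _ _,
    ⟨⟨b, hb⟩, hC1 (Submodule.mem_span_singleton_self _), rfl⟩, ?_, ?_⟩
  · rw [Submodule.disjoint_def]
    rintro x hxA ⟨y, hy, rfl⟩
    have h3 := hC2.disjoint
    rw [Submodule.disjoint_def] at h3
    have h4 := h3 y hy hxA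
    rw [h4]; rfl
  · rw [codisjoint_iff, eq_top_iff, ← hAW]
    apply sup_le le_sup_left
    intro x hx
    have h3 : (⟨x, hx⟩ : W) ∈ C ⊔ A.comap W.subtype := by
      rw [hC2.sup_eq_top]; exact Submodule.mem_top
    obtain ⟨y, hy, z, hz, hyz⟩ := Submodule.mem_sup.1 h3
    have h4 : x = z + y := by
      have := congrArg Subtype.val hyz
      rw [add_comm] at this
      exact this.symm
    rw [h4]
    exact Submodule.add_mem_sup hz ⟨y, hy, rfl⟩

/-- The order of the group `N(a)` of all `c` with `(a, c)` split. -/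
noncomputable def nrm (S : QStr.{u}) (a : S.G) : ℕ := Nat.card {c : S.G // S.Split a c}

theorem card_iff {K : Type u} [Field K] (h2 : (2 : K) ≠ 0) [Finite (SqClass K)] (x y : VV K) :
    dg K x * dg K y = Nat.card (VV K) * dg K (x + y) ↔ sv K (x + y) = sv K x + sv K y := by
  have h1 := card_mul h2 x
  have h3 := card_mul h2 y
  have h4 := card_mul h2 (x + y)
  have hp : 0 < Nat.card (VV K) := Nat.card_pos
  have e1 : 2 ^ (sv K x + sv K y) * (dg K x * dg K y) = Nat.card (VV K) * Nat.card (VV K) := by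
    rw [pow_add]
    calc 2 ^ sv K x * 2 ^ sv K y * (dg K x * dg K y) =
        (2 ^ sv K x * dg K x) * (2 ^ sv K y * dg K y) := by ring
      _ = _ := by rw [← h1, ← h3]
  have e2 : 2 ^ (sv K (x + y)) * (Nat.card (VV K) * dg K (x + y)) =
      Nat.card (VV K) * Nat.card (VV K) := by
    calc 2 ^ (sv K (x + y)) * (Nat.card (VV K) * dg K (x + y)) =
        Nat.card (VV K) * (2 ^ (sv K (x + y)) * dg K (x + y)) := by ring
      _ = _ := by rw [← h4]
  have hD : 0 < Nat.card (VV K) * dg K (x + y) := by
    rcases Nat.eq_zero_or_pos (Nat.card (VV K) * dg K (x + y)) with h | h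
    · rw [h, mul_zero] at e2
      have : 0 < Nat.card (VV K) * Nat.card (VV K) := Nat.mul_pos hp hp
      omega
    · exact h
  constructor
  · intro h
    rw [h] at e1
    have h5 : 2 ^ (sv K (x + y)) = 2 ^ (sv K x + sv K y) :=
      Nat.eq_of_mul_eq_mul_right hD (e2.trans e1.symm)
    exact Nat.pow_right_injective (le_refl 2) h5
  · intro h
    rw [h] at e2
    exact Nat.eq_of_mul_eq_mul_left (by positivity) (e1.trans e2.symm)

theorem nrm_field {K : Type u} [Field K] (a : SqClass K) :
    nrm (QStr.ofField K) a = dg K (ofMul a) := rfl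

/-- The independence theorem. -/
theorem indep_prod (F : Type u) [Field F] (h2 : (2 : F) ≠ 0) (hf : Finite (SqClass F))
    (a b : SqClass F) (hb : ¬ ∀ c, FieldSplit F b c) :
    nrm (QStr.ofField F) a * nrm (QStr.ofField F) b =
        Nat.card (SqClass F) * nrm (QStr.ofField F) (a * b) ↔
      ∃ (S T : QStr.{u}) (f : (QStr.ofField F).Iso (S.prod T)), (f.e a).2 = 1 ∧ (f.e b).1 = 1 := by
  constructor
  · intro h
    have h3 : sv F (ofMul a + ofMul b) = sv F (ofMul a) + sv F (ofMul b) :=
      (card_iff h2 (ofMul a) (ofMul b)).1 h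
    obtain ⟨μ, hμ⟩ := isCut_sv (K := F) h2
    obtain ⟨A, W, haA, hbW, hsup, hinf, hAW⟩ := exists_splitting (sv F) ⟨μ, hμ⟩
      (fun m w b => split5 F h2 m w b) (ofMul a) (ofMul b) h3
    obtain ⟨W', hW', hb', hcompl⟩ := exists_compl hsup hbW (by
      intro hbA
      exact absurd ((sv_eq_zero_iff h2 _).1 ((hinf _).1 ⟨hbA, hbW⟩)) (fun h => hb (fun c => h (ofMul c))))
    obtain ⟨Q, _, _, _, β, hβ, symm, cs⟩ := exists_symbol F h2
    let E := Submodule.prodEquivOfIsCompl A W' hcompl
    have hE : ∀ p : A × W', E p = (p.1 : VV F) + (p.2 : VV F) := fun p => by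
      simp [E]
    let n := E.symm (ofMul (sqClass (-1)))
    let e : SqClass F ≃* Multiplicative A × Multiplicative W' :=
      { toFun := fun x => (Multiplicative.ofAdd (E.symm (ofMul x)).1,
          Multiplicative.ofAdd (E.symm (ofMul x)).2)
        invFun := fun p => toMul (E (Multiplicative.toAdd p.1, Multiplicative.toAdd p.2))
        left_inv := fun x => by
          show toMul (E (E.symm (ofMul x))) = x
          rw [E.apply_symm_apply]; rfl
        right_inv := fun p => by
          have h5 : E.symm (ofMul (toMul (E (Multiplicative.toAdd p.1, Multiplicative.toAdd p.2)))) =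
              (Multiplicative.toAdd p.1, Multiplicative.toAdd p.2) := E.symm_apply_apply _
          show (Multiplicative.ofAdd (E.symm (ofMul (toMul (E (Multiplicative.toAdd p.1,
            Multiplicative.toAdd p.2))))).1, Multiplicative.ofAdd (E.symm (ofMul (toMul (E
            (Multiplicative.toAdd p.1, Multiplicative.toAdd p.2))))).2) = p
          rw [h5]; rfl
        map_mul' := fun x y => by
          have h5 : E.symm (ofMul (x * y)) = E.symm (ofMul x) + E.symm (ofMul y) := by
            rw [← map_add]; rfl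
          show (Multiplicative.ofAdd (E.symm (ofMul (x * y))).1,
            Multiplicative.ofAdd (E.symm (ofMul (x * y))).2) = _
          rw [h5]; rfl }
    have hE' : ∀ x : VV F, x = ((E.symm x).1 : VV F) + ((E.symm x).2 : VV F) := by
      intro x
      rw [← hE, E.apply_symm_apply]
    refine ⟨sub β A n.1, sub β W' n.2, ⟨e, rfl, ?_⟩, ?_, ?_⟩
    · intro x y
      have h5 : β (ofMul x) (ofMul y) = 0 ↔
          β ((E.symm (ofMul x)).1 : VV F) ((E.symm (ofMul y)).1 : VV F) = 0 ∧
          β ((E.symm (ofMul x)).2 : VV F) ((E.symm (ofMul y)).2 : VV F) = 0 := by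
        conv_lhs => rw [hE' (ofMul x), hE' (ofMul y)]
        exact beta_zero_iff hβ symm (fun a ha w hw => hAW a ha w (hW' hw)) (E.symm (ofMul x)).1.2
          (E.symm (ofMul y)).1.2 (E.symm (ofMul x)).2.2 (E.symm (ofMul y)).2.2
      exact (hβ (ofMul x) (ofMul y)).symm.trans h5
    · have h5 : E.symm (ofMul a) = (⟨ofMul a, haA⟩, 0) := by
        rw [LinearEquiv.symm_apply_eq, hE]
        show ofMul a = ofMul a + ((0 : W') : VV F)
        rw [ZeroMemClass.coe_zero, add_zero]
      show Multiplicative.ofAdd (E.symm (ofMul a)).2 = 1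
      rw [h5]; rfl
    · have h5 : E.symm (ofMul b) = (0, ⟨ofMul b, hb'⟩) := by
        rw [LinearEquiv.symm_apply_eq, hE]
        show ofMul b = ((0 : A) : VV F) + ofMul b
        rw [ZeroMemClass.coe_zero, zero_add]
      show Multiplicative.ofAdd (E.symm (ofMul b)).1 = 1
      rw [h5]; rfl
  · rintro ⟨S, T, f, h3, h4⟩
    obtain ⟨g, hg, hga, hgb⟩ : ∃ g : SqClass F ≃* S.G × T.G,
        (∀ x y, FieldSplit F x y ↔ S.Split (g x).1 (g y).1 ∧ T.Split (g x).2 (g y).2) ∧
        (g a).2 = 1 ∧ (g b).1 = 1 := ⟨f.e, f.map_split, h3, h4⟩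
    have hS1 : ∀ y : S.G, S.Split 1 y := by
      intro y
      have h5 := (hg 1 (g.symm (y, 1))).1 (sp_zero_left h2 (ofMul (g.symm (y, 1))))
      rw [map_one, MulEquiv.apply_symm_apply] at h5
      exact h5.1
    have hT1 : ∀ y : T.G, T.Split 1 y := by
      intro y
      have h5 := (hg 1 (g.symm (1, y))).1 (sp_zero_left h2 (ofMul (g.symm (1, y))))
      rw [map_one, MulEquiv.apply_symm_apply] at h5
      exact h5.2
    have hprod : ∀ x : SqClass F, nrm (QStr.ofField F) x = nrm S (g x).1 * nrm T (g x).2 := by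
      intro x
      show Nat.card {c : SqClass F // FieldSplit F x c} =
        Nat.card {c : S.G // S.Split (g x).1 c} * Nat.card {c : T.G // T.Split (g x).2 c}
      rw [← Nat.card_prod]
      apply Nat.card_congr
      refine (g.toEquiv.subtypeEquiv (q := fun y : S.G × T.G => S.Split (g x).1 y.1 ∧
        T.Split (g x).2 y.2) (fun c => hg x c)).trans ?_
      exact
        { toFun := fun y => (⟨y.1.1, y.2.1⟩, ⟨y.1.2, y.2.2⟩)
          invFun := fun z => ⟨(z.1.1, z.2.1), z.1.2, z.2.2⟩
          left_inv := fun y => rfl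
          right_inv := fun z => rfl }
    have hcard : Nat.card (SqClass F) = Nat.card S.G * Nat.card T.G := by
      rw [← Nat.card_prod]
      exact Nat.card_congr g.toEquiv
    have h5 : nrm T 1 = Nat.card T.G := by
      apply Nat.card_congr
      exact Equiv.subtypeUnivEquiv hT1
    have h6 : nrm S 1 = Nat.card S.G := by
      apply Nat.card_congr
      exact Equiv.subtypeUnivEquiv hS1
    have h7 : (g (a * b)).1 = (g a).1 := by
      rw [map_mul, Prod.fst_mul, hgb, mul_one]
    have h8 : (g (a * b)).2 = (g b).2 := by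
      rw [map_mul, Prod.snd_mul, hga, one_mul]
    rw [hprod a, hprod b, hprod (a * b), h7, h8, hga, hgb, h5, h6, hcard]
    ring

/-! ### Blocks -/

/-- In the group of the block, orders of groups `N(x)` are determined by the rank function. -/
theorem card_block {K : Type u} [Field K] [Finite (SqClass K)] {Q : Type v}
    [AddCommGroup Q] [Module (ZMod 2) Q] {β : VV K →ₗ[ZMod 2] VV K →ₗ[ZMod 2] Q}
    (hβ : ∀ x y, β x y = 0 ↔ Sp K x y) (B : Submodule (ZMod 2) (VV K)) (n : B) (x : B)
    (hx : ∀ z : VV K, ∃ z' ∈ B, β (x : VV K) z = β (x : VV K) z') :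
    Nat.card B = 2 ^ sv K (x : VV K) * nrm (sub β B n) (Multiplicative.ofAdd x) := by
  have h1 : nrm (sub β B n) (Multiplicative.ofAdd x) =
      Nat.card (LinearMap.ker ((β (x : VV K)).domRestrict B)) := by
    apply Nat.card_congr
    exact
      { toFun := fun y => ⟨Multiplicative.toAdd y.1, y.2⟩
        invFun := fun z => ⟨Multiplicative.ofAdd z.1, z.2⟩
        left_inv := fun y => rfl
        right_inv := fun z => rfl }
  have h3 : LinearMap.range ((β (x : VV K)).domRestrict B) = LinearMap.range (β (x : VV K)) := by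
    apply le_antisymm
    · rintro _ ⟨z, rfl⟩
      exact ⟨z, rfl⟩
    · rintro _ ⟨z, rfl⟩
      obtain ⟨z', hz', h4⟩ := hx z
      exact ⟨⟨z', hz'⟩, h4.symm⟩
  have h4 := LinearMap.finrank_range_add_finrank_ker ((β (x : VV K)).domRestrict B)
  rw [h3, ← sv_eq_finrank_range β hβ] at h4
  rw [h1, natCard_eq_pow, natCard_eq_pow, ← pow_add, h4]

/-- Elements of different blocks are independent. -/
theorem indep_of_sum {V : Type*} [AddCommGroup V] [Module (ZMod 2) V] (s : V → ℕ) (h0 : s 0 = 0)
    {n : ℕ} (B : Fin n → Submodule (ZMod 2) V)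
    (hsum : ∀ f : (∀ i, B i), s (∑ i, (f i : V)) = ∑ i, s (f i : V)) {i j : Fin n} (hij : i ≠ j)
    {x y : V} (hx : x ∈ B i) (hy : y ∈ B j) : s (x + y) = s x + s y := by
  classical
  have h1 : ∀ k, (if k = i then x else 0) + (if k = j then y else 0) ∈ B k := by
    intro k
    apply Submodule.add_mem
    · split_ifs with h
      · rw [h]; exact hx
      · exact Submodule.zero_mem _
    · split_ifs with h
      · rw [h]; exact hy
      · exact Submodule.zero_mem _
  have h2 := hsum (fun k => ⟨_, h1 k⟩)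
  have h3 : ∀ k, s ((if k = i then x else 0) + (if k = j then y else 0)) =
      (if k = i then s x else 0) + (if k = j then s y else 0) := by
    intro k
    by_cases hkj : k = j
    · have hki : k ≠ i := fun h => hij (h.symm.trans hkj)
      rw [if_neg hki, if_neg hki, if_pos hkj, if_pos hkj, zero_add, zero_add]
    · rw [if_neg hkj, if_neg hkj, add_zero, add_zero]
      by_cases hki : k = i
      · rw [if_pos hki, if_pos hki]
      · rw [if_neg hki, if_neg hki, h0]
  have h4 : ∑ k, s ((if k = i then x else 0) + (if k = j then y else 0)) = s x + s y := by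
    rw [Finset.sum_congr rfl (fun k _ => h3 k), Finset.sum_add_distrib]
    simp
  have h5 : ∑ k, ((if k = i then x else 0) + (if k = j then y else 0)) = x + y := by
    rw [Finset.sum_add_distrib]
    simp
  have h6 : s (∑ k, ((if k = i then x else 0) + (if k = j then y else 0))) =
    ∑ k, s ((if k = i then x else 0) + (if k = j then y else 0)) := h2
  rw [h4, h5] at h6
  exact h6

/-- An element of a block is independent of the sum of the other components. -/
theorem indep_rest {V : Type*} [AddCommGroup V] [Module (ZMod 2) V] (s : V → ℕ) (h0 : s 0 = 0)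
    {n : ℕ} (B : Fin n → Submodule (ZMod 2) V)
    (hsum : ∀ f : (∀ i, B i), s (∑ i, (f i : V)) = ∑ i, s (f i : V)) (f : ∀ i, B i) (i : Fin n) :
    s ((f i : V) + ∑ j ∈ Finset.univ.erase i, (f j : V)) =
      s (f i : V) + s (∑ j ∈ Finset.univ.erase i, (f j : V)) := by
  classical
  have h1 : ∑ j ∈ Finset.univ.erase i, (f j : V) = ∑ j, ((if j = i then 0 else f j : B j) : V) := by
    rw [← Finset.add_sum_erase Finset.univ (fun j => ((if j = i then 0 else f j : B j) : V))
      (Finset.mem_univ i), if_pos rfl]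
    rw [ZeroMemClass.coe_zero, zero_add]
    apply Finset.sum_congr rfl
    intro j hj
    rw [if_neg (Finset.ne_of_mem_erase hj)]
  have h2 : s (∑ j ∈ Finset.univ.erase i, (f j : V)) = ∑ j ∈ Finset.univ.erase i, s (f j : V) := by
    rw [h1, hsum, ← Finset.add_sum_erase Finset.univ
      (fun j => s ((if j = i then 0 else f j : B j) : V)) (Finset.mem_univ i), if_pos rfl]
    rw [ZeroMemClass.coe_zero, h0, zero_add]
    apply Finset.sum_congr rfl
    intro j hj
    rw [if_neg (Finset.ne_of_mem_erase hj)]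
  rw [h2, Finset.add_sum_erase Finset.univ (fun j => (f j : V)) (Finset.mem_univ i), hsum,
    Finset.add_sum_erase Finset.univ (fun j => s (f j : V)) (Finset.mem_univ i)]

/-- Decomposition into blocks without independent pairs. -/
theorem blocks_prod (F : Type u) [Field F] (h2 : (2 : F) ≠ 0) (hf : Finite (SqClass F)) :
    ∃ (n : ℕ) (R : QStr.{u}) (S : Fin n → QStr.{u}),
      Nonempty ((QStr.ofField F).Iso (R.prod (QStr.pi S))) ∧ (∀ a b, R.Split a b) ∧
      ∀ i, Nontrivial (S i).G ∧ ∀ a b : (S i).G,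
        nrm (S i) a * nrm (S i) b = Nat.card (S i).G * nrm (S i) (a * b) → a = 1 ∨ b = 1 := by
  obtain ⟨μ, hμ⟩ := isCut_sv (K := F) h2
  obtain ⟨n, R, B, E, hE, hR, hs, hB, hind⟩ := exists_blocks (sv F) ⟨μ, hμ⟩
    (fun m w h => exists_splitting (sv F) ⟨μ, hμ⟩ (fun m w b => split5 F h2 m w b) m w h)
  obtain ⟨Q, _, _, _, β, hβ, symm, cs⟩ := exists_symbol F h2
  -- additivity of the rank function over the blocks
  have hEsymm : ∀ p : R × (∀ i, B i), E.symm p = (p.1 : VV F) + ∑ i, (p.2 i : VV F) := by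
    intro p
    have h3 := hE (E.symm p)
    rwa [E.apply_symm_apply] at h3
  have hsum : ∀ f : (∀ i, B i), sv F (∑ i, (f i : VV F)) = ∑ i, sv F (f i : VV F) := by
    intro f
    have h3 := hs (E.symm (0, f))
    rw [E.apply_symm_apply, hEsymm] at h3
    simpa using h3
  have hrad : ∀ r ∈ R, ∀ z, β r z = 0 := by
    intro r hr z
    rw [hβ]
    exact (sv_eq_zero_iff h2 r).1 ((hR r).1 hr) z
  have hne : ∀ (i : Fin n) (x : VV F), x ∈ B i → ∀ (g : ∀ i, B i), β x (∑ j, (g j : VV F)) =
      β x (g i : VV F) := by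
    classical
    intro i x hx g
    rw [map_sum]
    apply Finset.sum_eq_single i
    · intro j _ hj
      exact beta_of_indep hβ symm (indep_of_sum (sv F) (sv_zero h2) B hsum hj.symm hx (g j).2)
    · intro h
      exact absurd (Finset.mem_univ _) h
  have hkey : ∀ p q : R × (∀ i, B i), β (E.symm p) (E.symm q) = 0 ↔
      ∀ i, β (p.2 i : VV F) (q.2 i : VV F) = 0 := by
    classical
    intro p q
    have h4 : ∀ r ∈ R, ∀ z, β z r = 0 := fun r hr z => by rw [symm]; exact hrad r hr z
    have h5 : ∀ z : VV F, β z (E.symm q) = β z (∑ i, (q.2 i : VV F)) := by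
      intro z
      rw [hEsymm, map_add, h4 _ q.1.2, zero_add]
    have h3 : β (E.symm p) (E.symm q) = ∑ i, β (p.2 i : VV F) (q.2 i : VV F) := by
      rw [h5, hEsymm, map_add β, LinearMap.add_apply, hrad _ p.1.2, zero_add, map_sum β,
        LinearMap.sum_apply]
      exact Finset.sum_congr rfl (fun i _ => hne i _ (p.2 i).2 q.2)
    constructor
    · intro h i
      have h6 := disjoint_range hβ (indep_rest (sv F) (sv_zero h2) B hsum p.2 i)
      rw [Submodule.disjoint_def] at h6
      have h7 : β (p.2 i : VV F) (E.symm q) +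
          β (∑ j ∈ Finset.univ.erase i, (p.2 j : VV F)) (E.symm q) = 0 := by
        rw [← LinearMap.add_apply, ← map_add β, Finset.add_sum_erase Finset.univ
          (fun j => (p.2 j : VV F)) (Finset.mem_univ i)]
        rw [hEsymm p, map_add β, LinearMap.add_apply, hrad _ p.1.2, zero_add] at h
        exact h
      have h8 := h6 _ ⟨E.symm q, rfl⟩ ⟨E.symm q, (Codim.eq_of_add_eq_zero h7).symm⟩
      rw [h5, hne i _ (p.2 i).2 q.2] at h8
      exact h8
    · intro h
      rw [h3]
      exact Finset.sum_eq_zero (fun i _ => h i)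
  let nE := E (ofMul (sqClass (-1)))
  let e : SqClass F ≃* Multiplicative R × (∀ i, Multiplicative (B i)) :=
    { toFun := fun x => (Multiplicative.ofAdd (E (ofMul x)).1,
        fun i => Multiplicative.ofAdd ((E (ofMul x)).2 i))
      invFun := fun p => toMul (E.symm (Multiplicative.toAdd p.1,
        fun i => Multiplicative.toAdd (p.2 i)))
      left_inv := fun x => by
        show toMul (E.symm (E (ofMul x))) = x
        rw [E.symm_apply_apply]; rfl
      right_inv := fun p => by
        have h5 : E (ofMul (toMul (E.symm (Multiplicative.toAdd p.1,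
            fun i => Multiplicative.toAdd (p.2 i))))) =
            (Multiplicative.toAdd p.1, fun i => Multiplicative.toAdd (p.2 i)) :=
          E.apply_symm_apply _
        show (Multiplicative.ofAdd (E (ofMul (toMul (E.symm (Multiplicative.toAdd p.1,
          fun i => Multiplicative.toAdd (p.2 i)))))).1, fun i => Multiplicative.ofAdd ((E (ofMul
          (toMul (E.symm (Multiplicative.toAdd p.1,
          fun i => Multiplicative.toAdd (p.2 i)))))).2 i)) = p
        rw [h5]; rfl
      map_mul' := fun x y => by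
        have h5 : E (ofMul (x * y)) = E (ofMul x) + E (ofMul y) := by
          rw [← map_add]; rfl
        show (Multiplicative.ofAdd (E (ofMul (x * y))).1,
          fun i => Multiplicative.ofAdd ((E (ofMul (x * y))).2 i)) = _
        rw [h5]; rfl }
  refine ⟨n, sub β R nE.1, fun i => sub β (B i) (nE.2 i), ⟨⟨e, rfl, ?_⟩⟩, ?_, ?_⟩
  · intro x y
    have h5 := hkey (E (ofMul x)) (E (ofMul y))
    rw [E.symm_apply_apply, E.symm_apply_apply] at h5
    have h6 : FieldSplit F x y ↔ β (ofMul x) (ofMul y) = 0 := (hβ (ofMul x) (ofMul y)).symm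
    have h7 : FieldSplit F x y ↔ ((β ((E (ofMul x)).1 : VV F) ((E (ofMul y)).1 : VV F) = 0) ∧
        ∀ i, β ((E (ofMul x)).2 i : VV F) ((E (ofMul y)).2 i : VV F) = 0) := by
      rw [h6, h5]
      exact ⟨fun h => ⟨hrad _ (E (ofMul x)).1.2 _, h⟩, fun h => h.2⟩
    exact h7
  · intro a b
    exact hrad _ (Multiplicative.toAdd a : R).2 _
  · intro i
    have hnt : Nontrivial (B i) := Submodule.nontrivial_iff_ne_bot.2 (hB i)
    refine ⟨inferInstanceAs (Nontrivial (B i)), ?_⟩
    intro a b h
    have hx : ∀ x : B i, ∀ z : VV F, ∃ z' ∈ B i, β (x : VV F) z = β (x : VV F) z' := by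
      intro x z
      refine ⟨((E z).2 i : VV F), ((E z).2 i).2, ?_⟩
      conv_lhs => rw [hE z]
      rw [map_add, symm _ ((E z).1 : VV F), hrad _ (E z).1.2, zero_add]
      exact hne i x x.2 (E z).2
    set a' : B i := Multiplicative.toAdd a with ha'
    set b' : B i := Multiplicative.toAdd b with hb'
    have h3 := card_block hβ (B i) (nE.2 i) a' (hx a')
    have h4 := card_block hβ (B i) (nE.2 i) b' (hx b')
    have h5 := card_block hβ (B i) (nE.2 i) (a' + b') (hx (a' + b'))
    have e1 : (Multiplicative.ofAdd a' : (sub β (B i) (nE.2 i)).G) = a := rfl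
    have e2 : (Multiplicative.ofAdd b' : (sub β (B i) (nE.2 i)).G) = b := rfl
    have e3 : (Multiplicative.ofAdd (a' + b') : (sub β (B i) (nE.2 i)).G) = a * b := rfl
    have hcardG : Nat.card (sub β (B i) (nE.2 i)).G = Nat.card (B i) := rfl
    rw [e1] at h3
    rw [e2] at h4
    rw [e3] at h5
    rw [hcardG] at h
    have hp : 0 < Nat.card (B i) := Nat.card_pos
    have e4 : 2 ^ (sv F (a' : VV F) + sv F (b' : VV F)) *
        (nrm (sub β (B i) (nE.2 i)) a * nrm (sub β (B i) (nE.2 i)) b) =
        Nat.card (B i) * Nat.card (B i) := by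
      rw [pow_add]
      calc 2 ^ sv F (a' : VV F) * 2 ^ sv F (b' : VV F) *
            (nrm (sub β (B i) (nE.2 i)) a * nrm (sub β (B i) (nE.2 i)) b) =
          (2 ^ sv F (a' : VV F) * nrm (sub β (B i) (nE.2 i)) a) *
          (2 ^ sv F (b' : VV F) * nrm (sub β (B i) (nE.2 i)) b) := by ring
        _ = _ := by rw [← h3, ← h4]
    have e5 : 2 ^ (sv F ((a' + b' : B i) : VV F)) *
        (Nat.card (B i) * nrm (sub β (B i) (nE.2 i)) (a * b)) =
        Nat.card (B i) * Nat.card (B i) := by
      calc 2 ^ (sv F ((a' + b' : B i) : VV F)) *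
            (Nat.card (B i) * nrm (sub β (B i) (nE.2 i)) (a * b)) =
          Nat.card (B i) * (2 ^ (sv F ((a' + b' : B i) : VV F)) *
            nrm (sub β (B i) (nE.2 i)) (a * b)) := by ring
        _ = _ := by rw [← h5]
    have hD : 0 < Nat.card (B i) * nrm (sub β (B i) (nE.2 i)) (a * b) := by
      rcases Nat.eq_zero_or_pos (Nat.card (B i) * nrm (sub β (B i) (nE.2 i)) (a * b)) with h6 | h6
      · rw [h6, mul_zero] at e5
        have : 0 < Nat.card (B i) * Nat.card (B i) := Nat.mul_pos hp hp
        omega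
      · exact h6
    rw [h] at e4
    have h6 : 2 ^ (sv F ((a' + b' : B i) : VV F)) = 2 ^ (sv F (a' : VV F) + sv F (b' : VV F)) :=
      Nat.eq_of_mul_eq_mul_right hD (e5.trans e4.symm)
    have h7 : sv F ((a' : VV F) + (b' : VV F)) = sv F (a' : VV F) + sv F (b' : VV F) :=
      Nat.pow_right_injective (le_refl 2) h6
    rcases hind i _ a'.2 _ b'.2 h7 with h8 | h8
    · left
      have : a' = 0 := Subtype.ext h8
      rw [← e1, this]; rfl
    · right
      have : b' = 0 := Subtype.ext h8
      rw [← e2, this]; rfl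

end Pool.Agent.KRad
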