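import Pool.Agent.KRad.Basic

/-!
# Modules B2 and C: Fourier positivity and the covering lemma (no fields)
-/

namespace Pool.Agent.KRad

open Module

variable {V : Type*} [AddCommGroup V] [Module (ZMod 2) V] [Finite V]

namespace FourierB2

/-- The sign character of `ZMod 2`. -/
noncomputable def sg (c : ZMod 2) : ℝ := if c = 1 then -1 else 1

lemma zmod_cases (c : ZMod 2) : c = 0 ∨ c = 1 := by
  revert c
  decide

lemma sg_zero : sg 0 = 1 := by
  unfold sg
  rw [if_neg (by decide)]

lemma sg_one : sg 1 = -1 := by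
  unfold sg
  rw [if_pos rfl]

lemma sg_add (a b : ZMod 2) : sg (a + b) = sg a * sg b := by
  have h11 : (1 : ZMod 2) + 1 = 0 := by decide
  rcases zmod_cases a with rfl | rfl <;> rcases zmod_cases b with rfl | rfl <;>
    simp [sg_zero, sg_one, h11]

lemma ite_one (c : ZMod 2) (a : ℝ) : (if c = 1 then a else 0) = (1 - sg c) / 2 * a := by
  rcases zmod_cases c with rfl | rfl
  · rw [sg_zero, if_neg (by decide)]; ring
  · rw [sg_one, if_pos rfl]; ring

instance : Finite (Dual (ZMod 2) V) :=
  Finite.of_injective (fun f : Dual (ZMod 2) V => (f : V → ZMod 2)) DFunLike.coe_injective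

lemma card_dual : Nat.card (Dual (ZMod 2) V) = Nat.card V := by
  rw [natCard_eq_pow, natCard_eq_pow, Subspace.dual_finrank_eq]

lemma sum_dual [Fintype (Dual (ZMod 2) V)] [DecidableEq V] (v : V) :
    ∑ χ : Dual (ZMod 2) V, sg (χ v) = if v = 0 then (Nat.card V : ℝ) else 0 := by
  split_ifs with hv
  · subst hv
    simp only [map_zero, sg_zero]
    rw [Finset.sum_const, Finset.card_univ, ← Nat.card_eq_fintype_card, card_dual]
    simp
  · have h1 : ∃ χ₀ : Dual (ZMod 2) V, χ₀ v = 1 := by
      by_contra hcon
      push Not at hcon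
      apply hv
      rw [← Module.forall_dual_apply_eq_zero_iff (ZMod 2) v]
      intro φ
      rcases zmod_cases (φ v) with h | h
      · exact h
      · exact absurd h (hcon φ)
    obtain ⟨χ₀, h0⟩ := h1
    have h2 : ∑ χ : Dual (ZMod 2) V, sg (χ v) = ∑ χ : Dual (ZMod 2) V, sg ((χ + χ₀) v) :=
      (Equiv.sum_comp (Equiv.addRight χ₀) (fun χ : Dual (ZMod 2) V => sg (χ v))).symm
    have h3 : ∑ χ : Dual (ZMod 2) V, sg ((χ + χ₀) v) = - ∑ χ : Dual (ZMod 2) V, sg (χ v) := by
      rw [← Finset.sum_neg_distrib]
      refine Finset.sum_congr rfl fun χ _ => ?_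
      rw [LinearMap.add_apply, sg_add, h0, sg_one]
      ring
    linarith

end FourierB2

open FourierB2

/-- Module B2. -/
theorem isCut_of_pos (s : V → ℝ) (h0 : s 0 = 0)
    (hpos : ∀ (H : Submodule (ZMod 2) V) (x : V), ∑ᶠ h : H, s (h : V) ≤ ∑ᶠ h : H, s (x + (h : V))) :
    IsCut s := by
  classical
  have : Fintype V := Fintype.ofFinite V
  have : Fintype (Dual (ZMod 2) V) := Fintype.ofFinite _
  set n : ℝ := (Nat.card V : ℝ) with hn
  have hn0 : 0 < n := by
    rw [hn]
    exact_mod_cast Nat.card_pos
  set S : Dual (ZMod 2) V → ℝ := fun χ => ∑ v, sg (χ v) * s v with hS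
  have hSneg : ∀ χ : Dual (ZMod 2) V, χ ≠ 0 → S χ ≤ 0 := by
    intro χ hχ
    have h1 : ∃ x, χ x = 1 := by
      by_contra hcon
      push Not at hcon
      apply hχ
      ext x
      rcases zmod_cases (χ x) with h | h
      · simpa using h
      · exact absurd h (hcon x)
    obtain ⟨x, hx⟩ := h1
    have h2 := hpos (LinearMap.ker χ) x
    rw [finsum_eq_sum_of_fintype, finsum_eq_sum_of_fintype] at h2
    have h3 : ∀ g : V → ℝ, ∑ h : LinearMap.ker χ, g (h : V) = ∑ v, if χ v = 0 then g v else 0 := by
      intro g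
      rw [← Finset.sum_filter]
      exact (Finset.sum_subtype (Finset.univ.filter fun v => χ v = 0)
        (fun v => by simp [LinearMap.mem_ker]) g).symm
    rw [h3 s, h3 (fun v => s (x + v))] at h2
    have h4 : ∑ v, (if χ v = 0 then s (x + v) else 0) = ∑ v, if χ v = 1 then s v else 0 := by
      rw [← Equiv.sum_comp (Equiv.addLeft x) (fun v => if χ v = 1 then s v else 0)]
      refine Finset.sum_congr rfl fun v _ => ?_
      simp only [Equiv.coe_addLeft, map_add, hx]
      rcases zmod_cases (χ v) with h | h
      · rw [h]; simp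
      · rw [h, if_neg (by decide), if_neg (by decide)]
    rw [h4] at h2
    have h5 : S χ = ∑ v, (if χ v = 0 then s v else 0) - ∑ v, if χ v = 1 then s v else 0 := by
      rw [hS, ← Finset.sum_sub_distrib]
      refine Finset.sum_congr rfl fun v _ => ?_
      rcases zmod_cases (χ v) with h | h
      · rw [h, sg_zero, if_pos rfl, if_neg (by decide)]; ring
      · rw [h, sg_one, if_neg (by decide), if_pos rfl]; ring
    rw [h5]
    linarith
  refine ⟨fun χ => if χ = 0 then 0 else -(2 / n) * S χ, ?_, ?_⟩
  · intro χ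
    dsimp only
    split_ifs with h
    · exact le_rfl
    · have := hSneg χ h
      have h2 : 0 ≤ 2 / n := by positivity
      nlinarith
  · intro x
    rw [finsum_eq_sum_of_fintype]
    have h1 : ∀ χ : Dual (ZMod 2) V,
        (if χ x = 1 then (if χ = 0 then 0 else -(2 / n) * S χ) else 0) =
        -(1 / n) * ∑ v, s v * (sg (χ v) - sg (χ (v + x))) := by
      intro χ
      have h2 : (if χ x = 1 then (if χ = 0 then 0 else -(2 / n) * S χ) else 0) =
          if χ x = 1 then -(2 / n) * S χ else 0 := by
        by_cases hx : χ x = 1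
        · rw [if_pos hx, if_pos hx, if_neg]
          rintro rfl
          simp at hx
        · rw [if_neg hx, if_neg hx]
      rw [h2, ite_one, hS]
      simp only [map_add, sg_add]
      have h3 : ∑ v, s v * (sg (χ v) - sg (χ v) * sg (χ x)) =
          (1 - sg (χ x)) * ∑ v, sg (χ v) * s v := by
        rw [Finset.mul_sum]
        exact Finset.sum_congr rfl fun v _ => by ring
      rw [h3]
      ring
    rw [Finset.sum_congr rfl (fun χ _ => h1 χ), ← Finset.mul_sum, Finset.sum_comm]
    have h4 : ∀ v : V, ∑ χ : Dual (ZMod 2) V, s v * (sg (χ v) - sg (χ (v + x))) =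
        s v * ((if v = 0 then n else 0) - (if v = x then n else 0)) := by
      intro v
      rw [← Finset.mul_sum, Finset.sum_sub_distrib, sum_dual, sum_dual]
      congr 2
      have h5 : v + x = 0 ↔ v = x := by
        constructor
        · intro h
          rw [add_eq_zero_iff_eq_neg] at h
          rw [h, ZModModule.neg_eq_self]
        · rintro rfl
          exact ZModModule.add_self v
      by_cases h6 : v = x
      · rw [if_pos h6, if_pos (h5.2 h6)]
      · rw [if_neg h6, if_neg (fun h => h6 (h5.1 h))]
    rw [Finset.sum_congr rfl (fun v _ => h4 v)]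
    simp only [mul_sub, Finset.sum_sub_distrib, mul_ite, mul_zero, Finset.sum_ite_eq,
      Finset.sum_ite_eq', Finset.mem_univ, if_true, h0]
    field_simp
    ring

end Pool.Agent.KRad
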