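import Pool.Agent.KRad.LocalLemma

/-!
# Module D2: every quadratic extension of fields is an instance of `QL`
-/

namespace Pool.Agent.KRad

open Pool.Agent.Hhelper2 Pool.Agent.Hhelper2.QuadExt Pool.Agent.Hhelper2.Tower Additive Module
open Pool.Agent.Hhelper2.FieldAx

universe u

namespace Genuine

section quad

open QuadraticAlgebra

variable {K : Type u} [Field K]

/-- The norm of a quadratic algebra is the norm of a finite algebra. -/
lemma norm_eq (a : K) (z : QuadraticAlgebra K a 0) :
    Algebra.norm K z = QuadraticAlgebra.norm z := by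
  rw [Algebra.norm_apply, ← QuadraticAlgebra.det_toLinearMap_eq_norm]
  congr 1

/-- The quadratic algebra as an instance of `QL`. -/
theorem exists_QL_quad (h2 : (2 : K) ≠ 0) (a₀ : Kˣ) [Fact (∀ r : K, r ^ 2 ≠ (a₀ : K) + 0 * r)] :
    ∃ q : QL K (QuadraticAlgebra K (a₀ : K) 0) (sqClass a₀),
      q.res = gres K (QuadraticAlgebra K (a₀ : K) 0) ∧
      q.nm = gnm K (QuadraticAlgebra K (a₀ : K) 0) := by
  let E := QuadraticAlgebra K (a₀ : K) 0
  have h2E : (2 : E) ≠ 0 := two_ne h2
  have hres : ∀ x : Kˣ, gres K E (sqClass x) = sqClass (Units.map (algebraMap K E).toMonoidHom x) :=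
    fun x => rfl
  have hnm : ∀ x : Eˣ, gnm K E (sqClass x) = sqClass (Units.map (QuadraticAlgebra.norm (R := K)
      (a := (a₀ : K)) (b := 0)) x) := by
    intro x
    show sqClass (Units.map (Algebra.norm K) x) = _
    congr 1
    ext
    exact norm_eq (a₀ : K) (x : E)
  have hsolv' : ∀ (x y : Eˣ), FieldSplit E (sqClass x) (sqClass y) ↔
      ∃ p q : E, (y : E) = p ^ 2 - (x : E) * q ^ 2 := by
    intro x y
    rw [split_mk, solv_iff h2E x.ne_zero y.ne_zero]
  have hsolv : ∀ (x : Kˣ) (y : Eˣ), FieldSplit E (gres K E (sqClass x)) (sqClass y) ↔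
      ∃ p q : E, (y : E) = p ^ 2 - algebraMap K E x * q ^ 2 := by
    intro x y
    rw [hres, hsolv']
    rfl
  have hsolvK : ∀ (x y : Kˣ), FieldSplit K (sqClass x) (sqClass y) ↔
      ∃ p q : K, (y : K) = p ^ 2 - (x : K) * q ^ 2 := by
    intro x y
    rw [split_mk, solv_iff h2 x.ne_zero y.ne_zero]
  refine ⟨⟨⟨gres K E, gnm K E, h2E, ?_, ?_, ?_, ?_, ?_, ?_, ?_, ?_, ?_⟩, ?_⟩, rfl, rfl⟩
  · intro x
    obtain ⟨x, rfl⟩ := exists_rep x
    rw [hres, one_iff, one_iff, eq_comm (a := sqClass x), sqClass_eq]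
    constructor
    · intro h
      obtain ⟨s, hs | hs⟩ := elt_sq h2 h
      · exact Or.inl ⟨s, hs⟩
      · right
        have hs0 : s ≠ 0 := by
          rintro rfl
          apply x.ne_zero
          rw [hs]; ring
        exact ⟨Units.mk0 s hs0, by ext; simp [hs]⟩
    · rintro (⟨s, hs⟩ | ⟨s, hs⟩)
      · exact ⟨algebraMap K E s, by
          show algebraMap K E x = _
          rw [hs, map_pow]⟩
      · refine ⟨⟨0, s⟩, ?_⟩
        show algebraMap K E x = _
        rw [hs]
        exact elt_sqrt (s : K)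
  · intro x y h
    obtain ⟨x, rfl⟩ := exists_rep x
    obtain ⟨y, rfl⟩ := exists_rep y
    rw [hres y, hsolv]
    obtain ⟨p, q, hpq⟩ := (hsolvK x y).1 h
    refine ⟨algebraMap K E p, algebraMap K E q, ?_⟩
    show algebraMap K E y = _
    rw [hpq]
    simp
  · intro x
    obtain ⟨x, rfl⟩ := exists_rep x
    rw [hres, hnm, one_iff]
    exact ⟨x, by
      show QuadraticAlgebra.norm (algebraMap K E x) = _
      rw [QuadraticAlgebra.norm_algebraMap]⟩
  · intro x y h
    obtain ⟨x, rfl⟩ := exists_rep x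
    obtain ⟨y, rfl⟩ := exists_rep y
    rw [hnm, hsolvK]
    exact elt_norm ((hsolv x y).1 h)
  · intro x y h
    obtain ⟨x, rfl⟩ := exists_rep x
    obtain ⟨y, rfl⟩ := exists_rep y
    rw [hnm, hsolvK] at h
    obtain ⟨z₀, z₁, h⟩ := h
    obtain ⟨h, hh, hpq⟩ := elt_principle h2 y.ne_zero h
    refine ⟨sqClass (Units.mk0 h hh), ?_⟩
    rw [hres (Units.mk0 h hh), ← QuotientGroup.mk_mul, hsolv]
    exact hpq
  · intro y h
    obtain ⟨y, rfl⟩ := exists_rep y
    rw [hnm, one_iff] at h
    obtain ⟨c, h⟩ := h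
    obtain ⟨h, hh, t, ht⟩ := elt_ker h2 y.ne_zero h
    refine ⟨sqClass (Units.mk0 h hh), ?_⟩
    rw [eq_iff_mul, hres (Units.mk0 h hh), ← QuotientGroup.mk_mul, one_iff]
    exact ⟨t, ht⟩
  · intro y h
    obtain ⟨y, rfl⟩ := exists_rep y
    obtain ⟨p, q, hpq⟩ := (hsolvK a₀ y).1 h
    have hn : QuadraticAlgebra.norm (⟨p, q⟩ : E) = y := by
      rw [norm_def, hpq]
      simp
      ring
    have hne : (⟨p, q⟩ : E) ≠ 0 := by
      intro h0
      rw [h0] at hn
      apply y.ne_zero
      rw [← hn]
      simp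
    refine ⟨sqClass (Units.mk0 _ hne), ?_⟩
    rw [hnm]
    congr 1
    ext
    exact hn
  · intro z
    obtain ⟨z, rfl⟩ := exists_rep z
    rw [hnm, hsolvK]
    refine ⟨(z : E).re, (z : E).im, ?_⟩
    show QuadraticAlgebra.norm (z : E) = _
    rw [norm_def]
    ring
  · intro x h hs
    obtain ⟨x, rfl⟩ := exists_rep x
    obtain ⟨h, rfl⟩ := exists_rep h
    rw [hres h, hsolv] at hs
    obtain ⟨w, hw, h1, h3⟩ := elt_killed h2 a₀.ne_zero x.ne_zero h.ne_zero hs
    refine ⟨sqClass (Units.mk0 w hw), ?_, ?_⟩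
    · rw [← QuotientGroup.mk_mul, hsolvK]
      exact h1
    · rw [← QuotientGroup.mk_mul, hsolvK]
      simpa using h3
  · intro y hy w
    obtain ⟨y, rfl⟩ := exists_rep y
    obtain ⟨w, rfl⟩ := exists_rep w
    simp only at hy ⊢
    have hx : QuadraticAlgebra.norm (y : E) ≠ 0 :=
      (Units.map (QuadraticAlgebra.norm (R := K) (a := (a₀ : K)) (b := 0)) y).ne_zero
    have hrad : ∀ z : K, ∃ p q : K, z = p ^ 2 - QuadraticAlgebra.norm (y : E) * q ^ 2 := by
      intro z
      by_cases hz : z = 0
      · exact ⟨0, 0, by rw [hz]; ring⟩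
      · have h := hy (sqClass (Units.mk0 z hz))
        rw [hnm, hsolvK] at h
        exact h
    obtain ⟨f, hf, p, q, hpq⟩ := local_lemma h2 hx hrad one_ne_zero (y := (y : E))
      (by rw [one_pow, mul_one]) (w : E) w.ne_zero
    refine ⟨sqClass (Units.mk0 f hf), ?_⟩
    rw [hres (Units.mk0 f hf), ← QuotientGroup.mk_mul, hsolv']
    exact ⟨p, q, hpq⟩

end quad

section transport

variable {K E E' : Type u} [Field K] [Field E] [Field E']

lemma scMap_comp {F L M : Type u} [Field F] [Field L] [Field M] (f : Fˣ →* Lˣ) (g : Lˣ →* Mˣ)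
    (x : SqClass F) : scMap g (scMap f x) = scMap (g.comp f) x := by
  obtain ⟨x, rfl⟩ := exists_rep x
  rfl

lemma scMap_id {F : Type u} [Field F] (x : SqClass F) : scMap (MonoidHom.id Fˣ) x = x := by
  obtain ⟨x, rfl⟩ := exists_rep x
  rfl

/-- The isomorphism of square classes induced by an isomorphism of fields. -/
noncomputable def up (e : E ≃+* E') : SqClass E →* SqClass E' :=
  scMap (Units.map (e : E →* E'))

lemma up_mk (e : E ≃+* E') (x : Eˣ) : up e (sqClass x) = sqClass (Units.map (e : E →* E') x) := rfl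

lemma up_up (e : E ≃+* E') (x : SqClass E) : up e.symm (up e x) = x := by
  obtain ⟨x, rfl⟩ := exists_rep x
  rw [up_mk, up_mk]
  congr 1
  ext
  simp

lemma up_up' (e : E ≃+* E') (x : SqClass E') : up e (up e.symm x) = x := by
  obtain ⟨x, rfl⟩ := exists_rep x
  rw [up_mk, up_mk]
  congr 1
  ext
  simp

lemma split_up (e : E ≃+* E') {x y : SqClass E} (h : FieldSplit E x y) :
    FieldSplit E' (up e x) (up e y) := by
  obtain ⟨x', y', rfl, rfl, X, Y, h⟩ := h
  refine ⟨Units.map (e : E →* E') x', Units.map (e : E →* E') y', rfl, rfl, e X, e Y, ?_⟩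
  have := congrArg e h
  simpa using this

lemma split_up_iff (e : E ≃+* E') {x y : SqClass E} :
    FieldSplit E' (up e x) (up e y) ↔ FieldSplit E x y := by
  constructor
  · intro h
    have := split_up e.symm h
    rwa [up_up, up_up] at this
  · exact split_up e

/-- Transport of `QL` along an isomorphism of the extension field. -/
noncomputable def transport {a : SqClass K} (e : E ≃+* E') (q : QL K E a) : QL K E' a where
  res := (up e).comp q.res
  nm := q.nm.comp (up e.symm)
  two_ne := by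
    intro h
    apply q.two_ne
    apply e.injective
    rw [map_ofNat, h, map_zero]
  res_one x := by
    rw [← q.res_one, MonoidHom.comp_apply]
    constructor
    · intro h
      have := congrArg (up e.symm) h
      rwa [up_up, map_one] at this
    · intro h
      rw [h, map_one]
  res_split x y h := split_up e (q.res_split x y h)
  nm_res x := by
    rw [MonoidHom.comp_apply, MonoidHom.comp_apply, up_up]
    exact q.nm_res x
  proj x y h := by
    apply q.proj
    rw [MonoidHom.comp_apply, ← up_up' e y, split_up_iff] at h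
    exact h
  principle x y h := by
    obtain ⟨k, hk⟩ := q.principle _ _ h
    refine ⟨k, ?_⟩
    have := split_up e hk
    rwa [map_mul, up_up'] at this
  ker_nm y h := by
    obtain ⟨k, hk⟩ := q.ker_nm _ h
    refine ⟨k, ?_⟩
    rw [MonoidHom.comp_apply, ← hk, up_up']
  range_nm y h := by
    obtain ⟨z, hz⟩ := q.range_nm _ h
    exact ⟨up e z, by rw [MonoidHom.comp_apply, up_up, hz]⟩
  nm_split z := q.nm_split _
  killed x k h := q.killed x k ((split_up_iff e).1 h)
  loc y hy w := by
    obtain ⟨f, hf⟩ := q.loc (up e.symm y) hy (up e.symm w)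
    refine ⟨f, ?_⟩
    have := split_up e hf
    rwa [map_mul, up_up', up_up'] at this

end transport

section iso

variable {K E : Type u} [Field K] [Field E] [Algebra K E]

/-- A quadratic extension generated by a square root is a quadratic algebra. -/
theorem exists_iso (hfin : finrank K E = 2) (a : K) (α : E) (hα : α ^ 2 = algebraMap K E a)
    (hns : ¬ ∃ t : K, a = t ^ 2) :
    ∃ φ : QuadraticAlgebra K a 0 ≃ₐ[K] E, ∀ u v : K,
      φ ⟨u, v⟩ = algebraMap K E u + algebraMap K E v * α := by
  have hfact : Fact (∀ r : K, r ^ 2 ≠ a + 0 * r) :=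
    ⟨fun r hr => hns ⟨r, by rw [hr]; ring⟩⟩
  let f : QuadraticAlgebra K a 0 →ₐ[K] E := QuadraticAlgebra.lift ⟨α, by
    rw [← sq, hα, Algebra.algebraMap_eq_smul_one]; simp⟩
  have hf : ∀ u v : K, f ⟨u, v⟩ = algebraMap K E u + algebraMap K E v * α := by
    intro u v
    rw [Algebra.algebraMap_eq_smul_one, ← Algebra.smul_def]
    rfl
  have hinj : Function.Injective f := f.toRingHom.injective
  have hfd : FiniteDimensional K E := FiniteDimensional.of_finrank_pos (by rw [hfin]; norm_num)
  have hsurj : Function.Surjective f := by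
    have hle : finrank K (QuadraticAlgebra K a 0) = finrank K E := by
      rw [hfin, QuadraticAlgebra.finrank_eq_two]
    exact (LinearMap.injective_iff_surjective_of_finrank_eq_finrank (f := f.toLinearMap) hle).1 hinj
  exact ⟨AlgEquiv.ofBijective f ⟨hinj, hsurj⟩, hf⟩

end iso

end Genuine

open Genuine

/-- Module D2. -/
theorem exists_QL {K E : Type u} [Field K] [Field E] [Algebra K E] (h2 : (2 : K) ≠ 0)
    (hfin : finrank K E = 2) (a : Kˣ) (α : E) (hα : α ^ 2 = algebraMap K E a)
    (hns : ¬ ∃ t : K, (a : K) = t ^ 2) :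
    ∃ q : QL K E (sqClass a), q.res = gres K E ∧ q.nm = gnm K E := by
  have hfact : Fact (∀ r : K, r ^ 2 ≠ (a : K) + 0 * r) :=
    ⟨fun r hr => hns ⟨r, by rw [hr]; ring⟩⟩
  obtain ⟨φ, -⟩ := exists_iso hfin (a : K) α hα hns
  obtain ⟨q, h1, h3⟩ := exists_QL_quad h2 a
  refine ⟨transport (φ : QuadraticAlgebra K (a : K) 0 ≃+* E) q, ?_, ?_⟩
  · show (up _).comp q.res = _
    rw [h1]
    ext x
    show sqClass _ = sqClass _
    congr 1
    ext
    exact φ.commutes (x : K)
  · show q.nm.comp (up _) = _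
    rw [h3]
    ext x
    show sqClass _ = sqClass _
    congr 1
    ext
    show Algebra.norm K (φ.symm (x : E)) = Algebra.norm K (x : E)
    rw [Algebra.norm_eq_of_algEquiv φ.symm]

/-- Every quadratic extension is generated by a square root. -/
theorem exists_sqrt {K E : Type u} [Field K] [Field E] [Algebra K E] (h2 : (2 : K) ≠ 0)
    (hfin : finrank K E = 2) :
    ∃ (a : Kˣ) (α : E), α ^ 2 = algebraMap K E a ∧ ¬ ∃ t : K, (a : K) = t ^ 2 := by
  have hfd : FiniteDimensional K E := FiniteDimensional.of_finrank_pos (by rw [hfin]; norm_num)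
  have hex : ∃ β : E, β ∉ (algebraMap K E).range := by
    by_contra hcon
    push Not at hcon
    have h1 : finrank K E ≤ 1 := by
      apply finrank_le_one (1 : E)
      intro w
      obtain ⟨c, hc⟩ := hcon w
      exact ⟨c, by rw [← hc, Algebra.algebraMap_eq_smul_one]⟩
    omega
  obtain ⟨β, hβ⟩ := hex
  have hint : IsIntegral K β := IsIntegral.of_finite K β
  have hdeg2 : (minpoly K β).natDegree ≤ 2 := by
    rw [← hfin]
    exact minpoly.natDegree_le β
  have hdeg1 : (minpoly K β).natDegree ≠ 1 := by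
    intro h
    exact hβ (minpoly.natDegree_eq_one_iff.1 h)
  have hdeg0 : 0 < (minpoly K β).natDegree := minpoly.natDegree_pos hint
  have hdeg : (minpoly K β).natDegree = 2 := by omega
  have hlead : (minpoly K β).coeff 2 = 1 := by
    rw [← hdeg]
    exact minpoly.monic hint
  have hroot := minpoly.aeval K β
  rw [Polynomial.aeval_eq_sum_range, hdeg, Finset.sum_range_succ, Finset.sum_range_succ,
    Finset.sum_range_succ, Finset.sum_range_zero, hlead] at hroot
  set p := (minpoly K β).coeff 1 with hp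
  set q := (minpoly K β).coeff 0 with hq
  have h2E : (2 : E) ≠ 0 := by
    intro h
    apply h2
    apply (algebraMap K E).injective
    rw [map_ofNat, h, map_zero]
  have hroot' : β ^ 2 + algebraMap K E p * β + algebraMap K E q = 0 := by
    rw [← hroot]
    simp only [Algebra.smul_def, map_one]
    ring
  have hα : (β + algebraMap K E p / 2) ^ 2 = algebraMap K E (p ^ 2 / 4 - q) := by
    rw [map_sub, map_div₀, map_pow, map_ofNat]
    have h4 : (4 : E) = 2 * 2 := by norm_num
    rw [h4]
    field_simp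
    linear_combination 4 * hroot'
  have hns : ¬ ∃ t : K, p ^ 2 / 4 - q = t ^ 2 := by
    rintro ⟨t, ht⟩
    rw [ht, map_pow] at hα
    apply hβ
    rcases sq_eq_sq_iff_eq_or_eq_neg.1 hα with h | h
    · exact ⟨t - p / 2, by rw [map_sub, map_div₀, map_ofNat]; linear_combination -h⟩
    · exact ⟨-t - p / 2, by rw [map_sub, map_div₀, map_neg, map_ofNat]; linear_combination -h⟩
  have hne : p ^ 2 / 4 - q ≠ 0 := fun h => hns ⟨0, by rw [h]; ring⟩
  exact ⟨Units.mk0 _ hne, _, hα, hns⟩

end Pool.Agent.KRad
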