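import Pool.Agent.KRad.GoUp

/-!
# Going down
-/

namespace Pool.Agent.KRad

open Pool.Agent.Hhelper2 Pool.Agent.Hhelper2.QuadExt Pool.Agent.Hhelper2.Tower Additive Module
open Pool.Agent.Hhelper2.FieldAx

universe u

/-- If `-1` is a square then blocks have dimension at least two. -/
theorem exists_other {K : Type u} [Field K] (h2 : (2 : K) ≠ 0) [Finite (SqClass K)]
    (he : sqClass (-1 : Kˣ) = 1) (hR : ∀ x : VV K, sv K x = 0 → x = 0)
    {A W : Submodule (ZMod 2) (VV K)} (hsup : A ⊔ W = ⊤)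
    (hAW : ∀ x ∈ A, ∀ w ∈ W, sv K (x + w) = sv K x + sv K w) {x : VV K} (hxA : x ∈ A)
    (hx : x ≠ 0) (a : VV K) : ∃ z ∈ A, z ≠ 0 ∧ z ≠ a := by
  by_contra hcon
  push Not at hcon
  obtain ⟨Q, _, _, _, β, hβ, symm, -⟩ := exists_symbol K h2
  have hxa : x = a := hcon x hxA hx
  have hA : ∀ z ∈ A, z = 0 ∨ z = x := by
    intro z hz
    by_cases h : z = 0
    · exact Or.inl h
    · exact Or.inr ((hcon z hz h).trans hxa.symm)
  have hxx : β x x = 0 := by
    rw [hβ]
    have h3 := (QStr.ofField_axioms K h2).neg (toMul x)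
    have h4 : FieldSplit K (toMul x) (sqClass (-1) * toMul x) := h3
    rw [he, one_mul] at h4
    exact h4
  apply hx
  apply hR
  rw [sv_eq_zero_iff h2]
  intro y
  rw [← hβ]
  obtain ⟨z, hz, w, hw, rfl⟩ := Submodule.mem_sup.1
    (show y ∈ A ⊔ W by rw [hsup]; exact Submodule.mem_top)
  have h3 : β x w = 0 := beta_of_indep hβ symm (hAW x hxA w hw)
  rw [map_add, h3, add_zero]
  rcases hA z hz with h | h
  · rw [h, map_zero]
  · rw [h, hxx]

/-- If a quadratic extension has no independent pairs and `-1` is a square, then the base field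
has no independent pairs. -/
theorem goDown {K E : Type u} [Field K] [Field E] {a : SqClass K} (q : QL K E a)
    (h2 : (2 : K) ≠ 0) [Finite (SqClass K)] (he : sqClass (-1 : Kˣ) = 1) (hE : Conn E) :
    Conn K := by
  have := finite_ext q.toQE
  -- the radical
  have hR : ∀ x : VV K, sv K x = 0 → x = 0 := by
    intro x hx
    obtain ⟨z, hz, hzx⟩ := rn h2 q x ((sv_eq_zero_iff h2 x).1 hx)
    have h3 : z = 0 := hE.radical q.two_ne ((sv_eq_zero_iff q.two_ne z).2 hz)
    rw [← hzx, h3, map_zero]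
  intro x y hxy
  by_contra hcon
  push Not at hcon
  obtain ⟨hx0, hy0⟩ := hcon
  obtain ⟨μ, hμ⟩ := isCut_sv (K := K) h2
  obtain ⟨A, W, hxA, hyW, hsup, hinf, hAW⟩ := exists_splitting (sv K) ⟨μ, hμ⟩
    (fun m w b => split5 K h2 m w b) x y hxy
  have hWA : ∀ w ∈ W, ∀ z ∈ A, sv K (w + z) = sv K w + sv K z := by
    intro w hw z hz
    rw [add_comm, hAW z hz w hw, add_comm]
  obtain ⟨a₁, ha₁, a₂, ha₂, haa⟩ := Submodule.mem_sup.1
    (show (ofMul a : VV K) ∈ A ⊔ W by rw [hsup]; exact Submodule.mem_top)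
  obtain ⟨z, hzA, hz0, hza⟩ := exists_other h2 he hR hsup hAW hxA hx0 a₁
  obtain ⟨w, hwW, hw0, hwa⟩ := exists_other h2 he hR (by rw [sup_comm]; exact hsup) hWA hyW hy0 a₂
  have s1 := sv_step h2 q.toQE z
  have s2 := sv_step h2 q.toQE w
  have s3 := sv_step h2 q.toQE (z + w)
  rw [map_add] at s3
  have e1 : z + (a₁ + a₂) = (z + a₁) + a₂ := by abel
  have e2 : w + (a₁ + a₂) = a₁ + (w + a₂) := by abel
  have e3 : z + w + (a₁ + a₂) = (z + a₁) + (w + a₂) := by abel
  have t0 := hAW a₁ ha₁ a₂ ha₂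
  have t1 := hAW (z + a₁) (A.add_mem hzA ha₁) a₂ ha₂
  have t2 := hAW a₁ ha₁ (w + a₂) (W.add_mem hwW ha₂)
  have t3 := hAW (z + a₁) (A.add_mem hzA ha₁) (w + a₂) (W.add_mem hwW ha₂)
  have t4 := hAW z hzA w hwW
  rw [← haa, e1] at s1
  rw [← haa, e2] at s2
  rw [← haa, e3] at s3
  rcases hE (lin q.toQE.res z) (lin q.toQE.res w) (by omega) with h | h
  · rcases (q.res_one (toMul z)).1 h with h3 | h3
    · exact hz0 h3
    · have h4 : z = a₁ + a₂ := by rw [haa]; exact h3
      have h5 : a₂ ∈ A := by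
        have : a₂ = a₁ + z := by rw [h4, ← add_assoc, Codim.add_self, zero_add]
        rw [this]
        exact A.add_mem ha₁ hzA
      have h6 : a₂ = 0 := hR a₂ ((hinf a₂).1 ⟨h5, ha₂⟩)
      exact hza (by rw [h4, h6, add_zero])
  · rcases (q.res_one (toMul w)).1 h with h3 | h3
    · exact hw0 h3
    · have h4 : w = a₁ + a₂ := by rw [haa]; exact h3
      have h5 : a₁ ∈ W := by
        have : a₁ = w + a₂ := by rw [h4, add_assoc, Codim.add_self, add_zero]
        rw [this]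
        exact W.add_mem hwW ha₂
      have h6 : a₁ = 0 := hR a₁ ((hinf a₁).1 ⟨ha₁, h5⟩)
      exact hwa (by rw [h4, h6, zero_add])

end Pool.Agent.KRad
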