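import Pool.Agent.KRad.GoDown

/-!
# Indecomposable structures and towers of quadratic extensions
-/

namespace Pool.Agent.KRad

open Pool.Agent.Hhelper2 Pool.Agent.Hhelper2.QuadExt Pool.Agent.Hhelper2.Tower Additive Module
open Pool.Agent.Hhelper2.FieldAx

universe u

/-- No class other than `1` is split with all classes, and the structure is not a product of two
nontrivial structures. -/
def IsPrimeStr (S : QStr.{u}) : Prop :=
  (∀ a : S.G, (∀ c, S.Split a c) → a = 1) ∧
  ∀ S₁ S₂ : QStr.{u}, Nonempty (S.Iso (S₁.prod S₂)) → Subsingleton S₁.G ∨ Subsingleton S₂.G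

theorem conn_iff (K : Type u) [Field K] (h2 : (2 : K) ≠ 0) [hf : Finite (SqClass K)] :
    Conn K ↔ IsPrimeStr (QStr.ofField K) := by
  constructor
  · intro hK
    refine ⟨fun a ha => hK.radical h2 ((sv_eq_zero_iff h2 (ofMul a)).2 (fun y => ha (toMul y))), ?_⟩
    rintro S T ⟨f⟩
    by_contra hcon
    push Not at hcon
    obtain ⟨hS, hT⟩ := hcon
    obtain ⟨x, hx⟩ := exists_ne (1 : S.G)
    obtain ⟨y, hy⟩ := exists_ne (1 : T.G)
    set a : SqClass K := f.e.symm (x, 1) with ha
    set b : SqClass K := f.e.symm (1, y) with hb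
    have ea : f.e a = (x, 1) := f.e.apply_symm_apply _
    have eb : f.e b = (1, y) := f.e.apply_symm_apply _
    have ha1 : a ≠ 1 := by
      intro h
      have h3 : f.e a = 1 := by rw [h]; exact map_one _
      rw [ea] at h3
      exact hx (congrArg Prod.fst h3)
    have hb1 : b ≠ 1 := by
      intro h
      have h3 : f.e b = 1 := by rw [h]; exact map_one _
      rw [eb] at h3
      exact hy (congrArg Prod.snd h3)
    have hbr : ¬ ∀ c, FieldSplit K b c := by
      intro h
      exact hb1 (hK.radical h2 ((sv_eq_zero_iff h2 (ofMul b)).2 (fun y => h (toMul y))))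
    have h3 := (indep_prod K h2 hf a b hbr).2 ⟨S, T, f, by rw [ea], by rw [eb]⟩
    have h4 := (card_iff h2 (ofMul a) (ofMul b)).1 h3
    rcases hK _ _ h4 with h5 | h5
    · exact ha1 h5
    · exact hb1 h5
  · rintro ⟨hR, hprod⟩ x y hxy
    by_contra hcon
    push Not at hcon
    obtain ⟨hx, hy⟩ := hcon
    have hbr : ¬ ∀ c, FieldSplit K (toMul y) c := fun h => hy (hR (toMul y) h)
    obtain ⟨S, T, f, h3, h4⟩ := (indep_prod K h2 hf (toMul x) (toMul y) hbr).1
      ((card_iff h2 x y).2 hxy)
    rcases hprod S T ⟨f⟩ with h5 | h5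
    · apply hx
      have h6 : f.e (toMul x) = 1 := Prod.ext (Subsingleton.elim _ _) h3
      have h7 : (toMul x : SqClass K) = 1 := f.e.injective (h6.trans (map_one f.e).symm)
      exact h7
    · apply hy
      have h6 : f.e (toMul y) = 1 := Prod.ext h4 (Subsingleton.elim _ _)
      have h7 : (toMul y : SqClass K) = 1 := f.e.injective (h6.trans (map_one f.e).symm)
      exact h7

/-- `E` is obtained from `F` by finitely many successive quadratic extensions. -/
inductive QuadTower (F : Type u) [Field F] : (E : Type u) → [Field E] → Prop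
  | base : QuadTower F F
  | step (K E : Type u) [Field K] [Field E] [Algebra K E] (hK : QuadTower F K)
      (hE : finrank K E = 2) : QuadTower F E

theorem goDown_field {K E : Type u} [Field K] [Field E] [Algebra K E] (h2 : (2 : K) ≠ 0)
    [Finite (SqClass K)] (he : sqClass (-1 : Kˣ) = 1) (hfin : finrank K E = 2) (hE : Conn E) :
    Conn K := by
  obtain ⟨a, α, hα, hns⟩ := exists_sqrt (K := K) (E := E) h2 hfin
  obtain ⟨q, -, -⟩ := exists_QS h2 hfin a α hα hns
  exact goDown q.toQL h2 he hE

theorem quadTower (F : Type u) [Field F] (h2 : (2 : F) ≠ 0) (hf : Finite (SqClass F))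
    (E : Type u) [Field E] (h : QuadTower F E) :
    (2 : E) ≠ 0 ∧ Finite (SqClass E) ∧ (Conn F → Conn E) ∧
      ((∃ i : F, i ^ 2 = -1) → (∃ i : E, i ^ 2 = -1) ∧ (Conn E → Conn F)) := by
  induction h with
  | base => exact ⟨h2, hf, id, fun hi => ⟨hi, id⟩⟩
  | step K E hK hfin ih =>
    obtain ⟨i1, i2, i3, i4⟩ := ih
    obtain ⟨a, α, hα, hns⟩ := exists_sqrt (K := K) (E := E) i1 hfin
    obtain ⟨q, -, -⟩ := exists_QS i1 hfin a α hα hns
    refine ⟨q.two_ne, finite_ext q.toQE, ?_, ?_⟩
    · intro hF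
      exact (goUp_field i1 hfin (i3 hF)).1
    · intro hi
      obtain ⟨⟨i, hi'⟩, i5⟩ := i4 hi
      refine ⟨⟨algebraMap K E i, by rw [← map_pow, hi', map_neg, map_one]⟩, fun hE => i5 ?_⟩
      refine goDown_field i1 ?_ hfin hE
      rw [one_iff]
      exact ⟨i, by rw [hi']; simp⟩

end Pool.Agent.KRad
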