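import Pool.Agent.KRad.GoUpC

/-!
# Going up
-/

namespace Pool.Agent.KRad

open Pool.Agent.Hhelper2 Pool.Agent.Hhelper2.QuadExt Pool.Agent.Hhelper2.Tower Additive Module
open Pool.Agent.Hhelper2.FieldAx

universe u

/-- If the base field has no independent pairs, then neither has a quadratic extension. -/
theorem goUp {K E : Type u} [Field K] [Field E] {a : SqClass K} (q : QS K E a)
    (h2 : (2 : K) ≠ 0) [Finite (SqClass K)] (hK : Conn K) (ha : a ≠ 1) : Conn E := by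
  by_contra hE
  have := finite_ext q.toQE
  obtain ⟨u₁, u₂, h₁, h₃, hs⟩ := stepA q h2 hK ha hE
  have n₁ : u₁ ≠ 0 := fun h => h₁ ((res_eq_zero q _).2 (Or.inl h))
  have n₁' : u₁ ≠ ofMul a := fun h => h₁ ((res_eq_zero q _).2 (Or.inr h))
  have n₃ : u₂ ≠ 0 := fun h => h₃ ((res_eq_zero q _).2 (Or.inl h))
  have n₃' : u₂ ≠ ofMul a := fun h => h₃ ((res_eq_zero q _).2 (Or.inr h))
  have key : lin q.res (u₁ + u₂) ≠ 0 := by
    intro h
    rw [map_add] at h
    have h4 : lin q.res u₁ = lin q.res u₂ := Codim.eq_of_add_eq_zero h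
    rw [h, sv_zero q.two_ne, ← h4] at hs
    exact h₁ (rad_ext h2 hK q.toQL _ (by omega))
  have n₄ : u₁ + u₂ ≠ 0 := fun h => key ((res_eq_zero q _).2 (Or.inl h))
  have n₄' : u₁ + u₂ ≠ ofMul a := fun h => key ((res_eq_zero q _).2 (Or.inr h))
  have s1 := sv_step h2 q.toQE u₁
  have s2 := sv_step h2 q.toQE u₂
  have s3 := sv_step h2 q.toQE (u₁ + u₂)
  rw [map_add] at s3
  apply stepB h2 hK a (toMul (u₁ + u₂)) (toMul u₁) ha n₄ n₁ (fun h => n₄' h.symm)
    (fun h => n₁' h.symm) (fun h => n₃ (add_left_cancel (a := u₁) (by rw [add_zero]; exact h)))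
    (fun h => n₃' (by
      have h4 : ofMul a + (u₁ + u₂) = u₁ := h
      have h5 : ofMul a + (u₁ + u₂) + u₁ = 0 := by rw [h4, Codim.add_self]
      have h6 : u₂ + ofMul a + (u₁ + u₁) = 0 := by rw [← h5]; abel
      rw [Codim.add_self, add_zero] at h6
      exact Codim.eq_of_add_eq_zero h6))
  rw [ofMul_toMul, ofMul_toMul]
  have e1 : u₁ + (u₁ + u₂) = u₂ := by rw [← add_assoc, Codim.add_self, zero_add]
  have e2 : u₁ + ofMul a + (u₁ + u₂) = u₂ + ofMul a := by
    have : u₁ + ofMul a + (u₁ + u₂) = (u₁ + u₁) + (u₂ + ofMul a) := by abel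
    rw [this, Codim.add_self, zero_add]
  have e3 : ofMul a + (u₁ + u₂) = u₁ + u₂ + ofMul a := add_comm _ _
  rw [e1, e2, e3]
  have s1' : sv E (lin q.res u₁) + sv K (ofMul a) = sv K u₁ + sv K (u₁ + ofMul a) := s1
  have s2' : sv E (lin q.res u₂) + sv K (ofMul a) = sv K u₂ + sv K (u₂ + ofMul a) := s2
  have s3' : sv E (lin q.res u₁ + lin q.res u₂) + sv K (ofMul a) =
    sv K (u₁ + u₂) + sv K (u₁ + u₂ + ofMul a) := s3
  omega

/-- Going up for quadratic extensions of fields. -/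
theorem goUp_field {K E : Type u} [Field K] [Field E] [Algebra K E] (h2 : (2 : K) ≠ 0)
    [Finite (SqClass K)] (hfin : finrank K E = 2) (hK : Conn K) :
    Conn E ∧ (2 : E) ≠ 0 ∧ Finite (SqClass E) := by
  obtain ⟨a, α, hα, hns⟩ := exists_sqrt (K := K) (E := E) h2 hfin
  obtain ⟨q, -, -⟩ := exists_QS h2 hfin a α hα hns
  exact ⟨goUp q h2 hK (fun h => hns ((one_iff a).1 h)), q.two_ne, finite_ext q.toQE⟩

end Pool.Agent.KRad
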