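import Pool.Agent.KRad.QS
import Pool.Agent.KRad.Final

/-!
# Going up: from independent classes in a quadratic extension to classes of the base field
-/

namespace Pool.Agent.KRad

open Pool.Agent.Hhelper2 Pool.Agent.Hhelper2.QuadExt Pool.Agent.Hhelper2.Tower Additive Module

universe u

/-- There are no independent pairs of nonzero classes (in particular, no nonzero radical
classes). -/
def Conn (K : Type u) [Field K] : Prop :=
  ∀ x y : VV K, sv K (x + y) = sv K x + sv K y → x = 0 ∨ y = 0

theorem Conn.radical {K : Type u} [Field K] (h2 : (2 : K) ≠ 0) [Finite (SqClass K)]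
    (hK : Conn K) {x : VV K} (hx : sv K x = 0) : x = 0 := by
  have h := hK x x (by rw [Codim.add_self, sv_zero h2, hx])
  tauto

/-- Subadditivity. -/
theorem sv_add_le {K : Type u} [Field K] (h2 : (2 : K) ≠ 0) [Finite (SqClass K)] (x y : VV K) :
    sv K (x + y) ≤ sv K x + sv K y := by
  obtain ⟨Q, _, _, _, β, hβ, -, -⟩ := exists_symbol K h2
  have hx : Finite (LinearMap.range (β x)) := Set.Finite.to_subtype (Set.toFinite (Set.range (β x)))
  have hy : Finite (LinearMap.range (β y)) := Set.Finite.to_subtype (Set.toFinite (Set.range (β y)))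
  rw [sv_eq_finrank_range β hβ, sv_eq_finrank_range β hβ, sv_eq_finrank_range β hβ]
  have h4 := Submodule.finrank_sup_add_finrank_inf_eq (LinearMap.range (β x)) (LinearMap.range (β y))
  have h5 : LinearMap.range (β (x + y)) ≤ LinearMap.range (β x) ⊔ LinearMap.range (β y) := by
    rintro _ ⟨z, rfl⟩
    rw [map_add, LinearMap.add_apply]
    exact Submodule.add_mem_sup ⟨z, rfl⟩ ⟨z, rfl⟩
  have h6 := Submodule.finrank_mono h5
  omega

/-- Radical classes of a quadratic extension. -/
theorem rad_ext {K E : Type u} [Field K] [Field E] {a : SqClass K} (h2 : (2 : K) ≠ 0)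
    [Finite (SqClass K)] (hK : Conn K) (q : QL K E a) (z : VV E) (hz : sv E z = 0) : z = 0 := by
  have := finite_ext q.toQE
  have h1 : sv K (lin q.nm z) = 0 :=
    (sv_eq_zero_iff h2 _).2 (nm_radical h2 q z ((sv_eq_zero_iff q.two_ne z).1 hz))
  have h3 : lin q.nm z = 0 := hK.radical h2 h1
  obtain ⟨x, hx⟩ := q.ker_nm (toMul z) h3
  have hx' : z = lin q.res (ofMul x) := hx
  have h4 := sv_step h2 q.toQE (ofMul x)
  rw [← hx', hz, zero_add] at h4
  have h5 : ofMul x + (ofMul x + ofMul a) = ofMul a := by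
    rw [← add_assoc, Codim.add_self, zero_add]
  rcases hK (ofMul x) (ofMul x + ofMul a) (by rw [h5, h4]) with h6 | h6
  · rw [hx', h6, map_zero]
  · have h7 : (ofMul x : VV K) = ofMul a := Codim.eq_of_add_eq_zero h6
    rw [hx', h7]
    exact (q.res_one a).2 (Or.inr rfl)

section stepA

variable {K E : Type u} [Field K] [Field E] {a : SqClass K} (q : QS K E a)

theorem sg_sp {x y : VV E} (h : Sp E x y) : Sp E (lin q.sg x) (lin q.sg y) :=
  q.sg_split _ _ h

theorem sg_sg' (x : VV E) : lin q.sg (lin q.sg x) = x := q.sg_sg (toMul x)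

theorem sg_res' (x : VV K) : lin q.sg (lin q.res x) = lin q.res x := q.sg_res (toMul x)

theorem res_nm' (x : VV E) : lin q.res (lin q.nm x) = x + lin q.sg x := q.res_nm (toMul x)

theorem res_eq_zero (x : VV K) : lin q.res x = 0 ↔ x = 0 ∨ x = ofMul a := q.res_one (toMul x)

/-- The automorphism preserves the rank function. -/
theorem sv_sg [Finite (SqClass E)] (x : VV E) : sv E (lin q.sg x) = sv E x := by
  have h : dg E (lin q.sg x) = dg E x := by
    apply Nat.card_congr
    exact
      { toFun := fun y => ⟨lin q.sg y.1, by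
          have := sg_sp q y.2
          rwa [sg_sg'] at this⟩
        invFun := fun y => ⟨lin q.sg y.1, sg_sp q y.2⟩
        left_inv := fun y => Subtype.ext (sg_sg' q _)
        right_inv := fun y => Subtype.ext (sg_sg' q _) }
  unfold sv
  rw [h]

variable [Finite (SqClass K)]

/-- A nonzero class is not independent of its conjugate. -/
theorem conj_indep (h2 : (2 : K) ≠ 0) (hK : Conn K) (ha : a ≠ 1) (x : VV E)
    (h : sv E (x + lin q.sg x) = sv E x + sv E (lin q.sg x)) : x = 0 := by
  have := finite_ext q.toQE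
  obtain ⟨Q, _, _, _, β, hβ, symm, -⟩ := exists_symbol K h2
  obtain ⟨QE', _, _, _, βE, hβE, symmE, -⟩ := exists_symbol E q.two_ne
  set n := lin q.nm x with hn
  -- values on classes of the base field
  have h1 : ∀ v : VV K, βE x (lin q.res v) = 0 ↔ β n v = 0 := by
    intro v
    constructor
    · intro h3
      rw [symmE, hβE] at h3
      rw [symm, hβ]
      exact q.proj _ _ h3
    · intro h3
      rw [symm, hβ] at h3
      obtain ⟨t, ht⟩ := q.principle (toMul v) (toMul x) h3
      have h4 : Sp E (lin q.res v) (x + lin q.res (ofMul t)) := ht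
      have h5 := sg_sp q h4
      rw [map_add, sg_res', sg_res'] at h5
      rw [← hβE, map_add] at h4 h5
      have h6 : βE (lin q.res v) x = βE (lin q.res v) (lin q.sg x) := by
        rw [Codim.eq_of_add_eq_zero h4, Codim.eq_of_add_eq_zero h5]
      have h7 := disjoint_range hβE h
      rw [Submodule.disjoint_def] at h7
      exact h7 _ ⟨lin q.res v, rfl⟩ ⟨lin q.res v, by rw [symmE, ← h6, symmE]⟩
  -- all values come from the base field
  obtain ⟨μ, hμ⟩ := isCut_sv (K := E) q.two_ne
  obtain ⟨A, W, hxA, hxW, hsup, -, hAW⟩ := exists_splitting (sv E) ⟨μ, hμ⟩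
    (fun m w b => split5 E q.two_ne m w b) x (lin q.sg x) h
  have h3 : ∀ y : VV E, ∃ v : VV K, βE x y = βE x (lin q.res v) := by
    intro y
    obtain ⟨y₁, hy₁, y₂, hy₂, rfl⟩ := Submodule.mem_sup.1
      (show y ∈ A ⊔ W by rw [hsup]; exact Submodule.mem_top)
    refine ⟨lin q.nm y₁, ?_⟩
    have e1 : βE x y₂ = 0 := beta_of_indep hβE symmE (hAW x hxA y₂ hy₂)
    have e2 : βE y₁ (lin q.sg x) = 0 := beta_of_indep hβE symmE (hAW y₁ hy₁ _ hxW)
    have e3 : βE x (lin q.sg y₁) = 0 := by
      rw [symmE, hβE]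
      have := sg_sp q ((hβE _ _).1 e2)
      rwa [sg_sg'] at this
    rw [res_nm', map_add, map_add, e1, e3]
  have h4 : sv E x = sv K n := by
    rw [sv_eq_finrank_range βE hβE]
    have h5 : LinearMap.range (βE x) = LinearMap.range ((βE x).comp (lin q.res)) := by
      apply le_antisymm
      · rintro _ ⟨y, rfl⟩
        obtain ⟨v, hv⟩ := h3 y
        exact ⟨v, hv.symm⟩
      · rintro _ ⟨v, rfl⟩
        exact ⟨lin q.res v, rfl⟩
    have h6 : LinearMap.ker ((βE x).comp (lin q.res)) = LinearMap.ker (β n) := by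
      ext v
      rw [LinearMap.mem_ker, LinearMap.mem_ker, LinearMap.comp_apply]
      exact h1 v
    have h7 := LinearMap.finrank_range_add_finrank_ker ((βE x).comp (lin q.res))
    have h8 := sv_add_finrank_ker β hβ n
    rw [h5]
    rw [h6] at h7
    have h7' : finrank (ZMod 2) (LinearMap.range ((βE x).comp (lin q.res))) +
      finrank (ZMod 2) (LinearMap.ker (β n)) = finrank (ZMod 2) (VV K) := h7
    omega
  have h5 : sv E (lin q.res n) = 2 * sv K n := by
    rw [hn, res_nm', h, sv_sg, h4]
    ring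
  have h6 := sv_step h2 q.toQE n
  have h7 : sv K (n + ofMul a) = sv K n + sv K (ofMul a) := by
    have e : sv E (lin q.toQE.res n) = 2 * sv K n := h5
    omega
  rcases hK _ _ h7 with h8 | h8
  · apply rad_ext h2 hK q.toQL
    rw [h4, h8, sv_zero h2]
  · exact absurd h8 ha

/-- Direct decompositions into independent parts are stable under the automorphism. -/
theorem stable (h2 : (2 : K) ≠ 0) (hK : Conn K) (ha : a ≠ 1) {A W : Submodule (ZMod 2) (VV E)}
    (hsup : A ⊔ W = ⊤) (hAW : ∀ x ∈ A, ∀ w ∈ W, sv E (x + w) = sv E x + sv E w) {x : VV E}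
    (hx : x ∈ A) : lin q.sg x ∈ A := by
  have := finite_ext q.toQE
  obtain ⟨a', ha', w', hw', h⟩ := Submodule.mem_sup.1
    (show lin q.sg x ∈ A ⊔ W by rw [hsup]; exact Submodule.mem_top)
  have h1 : x = lin q.sg a' + lin q.sg w' := by
    rw [← map_add, h, sg_sg']
  have h3 : sv E x = sv E (lin q.sg a') + sv E (lin q.sg w') := by
    rw [sv_sg, sv_sg, ← hAW a' ha' w' hw', h, sv_sg]
  have h4 : w' = 0 := by
    have h5 : lin q.sg w' = 0 := by
      apply conj_indep q h2 hK ha
      rw [sg_sg']
      apply le_antisymm (sv_add_le q.two_ne _ _)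
      have h6 := hAW x hx w' hw'
      have h7 := sv_add_le q.two_ne (lin q.sg a') (lin q.sg w' + w')
      rw [← add_assoc, ← h1, h6, h3] at h7
      omega
    have h6 := congrArg (lin q.sg) h5
    rwa [sg_sg', map_zero] at h6
  rw [← h, h4, add_zero]
  exact ha'

/-- Going up, first step. -/
theorem stepA (h2 : (2 : K) ≠ 0) (hK : Conn K) (ha : a ≠ 1) (hE : ¬ Conn E) :
    ∃ u₁ u₂ : VV K, lin q.res u₁ ≠ 0 ∧ lin q.res u₂ ≠ 0 ∧
      sv E (lin q.res u₁ + lin q.res u₂) = sv E (lin q.res u₁) + sv E (lin q.res u₂) := by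
  have := finite_ext q.toQE
  have hE' : ∃ x y : VV E, sv E (x + y) = sv E x + sv E y ∧ x ≠ 0 ∧ y ≠ 0 := by
    unfold Conn at hE
    push Not at hE
    exact hE
  obtain ⟨x, y, hxy, hx0, hy0⟩ := hE'
  obtain ⟨Q, _, _, _, β, hβ, symm, -⟩ := exists_symbol K h2
  obtain ⟨QE', _, _, _, βE, hβE, symmE, -⟩ := exists_symbol E q.two_ne
  obtain ⟨μ, hμ⟩ := isCut_sv (K := E) q.two_ne
  obtain ⟨A, W, hxA, hyW, hsup, hinf, hAW⟩ := exists_splitting (sv E) ⟨μ, hμ⟩
    (fun m w b => split5 E q.two_ne m w b) x y hxy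
  have hinf0 : ∀ z, z ∈ A → z ∈ W → z = 0 := fun z h1 h3 =>
    rad_ext h2 hK q.toQL z ((hinf z).1 ⟨h1, h3⟩)
  have hWA : ∀ w ∈ W, ∀ z ∈ A, sv E (w + z) = sv E w + sv E z := by
    intro w hw z hz
    rw [add_comm, hAW z hz w hw, add_comm]
  have stA : ∀ z ∈ A, lin q.sg z ∈ A := fun z hz => stable q h2 hK ha hsup hAW hz
  have stW : ∀ z ∈ W, lin q.sg z ∈ W := fun z hz =>
    stable q h2 hK ha (by rw [sup_comm]; exact hsup) hWA hz
  have orth : ∀ z ∈ A, ∀ w ∈ W, βE z w = 0 := fun z hz w hw =>
    beta_of_indep hβE symmE (hAW z hz w hw)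
  -- components of classes of the base field
  have hcomp : ∀ v : VV K, ∃ z ∈ A, ∃ w ∈ W, lin q.res v = z + w ∧ lin q.sg z = z ∧
      lin q.sg w = w := by
    intro v
    obtain ⟨z, hz, w, hw, h⟩ := Submodule.mem_sup.1
      (show lin q.res v ∈ A ⊔ W by rw [hsup]; exact Submodule.mem_top)
    have h1 : lin q.sg z + lin q.sg w = z + w := by rw [← map_add, h, sg_res']
    have h3 : lin q.sg z + z = lin q.sg w + w := by
      have : lin q.sg z + z + (lin q.sg w + w) = 0 := by
        have e : lin q.sg z + z + (lin q.sg w + w) = (lin q.sg z + lin q.sg w) + (z + w) := by abel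
        rw [e, h1, Codim.add_self]
      exact Codim.eq_of_add_eq_zero this
    have h4 : lin q.sg z + z = 0 := hinf0 _ (A.add_mem (stA z hz) hz) (by
      rw [h3]
      exact W.add_mem (stW w hw) hw)
    have h5 : lin q.sg w + w = 0 := by rw [← h3, h4]
    exact ⟨z, hz, w, hw, h.symm, Codim.eq_of_add_eq_zero h4, Codim.eq_of_add_eq_zero h5⟩
  have hN : ∀ z : VV E, lin q.sg z = z → lin q.nm z = 0 ∨ lin q.nm z = ofMul a := by
    intro z hz
    rw [← res_eq_zero q, res_nm', hz, Codim.add_self]
  have ker : ∀ z : VV E, lin q.nm z = 0 → ∃ v, z = lin q.res v := by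
    intro z hz
    obtain ⟨t, ht⟩ := q.ker_nm (toMul z) hz
    exact ⟨ofMul t, ht⟩
  have proj : ∀ (v : VV K) (z : VV E), βE z (lin q.res v) = 0 → β v (lin q.nm z) = 0 := by
    intro v z h
    rw [symmE, hβE] at h
    rw [hβ]
    exact q.proj _ _ h
  have hnmres : ∀ v : VV K, lin q.nm (lin q.res v) = 0 := fun v => q.nm_res (toMul v)
  set e : VV K := ofMul (sqClass (-1)) with he
  -- the components come from the base field
  have hA : ∀ v : VV K, ∀ z ∈ A, ∀ w ∈ W, lin q.res v = z + w → lin q.sg z = z →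
      lin q.sg w = w → lin q.nm z = 0 := by
    intro v z hz w hw hv hsz hsw
    by_contra hne
    have hza : lin q.nm z = ofMul a := (hN z hsz).resolve_left hne
    have hwa : ∀ v : VV K, ∀ z ∈ A, ∀ w ∈ W, lin q.res v = z + w → lin q.nm z = ofMul a →
        lin q.nm w = ofMul a := by
      intro v z _ w _ hv hza
      have h1 := hnmres v
      rw [hv, map_add, hza] at h1
      exact (Codim.eq_of_add_eq_zero h1).symm
    have haa : β (ofMul a) (ofMul a) = 0 := by
      rw [hβ]
      have := q.nm_split (toMul z)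
      have e1 : q.nm (toMul z) = a := hza
      rw [e1] at this
      exact this
    have hae : β (ofMul a) e = 0 := by
      have h1 : β (ofMul a) (e + ofMul a) = 0 := by
        rw [hβ]
        exact (QStr.ofField_axioms K h2).neg a
      rw [map_add, haa, add_zero] at h1
      exact h1
    -- classes whose components have norm `a`
    have key : ∀ v : VV K, ∀ z ∈ A, ∀ w ∈ W, lin q.res v = z + w → lin q.nm z = ofMul a →
        β v (ofMul a) = 0 := by
      intro v z hz w hw hv hza
      have h1 : βE z (lin q.res e + z) = 0 := by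
        rw [hβE]
        have h3 := (QStr.ofField_axioms E q.two_ne).neg (toMul z)
        have h4 : q.res (sqClass (-1)) = sqClass (-1) := q.res_neg
        have h5 : FieldSplit E (toMul z) (q.res (sqClass (-1)) * toMul z) := by
          rw [h4]
          exact h3
        exact h5
      have h3 : βE z (lin q.res (v + e)) = 0 := by
        rw [map_add, hv]
        have : z + w + lin q.res e = (lin q.res e + z) + w := by abel
        rw [this, map_add, h1, orth z hz w hw, add_zero]
      have h4 := proj _ _ h3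
      rw [hza, map_add, LinearMap.add_apply, symm e, hae, add_zero] at h4
      exact h4
    have hall : ∀ u : VV K, β (ofMul a) u = 0 := by
      intro u
      rw [symm]
      obtain ⟨z', hz', w', hw', hu, hsz', hsw'⟩ := hcomp u
      rcases hN z' hsz' with h1 | h1
      · have h3 : lin q.nm w' = 0 := by
          have h4 := hnmres u
          rw [hu, map_add, h1, zero_add] at h4
          exact h4
        obtain ⟨u₁, hu₁⟩ := ker z' h1
        obtain ⟨u₂, hu₂⟩ := ker w' h3
        have h4 : β u₁ (ofMul a) = 0 := by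
          have h5 := proj u₁ w (by rw [← hu₁, symmE]; exact orth z' hz' w hw)
          rwa [hwa v z hz w hw hv hza] at h5
        have h5 : β u₂ (ofMul a) = 0 := by
          have h6 := proj u₂ z (by rw [← hu₂]; exact orth z hz w' hw')
          rwa [hza] at h6
        have h6 : lin q.res (u + (u₁ + u₂)) = 0 := by
          rw [map_add, map_add, ← hu₁, ← hu₂, hu, Codim.add_self]
        rcases (res_eq_zero q _).1 h6 with h7 | h7
        · have h8 : u = u₁ + u₂ := Codim.eq_of_add_eq_zero h7
          rw [h8, map_add, LinearMap.add_apply, h4, h5, add_zero]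
        · have h8 : u = ofMul a + (u₁ + u₂) := by
            rw [← h7, add_assoc, Codim.add_self, add_zero]
          rw [h8, map_add, map_add, LinearMap.add_apply, LinearMap.add_apply, h4, h5, haa,
            add_zero, add_zero]
      · exact key u z' hz' w' hw' hu h1
    have h8 : sv K (ofMul a) = 0 := (sv_eq_zero_iff h2 _).2 (fun u => (hβ _ _).1 (hall u))
    exact ha (hK.radical h2 h8)
  -- existence of classes of the base field in `A` and in `W`
  have hex : ∀ (A W : Submodule (ZMod 2) (VV E)), (∀ z ∈ A, ∀ w ∈ W, βE z w = 0) →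
      (∀ z ∈ A, lin q.sg z ∈ A) →
      (∀ v : VV K, ∃ z ∈ A, ∃ w ∈ W, lin q.res v = z + w ∧ lin q.nm z = 0) →
      (∃ x ∈ A, x ≠ 0) → ∃ u : VV K, lin q.res u ∈ A ∧ lin q.res u ≠ 0 := by
    intro A W orth stA hcomp hx
    obtain ⟨x, hxA, hx0⟩ := hx
    by_contra hcon
    push Not at hcon
    have hW : ∀ v : VV K, lin q.res v ∈ W := by
      intro v
      obtain ⟨z, hz, w, hw, hv, hnz⟩ := hcomp v
      obtain ⟨u, hu⟩ := ker z hnz
      have h1 : z = 0 := by rw [hu]; exact hcon u (by rw [← hu]; exact hz)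
      rw [hv, h1, zero_add]
      exact hw
    have h1 : lin q.res (lin q.nm x) = 0 := by
      apply hcon
      rw [res_nm']
      exact A.add_mem hxA (stA x hxA)
    rcases (res_eq_zero q _).1 h1 with h3 | h3
    · obtain ⟨u, hu⟩ := ker x h3
      exact hx0 (by rw [hu]; exact hcon u (by rw [← hu]; exact hxA))
    · have hall : ∀ u : VV K, β (ofMul a) u = 0 := by
        intro u
        have h4 := proj u x (orth x hxA _ (hW u))
        rw [h3, symm] at h4
        exact h4
      have h8 : sv K (ofMul a) = 0 := (sv_eq_zero_iff h2 _).2 (fun u => (hβ _ _).1 (hall u))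
      exact ha (hK.radical h2 h8)
  obtain ⟨u₁, h1, h3⟩ := hex A W orth stA (fun v => by
    obtain ⟨z, hz, w, hw, hv, hsz, hsw⟩ := hcomp v
    exact ⟨z, hz, w, hw, hv, hA v z hz w hw hv hsz hsw⟩) ⟨x, hxA, hx0⟩
  obtain ⟨u₂, h4, h5⟩ := hex W A (fun w hw z hz => by rw [symmE]; exact orth z hz w hw) stW
    (fun v => by
      obtain ⟨z, hz, w, hw, hv, hsz, hsw⟩ := hcomp v
      refine ⟨w, hw, z, hz, by rw [hv, add_comm], ?_⟩
      have h6 := hnmres v
      rw [hv, map_add, hA v z hz w hw hv hsz hsw, zero_add] at h6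
      exact h6) ⟨y, hyW, hy0⟩
  exact ⟨u₁, u₂, h3, h5, hAW _ h1 _ h4⟩

end stepA

end Pool.Agent.KRad
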