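import Pool.Agent.KRad.Basic

/-!
# Module C: the covering lemma (no fields)
-/

namespace Pool.Agent.KRad

open Module

namespace LemmaP

/-- The sign character of `ZMod 2`. -/
noncomputable def e (t : ZMod 2) : ℝ := if t = 0 then 1 else -1

theorem e_zero : e 0 = 1 := by simp [e]

theorem e_one : e 1 = -1 := by simp [e]

theorem zmod_cases (t : ZMod 2) : t = 0 ∨ t = 1 := by
  revert t; decide

theorem e_add (a b : ZMod 2) : e (a + b) = e a * e b := by
  rcases zmod_cases a with rfl | rfl <;> rcases zmod_cases b with rfl | rfl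
  · simp [e]
  · simp [e]
  · simp [e]
  · have : (1 + 1 : ZMod 2) = 0 := by decide
    rw [this]; simp [e]

theorem e_sum {ι : Type*} (T : Finset ι) (f : ι → ZMod 2) : e (∑ i ∈ T, f i) = ∏ i ∈ T, e (f i) := by
  classical
  induction T using Finset.induction_on with
  | empty => simp [e_zero]
  | insert a T ha ih => rw [Finset.sum_insert ha, Finset.prod_insert ha, e_add, ih]

variable {V : Type*} [AddCommGroup V] [Module (ZMod 2) V]

/-- Orthogonality. -/
theorem sum_e [Fintype V] (φ : Dual (ZMod 2) V) (hφ : φ ≠ 0) : ∑ v : V, e (φ v) = 0 := by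
  obtain ⟨w, hw⟩ : ∃ w, φ w ≠ 0 := by
    by_contra hcon
    push Not at hcon
    exact hφ (LinearMap.ext hcon)
  have hw1 : φ w = 1 := (zmod_cases (φ w)).resolve_left hw
  have h1 : ∑ v : V, e (φ (w + v)) = ∑ v : V, e (φ v) :=
    Fintype.sum_equiv (Equiv.addLeft w) _ _ (fun v => rfl)
  have h2 : ∑ v : V, e (φ (w + v)) = - ∑ v : V, e (φ v) := by
    rw [← Finset.sum_neg_distrib]
    refine Finset.sum_congr rfl fun v _ => ?_
    rw [map_add, e_add, hw1, e_one]
    ring
  linarith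

end LemmaP

open LemmaP

variable {V : Type*} [AddCommGroup V] [Module (ZMod 2) V] [Finite V]

/-- Module C. If the sum of `2 ^ (-s)` over `y + A` is at least the sum over `A`, then `s` has a
zero in `y + A`. -/
theorem lemP {s : V → ℝ} (hs : IsCut s) (A : Submodule (ZMod 2) V) (y : V)
    (h : ∑ᶠ a : A, (2 : ℝ) ^ (-s (a : V)) ≤ ∑ᶠ a : A, (2 : ℝ) ^ (-s (y + (a : V)))) :
    ∃ a ∈ A, s (y + a) = 0 := by
  classical
  obtain ⟨μ, hμ, hs⟩ := hs
  have : Finite (Dual (ZMod 2) V) := DFunLike.finite _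
  let _ := Fintype.ofFinite (Dual (ZMod 2) V)
  let _ := Fintype.ofFinite V
  let _ := Fintype.ofFinite A
  have hs' : ∀ x, s x = ∑ χ : Dual (ZMod 2) V, if χ x = 1 then μ χ else 0 := fun x => by
    rw [hs x, finsum_eq_sum_of_fintype]
  rw [finsum_eq_sum_of_fintype, finsum_eq_sum_of_fintype] at h
  -- the coefficients
  set q : Dual (ZMod 2) V → ℝ := fun χ => (1 - (2 : ℝ) ^ (-μ χ)) / 2 with hq
  set p : Dual (ZMod 2) V → ℝ := fun χ => (1 + (2 : ℝ) ^ (-μ χ)) / 2 with hp
  have hp0 : ∀ χ, 0 < p χ := fun χ => by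
    have : (0 : ℝ) < (2 : ℝ) ^ (-μ χ) := by positivity
    simp only [hp]; linarith
  have hq0 : ∀ χ, 0 ≤ q χ := fun χ => by
    have : (2 : ℝ) ^ (-μ χ) ≤ 1 :=
      Real.rpow_le_one_of_one_le_of_nonpos (by norm_num) (neg_nonpos.2 (hμ χ))
    simp only [hq]; linarith
  have hq1 : ∀ χ, 0 < μ χ → 0 < q χ := fun χ h0 => by
    have : (2 : ℝ) ^ (-μ χ) < 1 :=
      Real.rpow_lt_one_of_one_lt_of_neg (by norm_num) (neg_lt_zero.2 h0)
    simp only [hq]; linarith
  set c : Finset (Dual (ZMod 2) V) → ℝ := fun T => (∏ χ ∈ T, q χ) * ∏ χ ∈ Finset.univ \ T, p χ with hc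
  have hc0 : ∀ T, 0 ≤ c T := fun T =>
    mul_nonneg (Finset.prod_nonneg fun χ _ => hq0 χ) (Finset.prod_nonneg fun χ _ => (hp0 χ).le)
  have hexp : ∀ z : V, (2 : ℝ) ^ (-s z) = ∑ T : Finset (Dual (ZMod 2) V), c T * e ((∑ χ ∈ T, χ) z) := by
    intro z
    rw [hs' z, ← Finset.sum_neg_distrib, Real.rpow_sum_of_pos (by norm_num : (0:ℝ) < 2)]
    have h1 : ∀ χ : Dual (ZMod 2) V, (2 : ℝ) ^ (-(if χ z = 1 then μ χ else 0)) = q χ * e (χ z) + p χ := by
      intro χ
      rcases zmod_cases (χ z) with h0 | h0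
      · rw [h0, e_zero]
        simp [hp, hq]; ring
      · rw [h0, e_one]
        simp [hp, hq]; ring
    simp only [h1]
    rw [Finset.prod_add, Finset.powerset_univ]
    refine Finset.sum_congr rfl fun T _ => ?_
    rw [Finset.prod_mul_distrib, LinearMap.sum_apply, e_sum, hc]
    ring
  have hdiff : ∑ a : A, (2 : ℝ) ^ (-s (a : V)) - ∑ a : A, (2 : ℝ) ^ (-s (y + (a : V)))
      = ∑ T : Finset (Dual (ZMod 2) V), c T * ((1 - e ((∑ χ ∈ T, χ) y)) *
        ∑ a : A, e ((∑ χ ∈ T, χ) (a : V))) := by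
    rw [← Finset.sum_sub_distrib]
    simp only [hexp, ← Finset.sum_sub_distrib, Finset.mul_sum]
    rw [Finset.sum_comm]
    refine Finset.sum_congr rfl fun T _ => Finset.sum_congr rfl fun a _ => ?_
    rw [map_add, e_add]
    ring
  -- every term is nonnegative
  have hterm : ∀ T : Finset (Dual (ZMod 2) V), 0 ≤ c T * ((1 - e ((∑ χ ∈ T, χ) y)) *
        ∑ a : A, e ((∑ χ ∈ T, χ) (a : V))) := by
    intro T
    refine mul_nonneg (hc0 T) (mul_nonneg ?_ ?_)
    · unfold e; split_ifs <;> norm_num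
    · by_cases h0 : (∑ χ ∈ T, χ : Dual (ZMod 2) V) ∘ₗ A.subtype = 0
      · refine Finset.sum_nonneg fun a _ => ?_
        have : (∑ χ ∈ T, χ : Dual (ZMod 2) V) (a : V) = 0 := LinearMap.congr_fun h0 a
        rw [this, e_zero]; norm_num
      · exact (sum_e _ h0).ge
  have hzero : ∀ T : Finset (Dual (ZMod 2) V), c T * ((1 - e ((∑ χ ∈ T, χ) y)) *
        ∑ a : A, e ((∑ χ ∈ T, χ) (a : V))) = 0 := by
    have h1 : ∑ T : Finset (Dual (ZMod 2) V), c T * ((1 - e ((∑ χ ∈ T, χ) y)) *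
        ∑ a : A, e ((∑ χ ∈ T, χ) (a : V))) = 0 :=
      le_antisymm (by rw [← hdiff]; linarith) (Finset.sum_nonneg fun T _ => hterm T)
    intro T
    exact (Finset.sum_eq_zero_iff_of_nonneg (fun T _ => hterm T)).1 h1 T (Finset.mem_univ T)
  -- duality
  by_contra hcon
  push Not at hcon
  let S := {χ : Dual (ZMod 2) V // 0 < μ χ}
  let Ψ : V →ₗ[ZMod 2] (S → ZMod 2) := LinearMap.pi fun χ => χ.1
  have hΨ : Ψ y ∉ A.map Ψ := by
    rintro ⟨a, ha, hay⟩
    refine hcon a ha ?_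
    rw [hs' (y + a)]
    refine Finset.sum_eq_zero fun χ _ => ?_
    rcases (hμ χ).eq_or_lt with h0 | h0
    · rw [← h0]; simp
    · have h1 : χ a = χ y := congrFun hay ⟨χ, h0⟩
      rw [map_add, h1]
      have h2 : χ y + χ y = 0 := CharTwo.add_self_eq_zero _
      rw [h2]
      simp
  obtain ⟨f, hf1, hf2⟩ := Submodule.exists_dual_map_eq_bot_of_notMem hΨ inferInstance
  let T : Finset (Dual (ZMod 2) V) := (Finset.univ.filter
    fun i : S => f (Pi.single i 1) = 1).map (Function.Embedding.subtype _)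
  have hT : ∀ z, (∑ χ ∈ T, χ) z = f (Ψ z) := by
    intro z
    have h1 : Ψ z = ∑ i : S, (i.1 z) • (Pi.single i (1 : ZMod 2) : S → ZMod 2) := by
      funext j
      rw [Finset.sum_apply, Finset.sum_eq_single j]
      · simp [Ψ]
      · intro b _ hb
        simp [hb.symm]
      · intro h0
        exact absurd (Finset.mem_univ j) h0
    rw [h1, map_sum, LinearMap.sum_apply, Finset.sum_map, Finset.sum_filter]
    refine Finset.sum_congr rfl fun i _ => ?_
    rw [map_smul, smul_eq_mul]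
    rcases zmod_cases (f (Pi.single i 1)) with h0 | h0
    · rw [h0]; simp
    · rw [h0]; simp
  have hTp : 0 < c T := by
    refine mul_pos (Finset.prod_pos fun χ hχ => ?_) (Finset.prod_pos fun χ _ => hp0 χ)
    obtain ⟨i, -, rfl⟩ := Finset.mem_map.1 hχ
    exact hq1 _ i.2
  have hTA : ∀ a : A, (∑ χ ∈ T, χ) (a : V) = 0 := by
    intro a
    rw [hT]
    have : f (Ψ a) ∈ (A.map Ψ).map f := Submodule.mem_map_of_mem (Submodule.mem_map_of_mem a.2)
    rw [hf2] at this
    exact (Submodule.mem_bot _).1 this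
  have hTy : (∑ χ ∈ T, χ) y = 1 := by
    rw [hT]
    exact (zmod_cases _).resolve_left hf1
  have := hzero T
  rw [hTy, e_one] at this
  simp only [hTA, e_zero] at this
  have hcard : (0 : ℝ) < ∑ _a : A, (1 : ℝ) := by
    simp [Fintype.card_pos]
  nlinarith [mul_pos hTp hcard]

end Pool.Agent.KRad
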