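import Pool.Agent.KRad.QL

/-!
# Module D1: the local lemma
-/

namespace Pool.Agent.KRad

open Pool.Agent.Hhelper2 Pool.Agent.Hhelper2.QuadExt Pool.Agent.Hhelper2.Tower Additive Module
open QuadraticAlgebra

universe u

/-- The imaginary part of `y α ^ 2` takes every value. -/
private theorem exists_im {K : Type u} [Field K] {a : K}
    (h2 : (2 : K) ≠ 0) {x : K} (hx : x ≠ 0) (hrad : ∀ z : K, ∃ p q : K, z = p ^ 2 - x * q ^ 2)
    {y1 y2 : K} {t : K} (ht : t ≠ 0) (hy : y1 ^ 2 - a * y2 ^ 2 = x * t ^ 2) (d : K) :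
    ∃ p q : K, y1 * (2 * p * q) + y2 * (p ^ 2 + a * q ^ 2) = d := by
  by_cases h : y2 = 0
  · have hy1 : y1 ≠ 0 := by
      rintro rfl
      subst h
      have : x * t ^ 2 ≠ 0 := mul_ne_zero hx (pow_ne_zero 2 ht)
      apply this
      rw [← hy]
      ring
    refine ⟨1, d / (2 * y1), ?_⟩
    subst h
    field_simp
    ring
  · obtain ⟨P, Q, hPQ⟩ := hrad (y2 * d)
    refine ⟨(P - y1 * (Q / t)) / y2, Q / t, ?_⟩
    have hk : y2 * (y1 * (2 * ((P - y1 * (Q / t)) / y2) * (Q / t)) +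
        y2 * (((P - y1 * (Q / t)) / y2) ^ 2 + a * (Q / t) ^ 2)) = y2 * d := by
      rw [hPQ]
      have e : x = (y1 ^ 2 - a * y2 ^ 2) / t ^ 2 := by
        rw [hy]
        field_simp
      rw [e]
      field_simp
      ring
    exact mul_left_cancel₀ h hk

/-- Module D1. Let `x` be such that `X ^ 2 - x Y ^ 2` represents every element of `K` and let
`y` be an element of `K(√a)` whose norm is `x` times a nonzero square. Then every nonzero `w` is
of the form `p ^ 2 - (y f) q ^ 2` with `f` in `K`, `f ≠ 0`. -/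
theorem local_lemma {K : Type u} [Field K] {a : K} [Fact (∀ r : K, r ^ 2 ≠ a + 0 * r)]
    (h2 : (2 : K) ≠ 0) {x : K} (hx : x ≠ 0) (hrad : ∀ z : K, ∃ p q : K, z = p ^ 2 - x * q ^ 2)
    {y : QuadraticAlgebra K a 0} {t : K} (ht : t ≠ 0) (hy : QuadraticAlgebra.norm y = x * t ^ 2)
    (w : QuadraticAlgebra K a 0) (hw : w ≠ 0) :
    ∃ f : K, f ≠ 0 ∧ ∃ p q : QuadraticAlgebra K a 0,
      w = p ^ 2 - (y * algebraMap K (QuadraticAlgebra K a 0) f) * q ^ 2 := by
  have hy' : y.re ^ 2 - a * y.im ^ 2 = x * t ^ 2 := by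
    rw [← hy, QuadraticAlgebra.norm_def]
    ring
  have hy0 : y ≠ 0 := by
    rintro rfl
    have : x * t ^ 2 ≠ 0 := mul_ne_zero hx (pow_ne_zero 2 ht)
    apply this
    rw [← hy']
    simp
  obtain ⟨p, q, hpq⟩ := exists_im h2 hx hrad ht hy' (y * w).im
  set α : QuadraticAlgebra K a 0 := ⟨p, q⟩ with hα
  have him : (y * (α ^ 2 - w)).im = 0 := by
    rw [mul_sub, QuadraticAlgebra.im_sub, ← hpq, hα, pow_two]
    simp only [QuadraticAlgebra.im_mul, QuadraticAlgebra.re_mul]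
    ring
  have halg : y * (α ^ 2 - w) = algebraMap K (QuadraticAlgebra K a 0) (y * (α ^ 2 - w)).re := by
    apply QuadraticAlgebra.ext
    · simp
    · simp [him]
  by_cases hc : (y * (α ^ 2 - w)).re = 0
  · refine ⟨1, one_ne_zero, α, 0, ?_⟩
    rw [hc, map_zero] at halg
    have := (mul_eq_zero.mp halg).resolve_left hy0
    rw [sub_eq_zero] at this
    rw [← this]
    ring
  · refine ⟨_, hc, α, y⁻¹, ?_⟩
    rw [← halg]
    field_simp
    ring

end Pool.Agent.KRad
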