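import Pool.Agent.KRad.Basic

/-!
# Quadratic extensions with the local lemma; genuine quadratic extensions
-/

namespace Pool.Agent.KRad

open Pool.Agent.Hhelper2 Pool.Agent.Hhelper2.QuadExt Pool.Agent.Hhelper2.Tower Additive Module

universe u

/-- The data of a quadratic extension, with the local lemma for classes whose norm is in the
Kaplansky radical. -/
structure QL (K E : Type u) [Field K] [Field E] (a : SqClass K) extends QE K E a where
  loc : ∀ y : SqClass E, (∀ z, FieldSplit K (nm y) z) →
    ∀ w : SqClass E, ∃ f : SqClass K, FieldSplit E (y * res f) w

/-- The restriction map on square classes of a field extension. -/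
noncomputable def gres (K E : Type u) [Field K] [Field E] [Algebra K E] : SqClass K →* SqClass E :=
  scMap (Units.map (algebraMap K E).toMonoidHom)

/-- The norm map on square classes of a finite extension. -/
noncomputable def gnm (K E : Type u) [Field K] [Field E] [Algebra K E] : SqClass E →* SqClass K :=
  scMap (Units.map (Algebra.norm K))

end Pool.Agent.KRad
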