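import Pool.Agent.KRad.Biquad

/-!
# Quadratic extensions with their automorphism
-/


namespace Pool.Agent.KRad

open Pool.Agent.Hhelper2 Pool.Agent.Hhelper2.QuadExt Pool.Agent.Hhelper2.Tower Additive Module
open Pool.Agent.Hhelper2.FieldAx

universe u

/-- The data of a quadratic extension, with the action of the automorphism on square classes. -/
structure QS (K E : Type u) [Field K] [Field E] (a : SqClass K) extends QL K E a where
  sg : SqClass E →* SqClass E
  sg_sg : ∀ x, sg (sg x) = x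
  sg_split : ∀ x y, FieldSplit E x y → FieldSplit E (sg x) (sg y)
  sg_res : ∀ x, sg (res x) = res x
  res_nm : ∀ x, res (nm x) = x * sg x
  res_neg : res (sqClass (-1)) = sqClass (-1)

/-- The nontrivial automorphism of a quadratic extension generated by a square root. -/
theorem exists_conj {K E : Type u} [Field K] [Field E] [Algebra K E]
    (hfin : finrank K E = 2) (a : K) (α : E) (hα : α ^ 2 = algebraMap K E a)
    (hns : ¬ ∃ t : K, a = t ^ 2) :
    ∃ σ : E ≃+* E, (∀ u v : K, σ (algebraMap K E u + algebraMap K E v * α) =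
      algebraMap K E u + algebraMap K E (-v) * α) ∧
      ∀ x : E, algebraMap K E (Algebra.norm K x) = x * σ x := by
  obtain ⟨φ, hφ⟩ := Genuine.exists_iso hfin a α hα hns
  have hfact : Fact (∀ r : K, r ^ 2 ≠ a + 0 * r) :=
    ⟨fun r hr => hns ⟨r, by rw [hr]; ring⟩⟩
  let φ' : QuadraticAlgebra K a 0 ≃+* E := φ.toRingEquiv
  let σ : E ≃+* E := (φ'.symm.trans (starRingAut (R := QuadraticAlgebra K a 0))).trans φ'
  have hσ : ∀ u v : K, σ (algebraMap K E u + algebraMap K E v * α) =
      algebraMap K E u + algebraMap K E (-v) * α := by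
    intro u v
    rw [← hφ, ← hφ]
    show φ (star (φ.symm (φ ⟨u, v⟩))) = _
    rw [AlgEquiv.symm_apply_apply]
    congr 1
    ext <;> simp
  refine ⟨σ, hσ, ?_⟩
  intro x
  obtain ⟨⟨u, v, huv⟩, h2⟩ := And.intro ((Biquad.coords hfin a α hα hns).1 x)
    (Biquad.coords hfin a α hα hns).2
  rw [huv, hσ, h2, map_sub, map_pow, map_mul, map_pow, ← hα, map_neg]
  ring

/-- Module T0. -/
theorem exists_QS {K E : Type u} [Field K] [Field E] [Algebra K E] (h2 : (2 : K) ≠ 0)
    (hfin : finrank K E = 2) (a : Kˣ) (α : E) (hα : α ^ 2 = algebraMap K E a)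
    (hns : ¬ ∃ t : K, (a : K) = t ^ 2) :
    ∃ q : QS K E (sqClass a), q.res = gres K E ∧ q.nm = gnm K E := by
  obtain ⟨q, hq1, hq2⟩ := exists_QL h2 hfin a α hα hns
  obtain ⟨σ, hσ, hn⟩ := exists_conj hfin (a : K) α hα hns
  have hfix : ∀ x : K, σ (algebraMap K E x) = algebraMap K E x := by
    intro x
    have := hσ x 0
    simpa using this
  refine ⟨⟨q, Genuine.up σ, ?_, ?_, ?_, ?_, ?_⟩, hq1, hq2⟩
  · intro x
    obtain ⟨x, rfl⟩ := exists_rep x
    rw [Genuine.up_mk, Genuine.up_mk]
    congr 1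
    ext
    show σ (σ (x : E)) = x
    obtain ⟨⟨u, v, huv⟩, -⟩ := And.intro ((Biquad.coords hfin (a : K) α hα hns).1 (x : E)) trivial
    rw [huv, hσ, hσ, neg_neg]
  · intro x y h
    exact Genuine.split_up σ h
  · intro x
    show Genuine.up σ (q.res x) = q.res x
    rw [hq1]
    obtain ⟨x, rfl⟩ := exists_rep x
    rw [Biquad.gres_mk, Genuine.up_mk]
    congr 1
    ext
    exact hfix x
  · intro x
    show q.res (q.nm x) = x * Genuine.up σ x
    rw [hq1, hq2]
    obtain ⟨x, rfl⟩ := exists_rep x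
    rw [Biquad.gnm_mk, Biquad.gres_mk, Genuine.up_mk, ← QuotientGroup.mk_mul]
    congr 1
    ext
    exact hn x
  · show q.res (sqClass (-1)) = sqClass (-1)
    rw [hq1, Biquad.gres_mk]
    congr 1
    ext
    show algebraMap K E ((-1 : Kˣ) : K) = ((-1 : Eˣ) : E)
    rw [Units.val_neg, Units.val_one, map_neg, map_one, Units.val_neg, Units.val_one]

end Pool.Agent.KRad
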