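import Pool.Agent.KRad.TowerPos
import Pool.Agent.KRad.Fourier
import Pool.Agent.KRad.LemmaP
import Pool.Agent.KRad.QL

/-!
# Module E: Hilbert 90 for the Kaplansky radical
-/

namespace Pool.Agent.KRad

open Pool.Agent.Hhelper2 Pool.Agent.Hhelper2.QuadExt Pool.Agent.Hhelper2.Tower Additive Module

universe u

/-- The rank function of a field is a cut function. -/
theorem isCut_sv {K : Type u} [Field K] (h2 : (2 : K) ≠ 0) [Finite (SqClass K)] :
    IsCut (fun x : VV K => (sv K x : ℝ)) :=
  isCut_of_pos _ (by simp [sv_zero h2]) (fun H x => tower_pos h2 H x)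

/-- Covering principle: if for every `w` the coset `y + A` contains an element which splits with
`w`, then it contains a radical element. -/
theorem covering {E : Type u} [Field E] (h2 : (2 : E) ≠ 0) [Finite (SqClass E)]
    (A : Submodule (ZMod 2) (VV E)) (y : VV E) (hy : ∀ w : VV E, ∃ a ∈ A, Sp E (y + a) w) :
    ∃ a ∈ A, ∀ w, Sp E (y + a) w := by
  classical
  have := Fintype.ofFinite (VV E)
  have := Fintype.ofFinite A
  have hdg : ∀ z : VV E, (2 : ℝ) ^ (-(sv E z : ℝ)) * (Nat.card (VV E) : ℝ) = dg E z := by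
    intro z
    have h3 := card_mul h2 z
    rw [h3, Real.rpow_neg (by norm_num), Real.rpow_natCast]
    push_cast
    field_simp
  have hcount : ∀ z : VV E, ∑ a : A, dg E (z + (a : VV E)) =
      ∑ w : VV E, (Finset.univ.filter (fun a : A => Sp E (z + (a : VV E)) w)).card := by
    intro z
    have h3 : ∀ a : A, dg E (z + (a : VV E)) =
        (Finset.univ.filter (fun w : VV E => Sp E (z + (a : VV E)) w)).card := by
      intro a
      rw [dg, Nat.card_eq_fintype_card, Fintype.card_subtype]
    rw [Finset.sum_congr rfl (fun a _ => h3 a)]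
    exact Finset.sum_card_bipartiteAbove_eq_sum_card_bipartiteBelow
      (s := (Finset.univ : Finset A)) (t := (Finset.univ : Finset (VV E)))
      (fun (a : A) (w : VV E) => Sp E (z + (a : VV E)) w)
  have hcoset : ∀ w : VV E, (Finset.univ.filter (fun a : A => Sp E (y + (a : VV E)) w)).card =
      (Finset.univ.filter (fun a : A => Sp E (0 + (a : VV E)) w)).card := by
    intro w
    obtain ⟨a₀, ha₀, hw⟩ := hy w
    apply Finset.card_bij (fun (a : A) _ => (⟨a₀, ha₀⟩ : A) + a)
    · intro a ha
      rw [Finset.mem_filter] at ha ⊢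
      refine ⟨Finset.mem_univ _, ?_⟩
      have h3 := sp_add_left h2 hw ha.2
      have e : y + a₀ + (y + (a : VV E)) = 0 + (((⟨a₀, ha₀⟩ : A) + a : A) : VV E) := by
        have : y + a₀ + (y + (a : VV E)) = (y + y) + (a₀ + a) := by abel
        rw [this, Codim.add_self]
        rfl
      rw [e] at h3
      exact h3
    · intro a _ a' _ h
      exact add_left_cancel h
    · intro a ha
      rw [Finset.mem_filter] at ha
      refine ⟨(⟨a₀, ha₀⟩ : A) + a, ?_, ?_⟩
      · rw [Finset.mem_filter]
        refine ⟨Finset.mem_univ _, ?_⟩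
        have h3 := sp_add_left h2 hw ha.2
        have e : y + a₀ + (0 + (a : VV E)) = y + (((⟨a₀, ha₀⟩ : A) + a : A) : VV E) := by
          rw [zero_add, add_assoc]
          rfl
        rw [e] at h3
        exact h3
      · apply Subtype.ext
        show a₀ + (a₀ + (a : VV E)) = a
        rw [← add_assoc, Codim.add_self, zero_add]
  have hsum : ∑ a : A, dg E (y + (a : VV E)) = ∑ a : A, dg E (0 + (a : VV E)) := by
    rw [hcount, hcount]
    exact Finset.sum_congr rfl (fun w _ => hcoset w)
  have hpos : (0 : ℝ) < Nat.card (VV E) := by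
    have : 0 < Nat.card (VV E) := Nat.card_pos
    exact_mod_cast this
  have hle : ∑ᶠ a : A, (2 : ℝ) ^ (-((fun x : VV E => (sv E x : ℝ)) (a : VV E))) ≤
      ∑ᶠ a : A, (2 : ℝ) ^ (-((fun x : VV E => (sv E x : ℝ)) (y + (a : VV E)))) := by
    rw [finsum_eq_sum_of_fintype, finsum_eq_sum_of_fintype]
    apply le_of_mul_le_mul_right _ hpos
    rw [Finset.sum_mul, Finset.sum_mul]
    have e1 : ∀ a : A, (2 : ℝ) ^ (-((sv E (a : VV E) : ℝ))) * (Nat.card (VV E) : ℝ) =
        (dg E (0 + (a : VV E)) : ℝ) := by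
      intro a
      rw [zero_add, hdg]
    rw [Finset.sum_congr rfl (fun a _ => e1 a),
      Finset.sum_congr rfl (fun (a : A) _ => hdg (y + (a : VV E)))]
    rw [← Nat.cast_sum, ← Nat.cast_sum, hsum]
  obtain ⟨a, ha, h3⟩ := lemP (isCut_sv h2) A y hle
  refine ⟨a, ha, (sv_eq_zero_iff h2 _).1 ?_⟩
  have h4 : ((sv E (y + a) : ℕ) : ℝ) = 0 := h3
  exact_mod_cast h4

/-- Hilbert 90 for the Kaplansky radical: a class whose norm is radical becomes radical after
multiplication with a class of the base field. -/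
theorem hilbert90 {K E : Type u} [Field K] [Field E] {a : SqClass K}
    [Finite (SqClass K)] (q : QL K E a) (y : VV E) (hy : ∀ z, Sp K (lin q.nm y) z) :
    ∃ f : VV K, ∀ w, Sp E (y + lin q.res f) w := by
  have := finite_ext q.toQE
  obtain ⟨c, ⟨c', hc'⟩, h⟩ := covering q.two_ne (LinearMap.range (lin q.res)) y (by
    intro w
    obtain ⟨f, hf⟩ := q.loc (toMul y) (fun z => hy (ofMul z)) (toMul w)
    exact ⟨lin q.res (ofMul f), ⟨_, rfl⟩, hf⟩)
  exact ⟨c', by rw [hc']; exact h⟩

/-- Module E. The norm map of a quadratic extension is onto on Kaplansky radicals. -/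
theorem rn {K E : Type u} [Field K] [Field E] {a : SqClass K} (h2 : (2 : K) ≠ 0)
    [Finite (SqClass K)] (q : QL K E a) (x : VV K) (hx : ∀ y, Sp K x y) :
    ∃ z : VV E, (∀ y, Sp E z y) ∧ lin q.nm z = x := by
  obtain ⟨y, hy⟩ := q.range_nm (toMul x) (sp_symm h2 (hx (ofMul a)))
  have hy' : lin q.nm (ofMul y) = x := hy
  obtain ⟨f, hf⟩ := hilbert90 q (ofMul y) (by rw [hy']; exact hx)
  refine ⟨ofMul y + lin q.res f, hf, ?_⟩
  have e2 : lin q.nm (lin q.res f) = 0 := q.nm_res (toMul f)
  rw [map_add, hy', e2, add_zero]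

/-- Norms of radical classes are radical. -/
theorem nm_radical {K E : Type u} [Field K] [Field E] {a : SqClass K} (h2 : (2 : K) ≠ 0)
    (q : QL K E a) (z : VV E) (hz : ∀ w, Sp E z w) : ∀ y, Sp K (lin q.nm z) y := by
  intro y
  apply sp_symm h2
  exact q.proj (toMul y) (toMul z) (sp_symm q.two_ne (hz (lin q.res y)))

end Pool.Agent.KRad
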