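import Pool.Agent.KRad.RN
import Pool.Agent.KRad.Biquad

/-!
# Module G: splitting along an independent pair
-/

namespace Pool.Agent.KRad

open Pool.Agent.Hhelper2 Pool.Agent.Hhelper2.QuadExt Pool.Agent.Hhelper2.Tower Additive Module

universe u

section abs

variable {V : Type*} [AddCommGroup V] [Module (ZMod 2) V] [Finite V]

omit [Finite V] in
theorem add_self' (x : V) : x + x = 0 := Codim.add_self x

theorem zmod2_cases : ∀ c : ZMod 2, c = 0 ∨ c = 1 := by decide

/-- Independence in terms of the characters in the support of the measure. -/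
theorem indep_iff {s : V → ℝ} {μ : Dual (ZMod 2) V → ℝ} (hμ : ∀ χ, 0 ≤ μ χ)
    (hs : ∀ x, s x = ∑ᶠ χ : Dual (ZMod 2) V, if χ x = 1 then μ χ else 0) (x y : V) :
    s (x + y) = s x + s y ↔ ∀ χ : Dual (ZMod 2) V, 0 < μ χ → ¬ (χ x = 1 ∧ χ y = 1) := by
  classical
  have hfin : Finite (Dual (ZMod 2) V) := inferInstance
  have := Fintype.ofFinite (Dual (ZMod 2) V)
  have key : s x + s y - s (x + y) =
      ∑ χ : Dual (ZMod 2) V, if (χ x = 1 ∧ χ y = 1) then 2 * μ χ else 0 := by
    rw [hs, hs, hs, finsum_eq_sum_of_fintype, finsum_eq_sum_of_fintype, finsum_eq_sum_of_fintype,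
      ← Finset.sum_add_distrib, ← Finset.sum_sub_distrib]
    apply Finset.sum_congr rfl
    intro χ _
    have h0 : (0 : ZMod 2) ≠ 1 := by decide
    have h1 : (1 : ZMod 2) + 1 = 0 := by decide
    rcases zmod2_cases (χ x) with hx | hx <;> rcases zmod2_cases (χ y) with hy | hy <;>
      simp [map_add, hx, hy, h1] <;> ring
  constructor
  · intro h χ hχ hc
    rw [h, sub_self] at key
    have h3 := (Finset.sum_eq_zero_iff_of_nonneg (by
      intro χ _
      split_ifs
      · exact mul_nonneg (by norm_num) (hμ χ)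
      · exact le_refl 0)).1 key.symm χ (Finset.mem_univ _)
    rw [if_pos hc] at h3
    linarith
  · intro h
    have h3 : ∑ χ : Dual (ZMod 2) V, (if (χ x = 1 ∧ χ y = 1) then 2 * μ χ else 0) = 0 := by
      apply Finset.sum_eq_zero
      intro χ _
      split_ifs with hc
      · have := h χ
        have h4 : ¬ 0 < μ χ := fun h5 => this h5 hc
        have h5 := hμ χ
        have : μ χ = 0 := le_antisymm (not_lt.1 h4) h5
        rw [this, mul_zero]
      · rfl
    rw [h3] at key
    linarith

end abs

/-- Module G. -/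
theorem split5 (K : Type u) [Field K] (h2 : (2 : K) ≠ 0) [Finite (SqClass K)] (m w b : VV K)
    (h : sv K (m + w) = sv K m + sv K w) :
    ∃ x : VV K, sv K b = sv K x + sv K (b + x) ∧ sv K (x + w) = sv K x + sv K w ∧
      sv K (b + x + m) = sv K (b + x) + sv K m := by
  obtain ⟨μ, hμ, hs⟩ := isCut_sv (K := K) h2
  have ind : ∀ x y : VV K, sv K (x + y) = sv K x + sv K y ↔
      ∀ χ : Dual (ZMod 2) (VV K), 0 < μ χ → ¬ (χ x = 1 ∧ χ y = 1) := by
    intro x y
    rw [← indep_iff (s := fun x : VV K => (sv K x : ℝ)) hμ hs x y]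
    constructor
    · intro h
      show ((sv K (x + y) : ℕ) : ℝ) = _
      rw [h]; push_cast; rfl
    · intro h
      have : ((sv K (x + y) : ℕ) : ℝ) = ((sv K x + sv K y : ℕ) : ℝ) := by
        push_cast; exact h
      exact_mod_cast this
  have h0 : sv K (0 : VV K) = 0 := sv_zero h2
  set c : VV K := m + w with hc
  -- trivial cases
  by_cases hb0 : b = 0
  · refine ⟨0, ?_, ?_, ?_⟩
    · rw [hb0, add_zero, h0]
    · rw [zero_add, h0, zero_add]
    · rw [hb0, add_zero, zero_add, h0, zero_add]
  by_cases hc0 : c = 0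
  · have hmw : m = w := by
      have h3 : m + w = 0 := hc0
      exact Codim.eq_of_add_eq_zero h3
    rw [hc0, h0] at h
    have hm : sv K m = 0 := by omega
    refine ⟨0, ?_, ?_, ?_⟩
    · rw [add_zero, h0, zero_add]
    · rw [zero_add, h0, zero_add]
    · rw [add_zero]
      rw [ind]
      intro χ hχ hcon
      have h3 := (ind m m).1 (by rw [add_self', h0, hm]) χ hχ
      exact h3 ⟨hcon.2, hcon.2⟩
  by_cases hbc : b = c
  · refine ⟨m, ?_, h, ?_⟩
    · rw [hbc]
      have : c + m = w := by
        rw [hc, add_comm m w, add_assoc, add_self', add_zero]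
      rw [this, h]
    · have : b + m = w := by
        rw [hbc, hc, add_comm m w, add_assoc, add_self', add_zero]
      rw [this, add_comm w m, ← hc, h, add_comm]
  -- the biquadratic extension
  obtain ⟨E₁, E₂, E₃, E, _, _, _, _, q₁, q₂, q₃, p₁, p₂, p₃, r12, r13, n12, n13, hrel⟩ :=
    biquad K h2 (toMul b) (toMul c) (fun h => hb0 h) (fun h => hc0 h) (fun h => hbc h)
  have := finite_ext q₁.toQE
  have := finite_ext q₂.toQE
  have := finite_ext q₃.toQE
  have := finite_ext p₁.toQE
  -- the class `m` becomes radical in `E₁`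
  have hm1 : sv E₁ (lin q₁.res m) = 0 := by
    have h3 := sv_step h2 q₁.toQE m
    have h4 : m + ofMul (toMul c) = w := by
      show m + c = w
      rw [hc, ← add_assoc, add_self', zero_add]
    rw [h4] at h3
    have h5 : sv K (ofMul (toMul c)) = sv K m + sv K w := h
    omega
  obtain ⟨ρ, hρ, hnρ⟩ := rn q₁.two_ne p₁ (lin q₁.res m) ((sv_eq_zero_iff q₁.two_ne _).1 hm1)
  have hn1 : p₁.nm (toMul ρ) = q₁.res (toMul m) := hnρ
  have hN : q₁.nm (p₁.nm (toMul ρ)) = 1 := by rw [hn1, q₁.nm_res]
  -- norms of radical elements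
  have main : ∀ (b' : SqClass K) (E' : Type u) [Field E'] (q : QL K E' b') (a' : SqClass E')
      (p : QL E' E a') , q.nm (p.nm (toMul ρ)) = 1 →
      ∃ x : VV K, p.nm (toMul ρ) = q.res (toMul x) ∧ sv K (ofMul b') = sv K x + sv K (x + ofMul b') := by
    intro b' E' _ q a' p hq
    have := finite_ext q.toQE
    obtain ⟨x, hx⟩ := q.ker_nm _ hq
    refine ⟨ofMul x, hx, ?_⟩
    have h3 : sv E' (lin q.res (ofMul x)) = 0 := by
      rw [sv_eq_zero_iff q.two_ne]
      intro y
      apply sp_symm q.two_ne
      have h4 : FieldSplit E (p.res (toMul y)) (toMul ρ) :=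
        sp_symm p.two_ne (hρ (ofMul (p.res (toMul y))))
      have h5 := p.proj _ _ h4
      rw [hx] at h5
      exact h5
    have h4 := sv_step h2 q.toQE (ofMul x)
    omega
  obtain ⟨xb, hxb, hDb⟩ := main _ E₂ q₂ _ p₂ (by rw [← n12]; exact hN)
  obtain ⟨xc, hxc, hDc⟩ := main _ E₃ q₃ _ p₃ (by rw [← n13]; exact hN)
  have hrel' := hrel (toMul ρ)
  rw [hn1, hxb, hxc, ← r12, ← r13, ← map_mul, ← map_mul, ← map_mul, ← map_mul, q₁.nm_res, map_one,
    map_one] at hrel'
  -- the class of `m + xb + xc`
  have hfour : m + xb + xc = 0 ∨ m + xb + xc = b ∨ m + xb + xc = c ∨ m + xb + xc = b + c := by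
    rcases (p₁.res_one _).1 hrel' with h3 | h3
    · rcases (q₁.res_one _).1 h3 with h4 | h4
      · exact Or.inl h4
      · exact Or.inr (Or.inr (Or.inl h4))
    · have h4 : q₁.res (toMul m * toMul xb * toMul xc * toMul b) = 1 := by
        rw [map_mul, h3]
        exact Codim.sqClass_mul_self _
      rcases (q₁.res_one _).1 h4 with h5 | h5
      · right; left
        have h6 : m + xb + xc + b = 0 := h5
        exact Codim.eq_of_add_eq_zero h6
      · right; right; right
        have h6 : m + xb + xc + b = c := h5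
        have h7 : m + xb + xc + b + b = m + xb + xc := by rw [add_assoc, add_self', add_zero]
        rw [← h6, add_comm b, h7]
  have hDb' : sv K b = sv K xb + sv K (xb + b) := hDb
  have hDc' : sv K (b + c) = sv K xc + sv K (xc + (b + c)) := hDc
  obtain ⟨x, hx1, hx2⟩ : ∃ x, sv K b = sv K x + sv K (x + b) ∧
      sv K (b + c) = sv K (x + m) + sv K (x + m + (b + c)) := by
    have e : ∀ x : VV K, x + b + b = x := fun x => by rw [add_assoc, add_self', add_zero]
    have e1 : ∀ x : VV K, x + c + c = x := fun x => by rw [add_assoc, add_self', add_zero]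
    have e2 : ∀ z : VV K, m + xb + xc = z → xb + m = z + xc := by
      intro z hz
      rw [← hz, add_assoc, add_self', add_zero, add_comm]
    rcases hfour with h3 | h3 | h3 | h3
    · refine ⟨xb, hDb', ?_⟩
      rw [e2 _ h3, zero_add]
      exact hDc'
    · refine ⟨xb + b, ?_, ?_⟩
      · rw [e, hDb', add_comm]
      · have h4 : xb + b + m = xc := by
          have := e2 _ h3
          rw [add_assoc, add_comm b m, ← add_assoc, this, add_comm b xc, e]
        rw [h4]; exact hDc'
    · refine ⟨xb + b, ?_, ?_⟩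
      · rw [e, hDb', add_comm]
      · have h4 : xb + b + m = xc + (b + c) := by
          have := e2 _ h3
          rw [add_assoc, add_comm b m, ← add_assoc, this]
          abel
        have h5 : xc + (b + c) + (b + c) = xc := by rw [add_assoc, add_self', add_zero]
        rw [h4, h5, hDc']
        exact add_comm _ _
    · refine ⟨xb, hDb', ?_⟩
      have h4 : xb + m = xc + (b + c) := by rw [e2 _ h3, add_comm]
      have h5 : xc + (b + c) + (b + c) = xc := by rw [add_assoc, add_self', add_zero]
      rw [h4, h5, hDc']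
      exact add_comm _ _
  -- characters
  have c1 : ∀ χ : Dual (ZMod 2) (VV K), 0 < μ χ → χ b = 0 → χ x = 0 := by
    intro χ hχ hb
    have h3 := (ind x (x + b)).1 (by rw [← add_assoc, add_self', zero_add, hx1]) χ hχ
    rcases zmod2_cases (χ x) with h4 | h4
    · exact h4
    · exact absurd ⟨h4, by rw [map_add, h4, hb, add_zero]⟩ h3
  have c2 : ∀ χ : Dual (ZMod 2) (VV K), 0 < μ χ → χ (b + c) = 0 → χ (x + m) = 0 := by
    intro χ hχ hb
    have h3 := (ind (x + m) (x + m + (b + c))).1 (by
      rw [← add_assoc, add_self', zero_add, hx2]) χ hχ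
    rcases zmod2_cases (χ (x + m)) with h4 | h4
    · exact h4
    · exact absurd ⟨h4, by rw [map_add, h4, hb, add_zero]⟩ h3
  have c3 := (ind m w).1 h
  have d0 : (1 : ZMod 2) + 1 = 0 := by decide
  have d1 : (0 : ZMod 2) ≠ 1 := by decide
  refine ⟨x, ?_, ?_, ?_⟩
  · rw [add_comm b x]; exact hx1
  · rw [ind]
    rintro χ hχ ⟨h3, h4⟩
    have hm : χ m = 0 := by
      rcases zmod2_cases (χ m) with h5 | h5
      · exact h5
      · exact absurd ⟨h5, h4⟩ (c3 χ hχ)
    have hb : χ b = 1 := by
      rcases zmod2_cases (χ b) with h5 | h5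
      · rw [c1 χ hχ h5] at h3
        exact absurd h3 d1
      · exact h5
    have hbc' : χ (b + c) = 0 := by
      rw [map_add, hc, map_add, hb, hm, h4, zero_add, d0]
    have := c2 χ hχ hbc'
    rw [map_add, h3, hm, add_zero] at this
    exact d1 this.symm
  · rw [ind]
    rintro χ hχ ⟨h3, h4⟩
    have hw : χ w = 0 := by
      rcases zmod2_cases (χ w) with h5 | h5
      · exact h5
      · exact absurd ⟨h4, h5⟩ (c3 χ hχ)
    rcases zmod2_cases (χ b) with h5 | h5
    · rw [map_add, h5, c1 χ hχ h5, add_zero] at h3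
      exact d1 h3
    · have hbc' : χ (b + c) = 0 := by
        rw [map_add, hc, map_add, h5, h4, hw, add_zero, d0]
      have h6 := c2 χ hχ hbc'
      rw [map_add, h4] at h6
      rw [map_add, h5] at h3
      rcases zmod2_cases (χ x) with h7 | h7
      · rw [h7, zero_add] at h6
        exact d1 h6.symm
      · rw [h7, d0] at h3
        exact d1 h3

end Pool.Agent.KRad
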