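import Pool.Agent.KRad.Basic

/-!
# Module A: the rank function in a quadratic extension
-/

namespace Pool.Agent.KRad

open Pool.Agent.Hhelper2 Pool.Agent.Hhelper2.QuadExt Pool.Agent.Hhelper2.Tower Additive Module

universe u

section linalg

variable {k V W : Type*} [Field k] [AddCommGroup V] [Module k V] [AddCommGroup W] [Module k W]

/-- Rank-nullity for the restriction of a linear map to a submodule. -/
theorem finrank_map_add_inf_ker (f : V →ₗ[k] W) (S : Submodule k V) [FiniteDimensional k V] :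
    finrank k (S.map f) + finrank k (S ⊓ LinearMap.ker f : Submodule k V) = finrank k S := by
  have h := LinearMap.finrank_range_add_finrank_ker (f.domRestrict S)
  rw [LinearMap.range_domRestrict] at h
  have h2 : finrank k (LinearMap.ker (f.domRestrict S)) =
      finrank k (S ⊓ LinearMap.ker f : Submodule k V) := by
    have h3 : (LinearMap.ker (f.domRestrict S)).map S.subtype = S ⊓ LinearMap.ker f := by
      ext v
      simp only [Submodule.mem_map, LinearMap.mem_ker, Submodule.mem_inf, Submodule.subtype_apply,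
        Subtype.exists, LinearMap.domRestrict_apply]
      constructor
      · rintro ⟨a, ha, h4, rfl⟩
        exact ⟨ha, h4⟩
      · rintro ⟨h4, h5⟩
        exact ⟨v, h4, h5, rfl⟩
    rw [← h3]
    exact (Submodule.finrank_map_subtype_eq _ _).symm
  omega

/-- The dimension of a preimage. -/
theorem finrank_comap_eq (f : V →ₗ[k] W) (T : Submodule k W) [FiniteDimensional k V] :
    finrank k (T.comap f) =
      finrank k (LinearMap.range f ⊓ T : Submodule k W) + finrank k (LinearMap.ker f) := by
  have h := finrank_map_add_inf_ker f (T.comap f)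
  rw [Submodule.map_comap_eq] at h
  have h2 : T.comap f ⊓ LinearMap.ker f = LinearMap.ker f := by
    apply inf_eq_right.2
    exact LinearMap.ker_le_comap f
  rw [h2] at h
  exact h.symm

end linalg

/-- The rank function of `E = K(√a)` at a class of `K`. -/
theorem sv_step {K E : Type u} [Field K] [Field E] {a : SqClass K} (h2 : (2 : K) ≠ 0)
    [Finite (SqClass K)] (qe : QE K E a) (x : VV K) :
    sv E (lin qe.res x) + sv K (ofMul a) = sv K x + sv K (x + ofMul a) := by
  have := finite_ext qe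
  obtain ⟨Q, _, _, _, β, hSp, symm, cs⟩ := exists_symbol K h2
  obtain ⟨QE', _, _, _, βE, hSpE, -, -⟩ := exists_symbol E qe.two_ne
  have s1 := sv_add_finrank_ker β hSp x
  have s2 := sv_add_finrank_ker β hSp (x + ofMul a)
  have s3 := sv_add_finrank_ker β hSp (ofMul a)
  have s4 := sv_add_finrank_ker βE hSpE (lin qe.res x)
  set r : VV K →ₗ[ZMod 2] VV E := lin qe.res with hr
  set N : VV E →ₗ[ZMod 2] VV K := lin qe.nm with hN
  set al : VV K := ofMul a with hal
  -- properties of the extension, in additive notation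
  have n1 : ∀ x, N (r x) = 0 := fun x => qe.nm_res (toMul x)
  have n2 : ∀ x y, βE (r x) y = 0 → β x (N y) = 0 := by
    intro x y h
    exact (hSp _ _).2 (qe.proj (toMul x) (toMul y) ((hSpE _ _).1 h))
  have n3 : ∀ x y, β x (N y) = 0 → ∃ h, βE (r x) (y + r h) = 0 := by
    intro x y h
    obtain ⟨t, ht⟩ := qe.principle (toMul x) (toMul y) ((hSp _ _).1 h)
    exact ⟨ofMul t, (hSpE _ _).2 ht⟩
  have n4 : ∀ y, N y = 0 → ∃ h, y = r h := by
    intro y h
    obtain ⟨t, ht⟩ := qe.ker_nm (toMul y) h
    exact ⟨ofMul t, ht⟩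
  have n5 : ∀ y, β al y = 0 → ∃ z, N z = y := by
    intro y h
    obtain ⟨t, ht⟩ := qe.range_nm (toMul y) ((hSp _ _).1 h)
    exact ⟨ofMul t, ht⟩
  have n5' : ∀ z, β al (N z) = 0 := fun z => (hSp _ _).2 (qe.nm_split (toMul z))
  have n0 : ∀ x y, β x y = 0 → βE (r x) (r y) = 0 := fun x y h =>
    (hSpE _ _).2 (qe.res_split _ _ ((hSp _ _).1 h))
  have n6 : ∀ x h, βE (r x) (r h) = 0 → ∃ w, β x h = β al w := by
    intro x h hh
    obtain ⟨w, h3, h4⟩ := qe.killed (toMul x) (toMul h) ((hSpE _ _).1 hh)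
    have h3' : β x (h + ofMul w) = 0 := (hSp _ _).2 h3
    have h4' : β (al + x) (ofMul w) = 0 := (hSp _ _).2 h4
    refine ⟨ofMul w, ?_⟩
    rw [map_add] at h3' h4'
    rw [LinearMap.add_apply] at h4'
    rw [Codim.eq_of_add_eq_zero h3', Codim.eq_of_add_eq_zero h4']
  have n7 : ∀ x : VV K, r x = 0 ↔ x = 0 ∨ x = al := fun x => qe.res_one (toMul x)
  have ral : r al = 0 := (n7 al).2 (Or.inr rfl)
  -- lifting an element of `N(x) ∩ N(a)`
  have lift1 : ∀ x n, β x n = 0 → β al n = 0 → ∃ y, N y = n ∧ βE (r x) y = 0 := by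
    intro x n h1 h3
    obtain ⟨y, rfl⟩ := n5 n h3
    obtain ⟨h, hh⟩ := n3 x y h1
    exact ⟨y + r h, by rw [map_add, n1, add_zero], hh⟩
  -- (1), (2)
  have f1 := LinearMap.finrank_range_add_finrank_ker N
  have f2 := LinearMap.finrank_range_add_finrank_ker r
  have e1 : LinearMap.range N = LinearMap.ker (β al) := by
    ext y
    constructor
    · rintro ⟨z, rfl⟩
      exact n5' z
    · intro h
      exact n5 y h
  have e2 : LinearMap.ker N = LinearMap.range r := by
    ext y
    constructor
    · intro h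
      obtain ⟨t, rfl⟩ := n4 y h
      exact ⟨t, rfl⟩
    · rintro ⟨z, rfl⟩
      exact n1 z
  rw [e1, e2] at f1
  -- (3), (4)
  have f3 := finrank_map_add_inf_ker N (LinearMap.ker (βE (r x)))
  have e3 : (LinearMap.ker (βE (r x))).map N = LinearMap.ker (β x) ⊓ LinearMap.ker (β al) := by
    ext y
    constructor
    · rintro ⟨z, hz, rfl⟩
      exact ⟨n2 x z hz, n5' z⟩
    · rintro ⟨h1, h3⟩
      obtain ⟨z, hz1, hz2⟩ := lift1 x y h1 h3
      exact ⟨z, hz2, hz1⟩
  have e4 : LinearMap.ker (βE (r x)) ⊓ LinearMap.ker N =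
      ((LinearMap.range (β al)).comap (β x)).map r := by
    ext y
    constructor
    · rintro ⟨h1, h3⟩
      obtain ⟨h, rfl⟩ := n4 y h3
      obtain ⟨w, hw⟩ := n6 x h h1
      exact ⟨h, ⟨w, hw.symm⟩, rfl⟩
    · rintro ⟨h, ⟨w, hw⟩, rfl⟩
      refine ⟨?_, n1 h⟩
      -- common slot
      obtain ⟨t, ht1, ht2⟩ := cs al w x h hw
      rw [hw] at ht2
      have h5 : βE (r x) (r (h + t)) = 0 := n0 _ _ (by rw [map_add, ht2, Codim.add_self])
      have h6 : βE (r (x + al)) (r t) = 0 := n0 _ _ (by
        rw [map_add, LinearMap.add_apply, ht1, ht2, hw, Codim.add_self])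
      rw [map_add r, ral, add_zero] at h6
      rw [map_add r, map_add, h6, add_zero] at h5
      exact h5
  have f4 := finrank_map_add_inf_ker r ((LinearMap.range (β al)).comap (β x))
  have e5 : (LinearMap.range (β al)).comap (β x) ⊓ LinearMap.ker r = LinearMap.ker r := by
    apply inf_eq_right.2
    intro y hy
    rcases (n7 y).1 hy with rfl | rfl
    · exact Submodule.zero_mem _
    · exact ⟨x, symm _ _⟩
  -- (5)
  have f5 := finrank_comap_eq (β x) (LinearMap.range (β al))
  -- (6)
  have f6 := finrank_map_add_inf_ker (β x) (LinearMap.ker (β (x + al)))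
  have e6 : (LinearMap.ker (β (x + al))).map (β x) =
      LinearMap.range (β x) ⊓ LinearMap.range (β al) := by
    ext q
    constructor
    · rintro ⟨y, hy, rfl⟩
      refine ⟨⟨y, rfl⟩, ⟨y, ?_⟩⟩
      have hy' : β (x + al) y = 0 := hy
      rw [map_add, LinearMap.add_apply] at hy'
      exact (Codim.eq_of_add_eq_zero hy').symm
    · rintro ⟨⟨y, rfl⟩, ⟨w, hw⟩⟩
      obtain ⟨t, ht1, ht2⟩ := cs al w x y hw
      rw [hw] at ht1 ht2
      refine ⟨t, ?_, ht2⟩
      show β (x + al) t = 0
      rw [map_add, LinearMap.add_apply, ht1, ht2, Codim.add_self]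
  have e7 : LinearMap.ker (β (x + al)) ⊓ LinearMap.ker (β x) =
      LinearMap.ker (β x) ⊓ LinearMap.ker (β al) := by
    ext y
    constructor
    · rintro ⟨h1, h3⟩
      have h1' : β (x + al) y = 0 := h1
      have h3' : β x y = 0 := h3
      rw [map_add, LinearMap.add_apply, h3', zero_add] at h1'
      exact ⟨h3, h1'⟩
    · rintro ⟨h1, h3⟩
      have h1' : β x y = 0 := h1
      have h3' : β al y = 0 := h3
      refine ⟨?_, h1⟩
      show β (x + al) y = 0
      rw [map_add, LinearMap.add_apply, h1', h3', add_zero]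
  rw [e3, e4] at f3
  rw [e5] at f4
  rw [e6, e7] at f6
  omega

end Pool.Agent.KRad
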