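import Pool.Agent.KRad.StepA

/-!
# Module B1: positivity from multiquadratic towers
-/

namespace Pool.Agent.KRad

open Pool.Agent.Hhelper2 Pool.Agent.Hhelper2.QuadExt Pool.Agent.Hhelper2.Tower Additive Module

universe u

/-- Summation along a two to one linear map. -/
theorem finsum_map_two {V W : Type*} [AddCommGroup V] [Module (ZMod 2) V] [Finite V]
    [AddCommGroup W] [Module (ZMod 2) W] (f : V →ₗ[ZMod 2] W) (H : Submodule (ZMod 2) V) (al : V)
    (hal : al ∈ H) (hal0 : al ≠ 0) (hker : ∀ x, f x = 0 ↔ x = 0 ∨ x = al) (g : W → ℝ) :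
    2 * ∑ᶠ h : H.map f, g (h : W) = ∑ᶠ h : H, g (f (h : V)) := by
  classical
  have : Finite (H.map f) := Set.Finite.to_subtype (Set.Finite.image f (Set.toFinite _))
  have := Fintype.ofFinite H
  have := Fintype.ofFinite (H.map f)
  rw [finsum_eq_sum_of_fintype, finsum_eq_sum_of_fintype]
  let φ : H → H.map f := fun h => ⟨f h, h, h.2, rfl⟩
  have h1 := Finset.sum_fiberwise (s := (Finset.univ : Finset H)) (g := φ)
    (f := fun h : H => g (f (h : V)))
  rw [← h1, Finset.mul_sum]
  apply Finset.sum_congr rfl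
  rintro ⟨_, h, hh, rfl⟩ _
  have h3 : ∀ k ∈ (Finset.univ : Finset H).filter (fun k => φ k = ⟨f h, h, hh, rfl⟩),
      g (f (k : V)) = g (f h) := by
    intro k hk
    rw [Finset.mem_filter] at hk
    rw [show f (k : V) = f h from congrArg Subtype.val hk.2]
  rw [Finset.sum_congr rfl h3, Finset.sum_const, nsmul_eq_mul]
  have h4 : (Finset.univ : Finset H).filter (fun k => φ k = ⟨f h, h, hh, rfl⟩) =
      {⟨h, hh⟩, ⟨h + al, H.add_mem hh hal⟩} := by
    ext k
    rw [Finset.mem_filter, Finset.mem_insert, Finset.mem_singleton]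
    constructor
    · rintro ⟨-, hk⟩
      have h5 : f (k : V) = f h := congrArg Subtype.val hk
      have h6 : f ((k : V) - h) = 0 := by rw [map_sub, h5, sub_self]
      rcases (hker _).1 h6 with h7 | h7
      · left
        exact Subtype.ext (sub_eq_zero.1 h7)
      · right
        apply Subtype.ext
        show (k : V) = h + al
        rw [← h7]; abel
    · rintro (rfl | rfl)
      · exact ⟨Finset.mem_univ _, rfl⟩
      · refine ⟨Finset.mem_univ _, Subtype.ext ?_⟩
        show f (h + al) = f h
        rw [map_add, (hker al).2 (Or.inr rfl), add_zero]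
  have h5 : (⟨h, hh⟩ : H) ≠ ⟨h + al, H.add_mem hh hal⟩ := by
    intro h6
    apply hal0
    have h7 : h = h + al := congrArg Subtype.val h6
    exact (left_eq_add.1 h7)
  rw [h4, Finset.card_pair h5]
  norm_num

/-- For every subgroup `H` of `V` and every `x`: `∑ s(x + h) ≥ ∑ s(h)` over `h ∈ H`. -/
theorem tower_pos_aux (n : ℕ) : ∀ {K : Type u} [Field K] (_ : (2 : K) ≠ 0) [Finite (SqClass K)]
    (H : Submodule (ZMod 2) (VV K)) (_ : finrank (ZMod 2) H ≤ n) (x : VV K),
    ∑ᶠ h : H, (sv K (h : VV K) : ℝ) ≤ ∑ᶠ h : H, (sv K (x + (h : VV K)) : ℝ) := by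
  classical
  induction n with
  | zero =>
    intro K _ h2 _ H hH x
    have hb : H = ⊥ := Submodule.finrank_eq_zero.1 (Nat.le_zero.1 hH)
    subst hb
    have := Fintype.ofFinite (⊥ : Submodule (ZMod 2) (VV K))
    rw [finsum_eq_sum_of_fintype, finsum_eq_sum_of_fintype]
    apply Finset.sum_le_sum
    intro h _
    have h3 : (h : VV K) = 0 := (Submodule.mem_bot _).1 h.2
    rw [h3, sv_zero h2]
    exact_mod_cast Nat.zero_le _
  | succ n ih =>
    intro K _ h2 _ H hH x
    by_cases hb : H = ⊥
    · exact ih h2 H (by rw [hb]; simp) x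
    obtain ⟨al, hal, hal0⟩ := (Submodule.ne_bot_iff H).1 hb
    obtain ⟨E, _, ⟨qe⟩⟩ := exists_ext K h2 (toMul al) (fun h => hal0 h)
    have := finite_ext qe
    have hker : ∀ z : VV K, lin qe.res z = 0 ↔ z = 0 ∨ z = al := fun z => qe.res_one (toMul z)
    have hlt : finrank (ZMod 2) (H.map (lin qe.res)) ≤ n := by
      have h3 := LinearMap.finrank_range_add_finrank_ker ((lin qe.res).domRestrict H)
      rw [LinearMap.range_domRestrict] at h3
      have h4 : 0 < finrank (ZMod 2) (LinearMap.ker ((lin qe.res).domRestrict H)) := by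
        rw [Module.finrank_pos_iff]
        refine ⟨⟨⟨⟨al, hal⟩, ?_⟩, 0, ?_⟩⟩
        · rw [LinearMap.mem_ker, LinearMap.domRestrict_apply]
          exact (hker al).2 (Or.inr rfl)
        · intro h
          apply hal0
          exact congrArg (fun t => ((t : LinearMap.ker ((lin qe.res).domRestrict H)) :
            H).val) h
      have h5 : finrank (ZMod 2) (H.map (lin qe.res)) +
          finrank (ZMod 2) (LinearMap.ker ((lin qe.res).domRestrict H)) = finrank (ZMod 2) H := h3
      omega
    have main := ih qe.two_ne (H.map (lin qe.res)) hlt (lin qe.res x)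
    have := Fintype.ofFinite H
    have hstep : ∀ z : VV K, (sv E (lin qe.res z) : ℝ) =
        sv K z + sv K (z + al) - sv K al := by
      intro z
      have h3 := sv_step h2 qe z
      have h4 : ((sv E (lin qe.res z) + sv K (ofMul (toMul al)) : ℕ) : ℝ) =
        ((sv K z + sv K (z + ofMul (toMul al)) : ℕ) : ℝ) := by rw [h3]
      push_cast at h4
      have h5 : (ofMul (toMul al) : VV K) = al := rfl
      rw [h5] at h4
      linarith
    have hshift : ∀ y : VV K, ∑ h : H, (sv K (y + (h : VV K) + al) : ℝ) =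
        ∑ h : H, (sv K (y + (h : VV K)) : ℝ) := by
      intro y
      apply Fintype.sum_equiv (Equiv.addRight (⟨al, hal⟩ : H))
      intro h
      show (sv K (y + (h : VV K) + al) : ℝ) = sv K (y + ((h : VV K) + al))
      rw [add_assoc]
    have hsum : ∀ y : VV K, 2 * ∑ᶠ h : H.map (lin qe.res), (sv E (lin qe.res y + (h : VV E)) : ℝ) =
        2 * ∑ h : H, (sv K (y + (h : VV K)) : ℝ) - ∑ _h : H, (sv K al : ℝ) := by
      intro y
      rw [finsum_map_two (lin qe.res) H al hal hal0 hker
        (fun z => (sv E (lin qe.res y + z) : ℝ)), finsum_eq_sum_of_fintype]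
      have h3 : ∀ h : H, (sv E (lin qe.res y + lin qe.res (h : VV K)) : ℝ) =
          sv K (y + (h : VV K)) + sv K (y + (h : VV K) + al) - sv K al := by
        intro h
        rw [← map_add, hstep]
      rw [Finset.sum_congr rfl (fun h _ => h3 h), Finset.sum_sub_distrib, Finset.sum_add_distrib,
        hshift]
      ring
    have h3 := hsum x
    have h4 := hsum 0
    have h5 : ∑ᶠ h : H.map (lin qe.res), (sv E (lin qe.res 0 + (h : VV E)) : ℝ) =
        ∑ᶠ h : H.map (lin qe.res), (sv E (h : VV E) : ℝ) := by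
      apply finsum_congr
      intro h
      rw [map_zero, zero_add]
    rw [h5] at h4
    have h6 : ∑ h : H, (sv K (0 + (h : VV K)) : ℝ) = ∑ h : H, (sv K (h : VV K) : ℝ) := by
      apply Finset.sum_congr rfl
      intro h _
      rw [zero_add]
    rw [h6] at h4
    rw [finsum_eq_sum_of_fintype, finsum_eq_sum_of_fintype]
    linarith

/-- For every subgroup `H` of `V` and every `x`: `∑ s(x + h) ≥ ∑ s(h)` over `h ∈ H`. -/
theorem tower_pos {K : Type u} [Field K] (h2 : (2 : K) ≠ 0) [Finite (SqClass K)]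
    (H : Submodule (ZMod 2) (VV K)) (x : VV K) :
    ∑ᶠ h : H, (sv K (h : VV K) : ℝ) ≤ ∑ᶠ h : H, (sv K (x + (h : VV K)) : ℝ) :=
  tower_pos_aux _ h2 H (le_refl _) x

end Pool.Agent.KRad
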